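import Pool.Agent.H20.Check61d

/-!
# Product certificates: clauses refuted by multiplying strict inequalities
-/

namespace H20

open Rup

variable {n NV : ℕ} {adj : ℕ → ℕ → Bool} {X : ℕ → Fin 3 → ℝ}

/-- Rank of an arbitrary quadruple of distinct labels. -/
noncomputable def rk (a b c d : Nat) : Nat := lit 0 a b c d true

/-- Absolute value of the determinant with given rank. -/
noncomputable def F (X : ℕ → Fin 3 → ℝ) (p : Nat) : ℝ :=
  |D (X (unrank p).1) (X (unrank p).2.1) (X (unrank p).2.2.1) (X (unrank p).2.2.2)|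

section
variable (hn : n ≤ 9)
include hn

theorem f6 {a b c d : Nat} {s : Bool} (h1 : a < b) (h2 : b < c) (h3 : c < d) (h4 : d < n) :
    F X (posn 0 a b c d s) = |D (X a) (X b) (X c) (X d)| := by
  have hu := unrank_rank d (lt_of_lt_of_le h4 hn) c h3 b h2 a h1
  have e : posn 0 a b c d s = rank a b c d := by cases s <;> rfl
  rw [e, F, hu]

theorem f5 {a b c d : Nat} {s : Bool} (h1 : a < b) (h2 : a < c) (h3 : b < d) (h4 : c < d)
    (hbc : b ≠ c) (h5 : d < n) :
    F X (cs b c s fun b c s => posn 0 a b c d s) = |D (X a) (X b) (X c) (X d)| := by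
  refine cs_elim (fun j => F X j = |D (X a) (X b) (X c) (X d)|) (fun hlt => ?_) (fun hlt => ?_)
  · exact f6 hn h1 hlt h4 h5
  · rw [f6 hn h2 (by omega) h3 h5, D_swap12, abs_neg]

theorem f4 {a b c d : Nat} {s : Bool} (h1 : a < b) (h2 : a < c) (h3 : a < d)
    (h4 : c < d ∨ c < b) (hbc : b ≠ c) (hbd : b ≠ d) (hcd : c ≠ d) (hb : b < n) (h5 : d < n) :
    F X (cs b d s fun b d s => cs b c s fun b c s => posn 0 a b c d s) =
      |D (X a) (X b) (X c) (X d)| := by
  refine cs_elim (fun j => F X j = |D (X a) (X b) (X c) (X d)|) (fun hlt => ?_) (fun hlt => ?_)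
  · exact f5 hn h1 h2 hlt (by omega) hbc h5
  · rw [f5 hn h3 h2 (by omega) (by omega) (by omega) hb, D_swap13, abs_neg]

theorem f3 {a b c d : Nat} {s : Bool} (h1 : a < b) (h2 : c < d) (hac : a ≠ c) (had : a ≠ d)
    (hbc : b ≠ c) (hbd : b ≠ d) (hb : b < n) (h5 : d < n) :
    F X (cs a c s fun a c s => cs b d s fun b d s => cs b c s fun b c s =>
      posn 0 a b c d s) = |D (X a) (X b) (X c) (X d)| := by
  refine cs_elim (fun j => F X j = |D (X a) (X b) (X c) (X d)|) (fun hlt => ?_) (fun hlt => ?_)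
  · exact f4 hn h1 hlt (by omega) (by omega) hbc hbd (by omega) hb h5
  · rw [f4 hn (by omega) (by omega) (by omega) (by omega) (by omega) hbd had hb h5, D_swap02,
      abs_neg]

theorem f2 {a b c d : Nat} {s : Bool} (h1 : a < b) (hac : a ≠ c) (had : a ≠ d)
    (hbc : b ≠ c) (hbd : b ≠ d) (hcd : c ≠ d) (hb : b < n) (h4 : c < n) (h5 : d < n) :
    F X (cs c d s fun c d s => cs a c s fun a c s => cs b d s fun b d s =>
      cs b c s fun b c s => posn 0 a b c d s) = |D (X a) (X b) (X c) (X d)| := by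
  refine cs_elim (fun j => F X j = |D (X a) (X b) (X c) (X d)|) (fun hlt => ?_) (fun hlt => ?_)
  · exact f3 hn h1 hlt hac had hbc hbd hb h5
  · rw [f3 hn h1 (by omega) had hac hbd hbc hb h4, D_swap23, abs_neg]

theorem rk_sound {a b c d : Nat} (hab : a ≠ b) (hac : a ≠ c) (had : a ≠ d)
    (hbc : b ≠ c) (hbd : b ≠ d) (hcd : c ≠ d) (ha : a < n) (hb : b < n) (h4 : c < n)
    (h5 : d < n) : F X (rk a b c d) = |D (X a) (X b) (X c) (X d)| := by
  unfold rk lit
  refine cs_elim (fun j => F X j = |D (X a) (X b) (X c) (X d)|) (fun hlt => ?_) (fun hlt => ?_)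
  · exact f2 hn hlt hac had hbc hbd hcd hb h4 h5
  · rw [f2 hn (by omega) hbc hbd hac had hcd ha h4 h5, D_swap01, abs_neg]

end

/-- Remove one occurrence of `a`; `none`-free version returning a flag. -/
noncomputable def rem (a : Nat) (l : List Nat) (k : List Nat → Bool) : Bool :=
  List.rec (fun _ => false) (fun b t ih acc =>
    Bool.rec (ih (b :: acc)) (k (acc ++ t)) (Nat.beq a b)) l ([] : List Nat)

/-- Test whether two lists are permutations of each other. -/
noncomputable def permB (l : List Nat) : List Nat → Bool :=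
  List.rec (fun m => List.rec true (fun _ _ _ => false) m) (fun a _ ih m => rem a m ih) l

theorem rem_sound {a : Nat} {l : List Nat} {k : List Nat → Bool} (h : rem a l k = true) :
    ∃ t, l.Perm (a :: t) ∧ k t = true := by
  have key : ∀ (l acc : List Nat), (List.rec (fun _ => false) (fun b t ih acc =>
      Bool.rec (ih (b :: acc)) (k (acc ++ t)) (Nat.beq a b)) l acc : Bool) = true →
      ∃ t, (acc ++ l).Perm (a :: t) ∧ k t = true := by
    intro l
    induction l with
    | nil => intro acc h; exact absurd h (by simp)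
    | cons b t ih =>
      intro acc h
      dsimp only at h
      cases hb : Nat.beq a b with
      | true =>
        rw [hb] at h
        have : a = b := by rwa [Nat.beq_eq] at hb
        subst this
        exact ⟨acc ++ t, List.perm_middle, h⟩
      | false =>
        rw [hb] at h
        obtain ⟨t', h1, h2⟩ := ih (b :: acc) h
        exact ⟨t', (List.perm_middle.trans (by simp)).trans h1, h2⟩
  obtain ⟨t, h1, h2⟩ := key l [] h
  exact ⟨t, by simpa using h1, h2⟩

theorem permB_sound {l : List Nat} : ∀ {m : List Nat}, permB l m = true → m.Perm l := by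
  induction l with
  | nil =>
    intro m h
    cases m with
    | nil => exact List.Perm.nil
    | cons b t => exact absurd (show (false : Bool) = true from h) (by simp)
  | cons a t ih =>
    intro m h
    obtain ⟨t', h1, h2⟩ := rem_sound (show rem a m (permB t) = true from h)
    exact h1.trans ((ih h2).cons a)

/-- Mask inclusion. -/
noncomputable def sub (a b : Nat) : Bool := Nat.beq (Nat.land a b) a

/-- A row of a product certificate, checked against the clause `c`; `S`, `B` are the accumulated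
small and big factors. -/
noncomputable def row (n NV : Nat) (adj : Nat → Nat → Bool) (c : Nat) (inst : Nat)
    (ih : List Nat → List Nat → Bool) (S B : List Nat) : Bool :=
  force (Nat.land (Nat.shiftRight inst 9) 15) fun y1 =>
  force (Nat.land (Nat.shiftRight inst 13) 15) fun y2 =>
  force (Nat.land (Nat.shiftRight inst 17) 15) fun y3 =>
  force (Nat.land (Nat.shiftRight inst 21) 15) fun y4 =>
  force (Nat.land (Nat.shiftRight inst 25) 15) fun y5 =>
  force (Nat.land (Nat.shiftRight inst 29) 15) fun y6 =>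
    sel (Nat.land inst 7)
      (an (an (labs n [y1, y2, y3, y4, y5]) (an (adj y1 y3)
        (sub (maskL NV (itR1 y1 y2 y3 y4 y5 (bt inst 3))) c)))
        (force (rk y1 y2 y4 y5) fun s => force (rk y1 y3 y4 y5) fun b => ih (s :: S) (b :: B)))
      (an (an (labs n [y1, y2, y3, y4, y5, y6]) (an (bq (bq (bt inst 3) (bt inst 4))
        (bq (bt inst 7) (bt inst 8))) (sub (maskL NV (itGP y1 y2 y3 y4 y5 y6 (bt inst 3)
        (bt inst 4) (bt inst 5) (bt inst 6) (bt inst 7) (bt inst 8))) c)))
        (force (rk y1 y2 y3 y4) fun s => force (rk y1 y2 y5 y6) fun s' =>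
          force (rk y1 y2 y3 y5) fun b => force (rk y1 y2 y4 y6) fun b' =>
            ih (s :: s' :: S) (b :: b' :: B)))
      (an (an (labs n [y1, y2, y3, y4, y5, y6]) (an (adj y1 y5) (an (adj y2 y3) (an (adj y4 y6)
        (sub (maskL NV (itL4a y1 y2 y3 y4 y5 y6 (bt inst 3))) c)))))
        (force (rk y3 y4 y5 y6) fun s => force (rk y1 y2 y3 y6) fun s' =>
          force (rk y2 y4 y5 y6) fun b => force (rk y1 y2 y3 y4) fun b' =>
            ih (s :: s' :: S) (b :: b' :: B)))
      false false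

/-- Product of the factors. -/
noncomputable def pr (X : ℕ → Fin 3 → ℝ) (l : List Nat) : ℝ := (l.map (F X)).prod

theorem sub_holds {L0 : Nat → Prop} {a b : Nat} (h : sub a b = true) (H : Holds NV L0 b) :
    Holds NV L0 a := by
  rw [sub, Nat.beq_eq] at h
  exact Holds.mono H h

theorem row_sound (hR : RankOK n NV) (hX : Conf n adj X) {c inst : Nat}
    {ih : List Nat → List Nat → Bool} {S B : List Nat} (H : Holds NV (Val X) c)
    (h : row n NV adj c inst ih S B = true) (hS : 0 < pr X S) (hSB : pr X S ≤ pr X B) :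
    ∃ S' B', ih S' B' = true ∧ 0 < pr X S' ∧ pr X S' < pr X B' := by
  have fin : ∀ {s b : ℝ}, 0 < s → s < b → 0 < s * pr X S ∧ s * pr X S < b * pr X B := by
    intro s b h1 h2
    refine ⟨mul_pos h1 hS, ?_⟩
    calc s * pr X S < b * pr X S := mul_lt_mul_of_pos_right h2 hS
      _ ≤ b * pr X B := mul_le_mul_of_nonneg_left hSB (h1.trans h2).le
  simp only [row, force_eq] at h
  generalize Nat.land (Nat.shiftRight inst 9) 15 = y1 at *
  generalize Nat.land (Nat.shiftRight inst 13) 15 = y2 at *
  generalize Nat.land (Nat.shiftRight inst 17) 15 = y3 at *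
  generalize Nat.land (Nat.shiftRight inst 21) 15 = y4 at *
  generalize Nat.land (Nat.shiftRight inst 25) 15 = y5 at *
  generalize Nat.land (Nat.shiftRight inst 29) 15 = y6 at *
  generalize Nat.land inst 7 = k at *
  rcases k with _ | k
  · replace h : an (an (labs n [y1, y2, y3, y4, y5]) (an (adj y1 y3)
        (sub (maskL NV (itR1 y1 y2 y3 y4 y5 (bt inst 3))) c)))
        (ih (rk y1 y2 y4 y5 :: S) (rk y1 y3 y4 y5 :: B)) = true := h
    simp only [an_eq, labs, allLt_cons, nodupB_cons, notIn_cons] at h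
    obtain ⟨⟨⟨⟨l1, l2, l3, l4, l5, -⟩, ⟨h12, h13, h14, h15, -⟩, ⟨h23, h24, h25, -⟩,
      ⟨h34, h35, -⟩, ⟨h45, -⟩, -⟩, e1, hm⟩, hi⟩ := h
    have hh := soundR1 hR hX h12 h13 h14 h15 h23 h24 h25 h34 h35 h45 l1 l2 l3 l4 l5 e1
      (sub_holds hm H)
    have p0 : 0 < |D (X y1) (X y2) (X y4) (X y5)| :=
      abs_pos.2 (hX.gen y1 y2 y4 y5 l1 l2 l4 l5 h12 h14 h15 h24 h25 h45)
    rw [← rk_sound hR.1 h12 h14 h15 h24 h25 h45 l1 l2 l4 l5] at hh p0
    rw [← rk_sound hR.1 h13 h14 h15 h34 h35 h45 l1 l3 l4 l5] at hh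
    refine ⟨_, _, hi, ?_⟩
    simpa only [pr, List.map_cons, List.prod_cons] using fin p0 hh
  rcases k with _ | k
  · replace h : an (an (labs n [y1, y2, y3, y4, y5, y6]) (an (bq (bq (bt inst 3) (bt inst 4))
        (bq (bt inst 7) (bt inst 8))) (sub (maskL NV (itGP y1 y2 y3 y4 y5 y6 (bt inst 3)
        (bt inst 4) (bt inst 5) (bt inst 6) (bt inst 7) (bt inst 8))) c)))
        (ih (rk y1 y2 y3 y4 :: rk y1 y2 y5 y6 :: S) (rk y1 y2 y3 y5 :: rk y1 y2 y4 y6 :: B))
        = true := h
    simp only [an_eq, labs, allLt_cons, nodupB_cons, notIn_cons] at h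
    obtain ⟨⟨⟨⟨l1, l2, l3, l4, l5, l6, -⟩, ⟨h12, h13, h14, h15, h16, -⟩,
      ⟨h23, h24, h25, h26, -⟩, ⟨h34, h35, h36, -⟩, ⟨h45, h46, -⟩, ⟨h56, -⟩, -⟩, g1, hm⟩,
      hi⟩ := h
    rw [bq_eq, bq_beq, bq_beq] at g1
    obtain ⟨t0, t1, -, -, t4, t5⟩ := soundGP hR hX h12 h13 h14 h15 h16 h23 h24 h25 h26 h34 h35
      h36 h45 h46 h56 l1 l2 l3 l4 l5 l6 (sub_holds hm H)
    have hg := gp (X y1) (X y2) (X y3) (X y4) (X y5) (X y6)
    have hh : |D (X y1) (X y2) (X y3) (X y4)| * |D (X y1) (X y2) (X y5) (X y6)| <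
        |D (X y1) (X y2) (X y3) (X y5)| * |D (X y1) (X y2) (X y4) (X y6)| := by
      rw [← abs_mul, ← abs_mul]
      have key : ∀ (s t : Bool) (x y : ℝ), sgn s x → sgn t y →
          ((s == t) = true → 0 < x * y) ∧ ((s == t) = false → x * y < 0) := by
        intro s t x y hx hy
        cases s <;> cases t <;> simp [sgn] at hx hy ⊢
        · exact mul_pos_of_neg_of_neg hx hy
        · exact mul_neg_of_neg_of_pos hx hy
        · exact mul_neg_of_pos_of_neg hx hy
        · exact mul_pos hx hy
      have a1 := key _ _ _ _ t0 t1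
      have a2 := key _ _ _ _ t4 t5
      cases hb : (bt inst 3 == bt inst 4)
      · rw [hb] at g1
        have b1 := a1.2 hb
        have b2 := a2.2 g1.symm
        rw [abs_of_neg b1, abs_of_neg (by linarith)]
        linarith
      · rw [hb] at g1
        have b1 := a1.1 hb
        have b2 := a2.1 g1.symm
        rw [abs_of_pos b1, abs_of_pos (by linarith)]
        linarith
    have p0 : 0 < |D (X y1) (X y2) (X y3) (X y4)| * |D (X y1) (X y2) (X y5) (X y6)| :=
      mul_pos (abs_pos.2 (hX.gen y1 y2 y3 y4 l1 l2 l3 l4 h12 h13 h14 h23 h24 h34))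
        (abs_pos.2 (hX.gen y1 y2 y5 y6 l1 l2 l5 l6 h12 h15 h16 h25 h26 h56))
    rw [← rk_sound hR.1 h12 h13 h14 h23 h24 h34 l1 l2 l3 l4,
      ← rk_sound hR.1 h12 h15 h16 h25 h26 h56 l1 l2 l5 l6] at hh p0
    rw [← rk_sound hR.1 h12 h13 h15 h23 h25 h35 l1 l2 l3 l5,
      ← rk_sound hR.1 h12 h14 h16 h24 h26 h46 l1 l2 l4 l6] at hh
    refine ⟨_, _, hi, ?_⟩
    simpa only [pr, List.map_cons, List.prod_cons, mul_assoc] using fin p0 hh
  rcases k with _ | k
  · replace h : an (an (labs n [y1, y2, y3, y4, y5, y6]) (an (adj y1 y5) (an (adj y2 y3)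
        (an (adj y4 y6) (sub (maskL NV (itL4a y1 y2 y3 y4 y5 y6 (bt inst 3))) c)))))
        (ih (rk y3 y4 y5 y6 :: rk y1 y2 y3 y6 :: S) (rk y2 y4 y5 y6 :: rk y1 y2 y3 y4 :: B))
        = true := h
    simp only [an_eq, labs, allLt_cons, nodupB_cons, notIn_cons] at h
    obtain ⟨⟨⟨⟨l1, l2, l3, l4, l5, l6, -⟩, ⟨h12, h13, h14, h15, h16, -⟩,
      ⟨h23, h24, h25, h26, -⟩, ⟨h34, h35, h36, -⟩, ⟨h45, h46, -⟩, ⟨h56, -⟩, -⟩, e1, e2, e3,
      hm⟩, hi⟩ := h
    have hh := soundL4a hR hX h12 h13 h14 h15 h16 h23 h24 h25 h26 h34 h35 h36 h45 h46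
      h56 l1 l2 l3 l4 l5 l6 e1 e2 e3 (sub_holds hm H)
    have p0 : 0 < |D (X y3) (X y4) (X y5) (X y6)| * |D (X y1) (X y2) (X y3) (X y6)| :=
      mul_pos (abs_pos.2 (hX.gen y3 y4 y5 y6 l3 l4 l5 l6 h34 h35 h36 h45 h46 h56))
        (abs_pos.2 (hX.gen y1 y2 y3 y6 l1 l2 l3 l6 h12 h13 h16 h23 h26 h36))
    rw [← rk_sound hR.1 h34 h35 h36 h45 h46 h56 l3 l4 l5 l6,
      ← rk_sound hR.1 h12 h13 h16 h23 h26 h36 l1 l2 l3 l6] at hh p0
    rw [← rk_sound hR.1 h24 h25 h26 h45 h46 h56 l2 l4 l5 l6,
      ← rk_sound hR.1 h12 h13 h14 h23 h24 h34 l1 l2 l3 l4] at hh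
    refine ⟨_, _, hi, ?_⟩
    simpa only [pr, List.map_cons, List.prod_cons, mul_assoc] using fin p0 hh
  rcases k with _ | k
  · exact absurd (show (false : Bool) = true from h) (by simp)
  rcases k with _ | k
  · exact absurd (show (false : Bool) = true from h) (by simp)
  · exact absurd (show (false : Bool) = true from h) (by simp)

/-- Check a product certificate: a stream `s` of `m` rows. -/
noncomputable def cert (n NV : Nat) (adj : Nat → Nat → Bool) (c m : Nat) :
    Nat → List Nat → List Nat → Bool :=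
  Nat.rec (fun _ S B => permB S B) (fun _ ih s S B =>
    row n NV adj c (Nat.land s 8589934591)
      (fun S' B' => force (Nat.shiftRight s 33) fun s' => ih s' S' B') S B) m

theorem cert_sound (hR : RankOK n NV) (hX : Conf n adj X) {c : Nat} (H : Holds NV (Val X) c) :
    ∀ (m s : Nat) (S B : List Nat), cert n NV adj c m s S B = true → 0 < pr X S →
      pr X S ≤ pr X B → (0 < m ∨ pr X S < pr X B) → False := by
  intro m
  induction m with
  | zero =>
    intro s S B h _ _ h3
    have h4 : pr X S < pr X B := by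
      rcases h3 with h3 | h3
      · exact absurd h3 (by simp)
      · exact h3
    have h5 := (permB_sound (show permB S B = true from h)).map (F X)
    have h6 := h5.prod_eq
    rw [pr, pr, h6] at h4
    exact lt_irrefl _ h4
  | succ m ih =>
    intro s S B h h1 h2 _
    obtain ⟨S', B', h3, h4, h5⟩ := row_sound hR hX H
      (show row n NV adj c (Nat.land s 8589934591)
        (fun S' B' => force (Nat.shiftRight s 33) fun s' => cert n NV adj c m s' S' B') S B = true
        from h) h1 h2
    rw [force_eq] at h3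
    exact ih _ _ _ h3 h4 h5.le (Or.inr h5)

theorem cert_not_holds (hR : RankOK n NV) (hX : Conf n adj X) {c m s : Nat}
    (h : cert n NV adj c (Nat.succ m) s [] [] = true) : ¬ Holds NV (Val X) c := by
  intro H
  exact cert_sound hR hX H (m + 1) s [] [] h (by simp [pr]) (by simp [pr]) (Or.inl (by omega))

/-- Check the certificates of the clauses `k, k+1, …`: each has `m` rows. -/
noncomputable def certs (C : Nat → Nat) (n NV : Nat) (adj : Nat → Nat → Bool)
    (l : List (Nat × Nat)) : Nat → Bool :=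
  List.rec (fun _ => true) (fun p _ ih k =>
    an (Prod.rec (fun m s => force (C k) fun c => cert n NV adj c (Nat.succ m) s [] []) p)
      (ih (Nat.succ k))) l

theorem certs_sound (hR : RankOK n NV) (hX : Conf n adj X) (C : Nat → Nat)
    (l : List (Nat × Nat)) : ∀ k, (∀ j < k, ¬ Holds NV (Val X) (C j)) →
      certs C n NV adj l k = true → ∀ j < k + l.length, ¬ Holds NV (Val X) (C j) := by
  induction l with
  | nil => intro k hk _; simpa using hk
  | cons p l ih =>
    intro k hk h
    obtain ⟨m, s⟩ := p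
    have h' : an (force (C k) fun c => cert n NV adj c (Nat.succ m) s [] [])
      (certs C n NV adj l (Nat.succ k)) = true := h
    rw [an_eq, force_eq] at h'
    have h2 := ih (Nat.succ k) (fun j hj => by
      rcases Nat.lt_succ_iff_lt_or_eq.1 hj with hj | rfl
      · exact hk j hj
      · exact cert_not_holds hR hX h'.1) h'.2
    intro j hj
    exact h2 j (by simp only [List.length_cons] at hj; omega)

/-- Starting clauses: both clauses `0` and `1` say that the determinant of the labels
`0, 1, 2, 3` is positive. -/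
theorem start (hR : RankOK n NV) (hn : 4 ≤ n) (hX : Conf n adj X) (C : Nat → Nat)
    (h0 : C 0 = 2 ^ NV) (h1 : C 1 = 2 ^ NV) : ∀ j < 2, ¬ Holds NV (Val X) (C j) := by
  have key : ¬ Holds NV (Val X) (2 ^ NV) := by
    intro H
    have h := H NV (by rw [Nat.testBit_two_pow_self])
    have hr : rank 0 1 2 3 = 0 := by decide +kernel
    have hlt := hR.2 3 (by omega) 2 (by omega) 1 (by omega) 0 (by omega)
    rw [Lit, if_neg (lt_irrefl _), Nat.sub_self, Val] at h
    have hu := unrank_rank 3 (by omega) 2 (by omega) 1 (by omega) 0 (by omega)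
    rw [hr] at hu
    rw [hu] at h
    exact h hX.pos
  intro j hj
  have : j = 0 ∨ j = 1 := by omega
  rcases this with rfl | rfl
  · rw [h0]; exact key
  · rw [h1]; exact key

theorem rankOK_of {n NV : ℕ} (hn : n ≤ 9) (h : ((List.range n).all fun d =>
    (List.range d).all fun c => (List.range c).all fun b => (List.range b).all fun a =>
      Nat.blt (rank a b c d) NV) = true) : RankOK n NV := by
  simp only [List.all_eq_true, List.mem_range, Nat.blt_eq] at h
  exact ⟨hn, h⟩

theorem finish {L0 : Nat → Prop} {C : Nat → Nat} {m : Nat} (h0 : C m = 0)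
    (h : ∀ j < m + 1, ¬ Holds NV L0 (C j)) : False :=
  h m (by omega) (by
    rw [h0]
    intro j hj
    simp at hj)

end H20
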