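import Pool.Agent.H20.Inst61d

/-!
# The checker for clause instances, and its soundness
-/

namespace H20

open Rup

/-- All labels are `< n`. -/
noncomputable def allLt (n : Nat) (l : List Nat) : Bool :=
  List.rec true (fun a _ ih => Bool.rec false ih (Nat.blt a n)) l

/-- `a` is not in the list. -/
noncomputable def notIn (a : Nat) (l : List Nat) : Bool :=
  List.rec true (fun b _ ih => Bool.rec ih false (Nat.beq a b)) l

/-- No repetitions. -/
noncomputable def nodupB (l : List Nat) : Bool :=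
  List.rec true (fun a t ih => Bool.rec false ih (notIn a t)) l

theorem allLt_cons {n a : Nat} {l : List Nat} :
    allLt n (a :: l) = true ↔ a < n ∧ allLt n l = true := by
  change (Bool.rec false (allLt n l) (Nat.blt a n) : Bool) = true ↔ _
  rw [← Nat.blt_eq]
  cases Nat.blt a n <;> simp

theorem notIn_cons {a b : Nat} {l : List Nat} :
    notIn a (b :: l) = true ↔ a ≠ b ∧ notIn a l = true := by
  change (Bool.rec (notIn a l) false (Nat.beq a b) : Bool) = true ↔ _
  rw [ne_eq, ← Nat.beq_eq]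
  cases Nat.beq a b <;> simp

theorem nodupB_cons {a : Nat} {l : List Nat} :
    nodupB (a :: l) = true ↔ notIn a l = true ∧ nodupB l = true := by
  change (Bool.rec false (nodupB l) (notIn a l) : Bool) = true ↔ _
  cases notIn a l <;> simp

/-- Lazy conjunction. -/
noncomputable def an (a b : Bool) : Bool := Bool.rec false b a

theorem an_eq {a b : Bool} : an a b = true ↔ a = true ∧ b = true := by
  cases a <;> simp [an]

/-- Boolean equality. -/
noncomputable def bq (a b : Bool) : Bool := Bool.rec (nt b) b a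

theorem bq_eq {a b : Bool} : bq a b = true ↔ a = b := by
  cases a <;> cases b <;> simp [bq, nt]

/-- Adjacency from a bit mask. -/
noncomputable def adjM (AM : Nat) (a b : Nat) : Bool :=
  Nat.beq (Nat.land (Nat.shiftRight AM (Nat.add (Nat.mul 9 a) b)) 1) 1

/-- Labels of an instance are fine. -/
noncomputable def labs (n : Nat) (l : List Nat) : Bool := an (allLt n l) (nodupB l)

/-- bit `i` of `x`. -/
noncomputable def bt (x i : Nat) : Bool := Nat.beq (Nat.land (Nat.shiftRight x i) 1) 1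

/-- Check of kind `five`. -/
noncomputable def chk0 (n NV y1 y2 y3 y4 y5 : Nat) (g : Bool) (c : Nat) : Bool :=
  an (labs n [y1, y2, y3, y4, y5]) (Nat.beq (maskL NV (itFive y1 y2 y3 y4 y5 g)) c)

/-- Check of kind `gp`. -/
noncomputable def chk1 (n NV y1 y2 y3 y4 y5 y6 : Nat) (s0 s1 s2 s3 s4 s5 : Bool)
    (c : Nat) : Bool :=
  an (labs n [y1, y2, y3, y4, y5, y6])
    (an (bq (bq s0 s1) (nt (bq s2 s3)))
      (an (bq (bq s0 s1) (bq s4 s5))
        (Nat.beq (maskL NV (itGP y1 y2 y3 y4 y5 y6 s0 s1 s2 s3 s4 s5)) c)))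

/-- Check of kind `L1`. -/
noncomputable def chk2 (n NV : Nat) (adj : Nat → Nat → Bool) (y1 y2 y3 y4 y5 y6 : Nat) (g : Bool)
    (c : Nat) : Bool :=
  an (labs n [y1, y2, y3, y4, y5, y6])
    (an (adj y2 y3) (an (adj y4 y5) (Nat.beq (maskL NV (itL1 y1 y2 y3 y4 y5 y6 g)) c)))

/-- Check of kind `L2`. -/
noncomputable def chk3 (n NV : Nat) (adj : Nat → Nat → Bool) (y1 y2 y3 y4 y5 y6 : Nat) (g : Bool)
    (c : Nat) : Bool :=
  an (labs n [y1, y2, y3, y4, y5, y6])
    (an (adj y1 y2) (an (adj y3 y4) (an (adj y5 y6)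
      (Nat.beq (maskL NV (itL2 y1 y2 y3 y4 y5 y6 g)) c))))

/-- Check of kind `L3`. -/
noncomputable def chk4 (n NV : Nat) (adj : Nat → Nat → Bool) (y1 y2 y3 y4 y5 y6 : Nat) (g : Bool)
    (c : Nat) : Bool :=
  an (labs n [y1, y2, y3, y4, y5, y6])
    (an (adj y1 y2) (an (adj y3 y4) (an (adj y5 y6)
      (Nat.beq (maskL NV (itL3 y1 y2 y3 y4 y5 y6 g)) c))))

/-- Choice by kind. -/
noncomputable def sel (k : Nat) (b0 b1 b2 b3 b4 : Bool) : Bool :=
  Nat.rec b0 (fun k1 _ => Nat.rec b1 (fun k2 _ => Nat.rec b2 (fun k3 _ => Nat.rec b3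
    (fun k4 _ => Nat.rec b4 (fun _ _ => false) k4) k3) k2) k1) k

/-- Check an instance of the simple kinds against the clause mask `c`. -/
noncomputable def chk (n NV : Nat) (adj : Nat → Nat → Bool) (inst c : Nat) : Bool :=
  force (Nat.land (Nat.shiftRight inst 9) 15) fun y1 =>
  force (Nat.land (Nat.shiftRight inst 13) 15) fun y2 =>
  force (Nat.land (Nat.shiftRight inst 17) 15) fun y3 =>
  force (Nat.land (Nat.shiftRight inst 21) 15) fun y4 =>
  force (Nat.land (Nat.shiftRight inst 25) 15) fun y5 =>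
  force (Nat.land (Nat.shiftRight inst 29) 15) fun y6 =>
    sel (Nat.land inst 7)
      (chk0 n NV y1 y2 y3 y4 y5 (bt inst 3) c)
      (chk1 n NV y1 y2 y3 y4 y5 y6 (bt inst 3) (bt inst 4) (bt inst 5) (bt inst 6) (bt inst 7)
        (bt inst 8) c)
      (chk2 n NV adj y1 y2 y3 y4 y5 y6 (bt inst 3) c)
      (chk3 n NV adj y1 y2 y3 y4 y5 y6 (bt inst 3) c)
      (chk4 n NV adj y1 y2 y3 y4 y5 y6 (bt inst 3) c)

variable {n NV : ℕ} {adj : ℕ → ℕ → Bool} {X : ℕ → Fin 3 → ℝ}

theorem gp_contra {X : ℕ → Fin 3 → ℝ} {a b c d e f : Nat} {s0 s1 s2 s3 s4 s5 : Bool}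
    (h1 : (s0 == s1) = !(s2 == s3)) (h2 : (s0 == s1) = (s4 == s5))
    (t : T X a b c d s0 ∧ T X a b e f s1 ∧ T X a b c e s2 ∧ T X a b d f s3 ∧ T X a b c f s4 ∧
      T X a b d e s5) : False := by
  obtain ⟨t0, t1, t2, t3, t4, t5⟩ := t
  have h := gp (X a) (X b) (X c) (X d) (X e) (X f)
  simp only [T] at t0 t1 t2 t3 t4 t5
  generalize D (X a) (X b) (X c) (X d) = q0 at *
  generalize D (X a) (X b) (X e) (X f) = q1 at *
  generalize D (X a) (X b) (X c) (X e) = q2 at *
  generalize D (X a) (X b) (X d) (X f) = q3 at *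
  generalize D (X a) (X b) (X c) (X f) = q4 at *
  generalize D (X a) (X b) (X d) (X e) = q5 at *
  have key : ∀ (s t : Bool) (x y : ℝ), sgn s x → sgn t y →
      ((s == t) = true → 0 < x * y) ∧ ((s == t) = false → x * y < 0) := by
    intro s t x y hx hy
    cases s <;> cases t <;> simp [sgn] at hx hy ⊢
    · exact mul_pos_of_neg_of_neg hx hy
    · exact mul_neg_of_neg_of_pos hx hy
    · exact mul_neg_of_pos_of_neg hx hy
    · exact mul_pos hx hy
  have a1 := key _ _ _ _ t0 t1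
  have a2 := key _ _ _ _ t2 t3
  have a3 := key _ _ _ _ t4 t5
  cases hb : (s0 == s1)
  · rw [hb] at h1 h2
    have b2 : (s2 == s3) = true := by simpa using h1.symm
    have := a1.2 hb
    have := a2.1 b2
    have := a3.2 h2.symm
    linarith
  · rw [hb] at h1 h2
    have b2 : (s2 == s3) = false := by simpa using h1.symm
    have := a1.1 hb
    have := a2.2 b2
    have := a3.1 h2.symm
    linarith

theorem bq_beq (a b : Bool) : bq a b = (a == b) := by
  cases a <;> cases b <;> rfl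

theorem chk_sound (hR : RankOK n NV) (hX : Conf n adj X) {inst c : Nat}
    (h : chk n NV adj inst c = true) : ¬ Holds NV (Val X) c := by
  intro H
  simp only [chk, force_eq] at h
  generalize Nat.land (Nat.shiftRight inst 9) 15 = y1 at *
  generalize Nat.land (Nat.shiftRight inst 13) 15 = y2 at *
  generalize Nat.land (Nat.shiftRight inst 17) 15 = y3 at *
  generalize Nat.land (Nat.shiftRight inst 21) 15 = y4 at *
  generalize Nat.land (Nat.shiftRight inst 25) 15 = y5 at *
  generalize Nat.land (Nat.shiftRight inst 29) 15 = y6 at *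
  generalize Nat.land inst 7 = k at *
  rcases k with _ | k
  · replace h : chk0 n NV y1 y2 y3 y4 y5 (bt inst 3) c = true := h
    simp only [chk0, an_eq, labs, allLt_cons, nodupB_cons, notIn_cons, Nat.beq_eq] at h
    obtain ⟨⟨⟨l1, l2, l3, l4, l5, -⟩, ⟨h12, h13, h14, h15, -⟩, ⟨h23, h24, h25, -⟩,
      ⟨h34, h35, -⟩, ⟨h45, -⟩, -⟩, rfl⟩ := h
    exact soundFive hR hX h12 h13 h14 h15 h23 h24 h25 h34 h35 h45 l1 l2 l3 l4 l5 H
  rcases k with _ | k
  · replace h : chk1 n NV y1 y2 y3 y4 y5 y6 (bt inst 3) (bt inst 4) (bt inst 5) (bt inst 6)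
      (bt inst 7) (bt inst 8) c = true := h
    simp only [chk1, an_eq, labs, allLt_cons, nodupB_cons, notIn_cons, Nat.beq_eq] at h
    obtain ⟨⟨⟨l1, l2, l3, l4, l5, l6, -⟩, ⟨h12, h13, h14, h15, h16, -⟩, ⟨h23, h24, h25, h26, -⟩,
      ⟨h34, h35, h36, -⟩, ⟨h45, h46, -⟩, ⟨h56, -⟩, -⟩, g1, g2, rfl⟩ := h
    rw [bq_eq, bq_beq, bq_beq, nt_eq] at g1
    rw [bq_eq, bq_beq, bq_beq] at g2
    exact gp_contra g1 g2 (soundGP hR hX h12 h13 h14 h15 h16 h23 h24 h25 h26 h34 h35 h36 h45 h46
      h56 l1 l2 l3 l4 l5 l6 H)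
  rcases k with _ | k
  · replace h : chk2 n NV adj y1 y2 y3 y4 y5 y6 (bt inst 3) c = true := h
    simp only [chk2, an_eq, labs, allLt_cons, nodupB_cons, notIn_cons, Nat.beq_eq] at h
    obtain ⟨⟨⟨l1, l2, l3, l4, l5, l6, -⟩, ⟨h12, h13, h14, h15, h16, -⟩, ⟨h23, h24, h25, h26, -⟩,
      ⟨h34, h35, h36, -⟩, ⟨h45, h46, -⟩, ⟨h56, -⟩, -⟩, e1, e2, rfl⟩ := h
    exact soundL1 hR hX h12 h13 h14 h15 h16 h23 h24 h25 h26 h34 h35 h36 h45 h46
      h56 l1 l2 l3 l4 l5 l6 e1 e2 H
  rcases k with _ | k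
  · replace h : chk3 n NV adj y1 y2 y3 y4 y5 y6 (bt inst 3) c = true := h
    simp only [chk3, an_eq, labs, allLt_cons, nodupB_cons, notIn_cons, Nat.beq_eq] at h
    obtain ⟨⟨⟨l1, l2, l3, l4, l5, l6, -⟩, ⟨h12, h13, h14, h15, h16, -⟩, ⟨h23, h24, h25, h26, -⟩,
      ⟨h34, h35, h36, -⟩, ⟨h45, h46, -⟩, ⟨h56, -⟩, -⟩, e1, e2, e3, rfl⟩ := h
    exact soundL2 hR hX h12 h13 h14 h15 h16 h23 h24 h25 h26 h34 h35 h36 h45 h46
      h56 l1 l2 l3 l4 l5 l6 e1 e2 e3 H
  rcases k with _ | k
  · replace h : chk4 n NV adj y1 y2 y3 y4 y5 y6 (bt inst 3) c = true := h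
    simp only [chk4, an_eq, labs, allLt_cons, nodupB_cons, notIn_cons, Nat.beq_eq] at h
    obtain ⟨⟨⟨l1, l2, l3, l4, l5, l6, -⟩, ⟨h12, h13, h14, h15, h16, -⟩, ⟨h23, h24, h25, h26, -⟩,
      ⟨h34, h35, h36, -⟩, ⟨h45, h46, -⟩, ⟨h56, -⟩, -⟩, e1, e2, e3, rfl⟩ := h
    exact soundL3 hR hX h12 h13 h14 h15 h16 h23 h24 h25 h26 h34 h35 h36 h45 h46
      h56 l1 l2 l3 l4 l5 l6 e1 e2 e3 H
  · exact absurd (show (false : Bool) = true from h) (by simp)

/-- Check the initial clauses `k, …, kend - 1` against the stream `s` of instances. -/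
noncomputable def ini (C : Nat → Nat) (n NV : Nat) (adj : Nat → Nat → Bool) (kend fuel : Nat) :
    Nat → Nat → Bool :=
  Nat.rec (fun _ _ => false) (fun _ ih k s =>
    Bool.rec
      (Bool.rec false
        (force (Nat.shiftRight s 33) fun s' => ih (Nat.succ k) s')
        (force (Nat.land s 8589934591) fun i => force (C k) fun c => chk n NV adj i c))
      true
      (Nat.beq k kend)) fuel

theorem ini_sound (hR : RankOK n NV) (hX : Conf n adj X) (C : Nat → Nat) (kend m : Nat) :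
    ∀ k s, (∀ j < k, ¬ Holds NV (Val X) (C j)) → ini C n NV adj kend m k s = true →
      ∀ j < kend, ¬ Holds NV (Val X) (C j) := by
  induction m with
  | zero => intro k s _ h; exact absurd h (by simp [ini])
  | succ m ih =>
    intro k s hk h
    have e : ini C n NV adj kend (m + 1) k s =
        (Bool.rec (Bool.rec false (ini C n NV adj kend m (Nat.succ k) (Nat.shiftRight s 33))
          (chk n NV adj (Nat.land s 8589934591) (C k))) true (Nat.beq k kend) : Bool) := by
      simp only [ini, force_eq]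
    rw [e] at h
    cases h1 : Nat.beq k kend with
    | true =>
      have : k = kend := by rwa [Nat.beq_eq] at h1
      subst this; exact hk
    | false =>
      rw [h1] at h
      cases h2 : chk n NV adj (Nat.land s 8589934591) (C k) with
      | false => rw [h2] at h; exact absurd h (by simp)
      | true =>
        rw [h2] at h
        refine ih _ _ (fun j hj => ?_) h
        rcases Nat.lt_succ_iff_lt_or_eq.1 hj with hj | rfl
        · exact hk j hj
        · exact chk_sound hR hX h2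

end H20
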