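import Mathlib

/-!
# A small kernel-friendly checker for unit-propagation refutations

Clauses are stored as bit masks of the *forbidden* conjunctions: bit `j < NV` stands for
'variable `j` is true', bit `j + NV` for 'variable `j` is false'.
-/

namespace H20.Rup

/-- Evaluate a natural number before passing it on. -/
noncomputable def force {α : Type} (n : Nat) (f : Nat → α) : α :=
  Nat.rec (f 0) (fun m _ => f (Nat.succ m)) n

theorem force_eq {α : Type} (n : Nat) (f : Nat → α) : force n f = f n := by
  cases n <;> rfl

/-- Clause database: a binary tree with packed leaves. -/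
inductive DB where
  | leaf (n : Nat) : DB
  | node (l r : DB) : DB

/-- Read the clause with index `i` (low bits of the index choose the branch). -/
noncomputable def DB.get (W M : Nat) (db : DB) : Nat → Nat :=
  DB.rec (fun n i => Nat.land (Nat.shiftRight n (Nat.mul i W)) M)
    (fun _ _ ihl ihr i => Bool.rec (ihr (Nat.shiftRight i 1)) (ihl (Nat.shiftRight i 1))
      (Nat.beq (Nat.land i 1) 0)) db

/-- Check the learned clauses `k, …, kend - 1` with the stream `s` of hints. -/
noncomputable def run (C : Nat → Nat) (NV PN kend : Nat) (fuel : Nat) :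
    Nat → Nat → Nat → Bool :=
  Nat.rec (fun _ _ _ => false) (fun _ ih k A s =>
    Bool.rec
      (Bool.rec false
        (force (C (Nat.land s 16383)) (fun c =>
          force (Nat.xor c (Nat.land c A)) (fun r =>
            Bool.rec
              (Bool.rec false
                (Bool.rec
                  (Bool.rec false
                    (force (Nat.lor A (Nat.shiftRight r NV)) (fun A' =>
                      force (Nat.shiftRight s 14) (fun s' => ih k A' s')))
                    (Nat.blt (Nat.shiftRight r NV) PN))
                  (force (Nat.lor A (Nat.shiftLeft r NV)) (fun A' =>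
                    force (Nat.shiftRight s 14) (fun s' => ih k A' s')))
                  (Nat.blt r PN))
                (Nat.beq (Nat.land r (Nat.sub r 1)) 0))
              (force (C (Nat.succ k)) (fun A' =>
                force (Nat.shiftRight s 14) (fun s' => ih (Nat.succ k) A' s')))
              (Nat.beq r 0))))
        (Nat.blt (Nat.land s 16383) k))
      (Nat.beq k kend)
      (Nat.beq s 0)) fuel

/-- Truth of a literal, from the truth of the variables. -/
def Lit (NV : Nat) (L0 : Nat → Prop) (j : Nat) : Prop := if j < NV then L0 j else ¬ L0 (j - NV)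

/-- All literals in the mask hold. -/
def Holds (NV : Nat) (L0 : Nat → Prop) (m : Nat) : Prop := ∀ j, m.testBit j = true → Lit NV L0 j

theorem run_succ (C : Nat → Nat) (NV PN kend n k A s : Nat) :
    run C NV PN kend (n + 1) k A s =
    if s = 0 then Nat.beq k kend else
      if (s &&& 16383) < k then
        if (C (s &&& 16383)) ^^^ (C (s &&& 16383) &&& A) = 0 then
          run C NV PN kend n (k + 1) (C (k + 1)) (s >>> 14)
        else if ((C (s &&& 16383)) ^^^ (C (s &&& 16383) &&& A)) &&&
            (((C (s &&& 16383)) ^^^ (C (s &&& 16383) &&& A)) - 1) = 0 then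
          if (C (s &&& 16383)) ^^^ (C (s &&& 16383) &&& A) < PN then
            run C NV PN kend n k
              (A ||| (((C (s &&& 16383)) ^^^ (C (s &&& 16383) &&& A)) <<< NV)) (s >>> 14)
          else if ((C (s &&& 16383)) ^^^ (C (s &&& 16383) &&& A)) >>> NV < PN then
            run C NV PN kend n k
              (A ||| (((C (s &&& 16383)) ^^^ (C (s &&& 16383) &&& A)) >>> NV)) (s >>> 14)
          else false
        else false
      else false := by
  have key : ∀ (b : Bool) (p : Prop) [Decidable p] (x y : Bool), (b = true ↔ p) →
      (Bool.rec x y b : Bool) = if p then y else x := by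
    intro b p _ x y h
    cases b
    · have : ¬ p := fun hp => by simpa using h.2 hp
      simp [this]
    · have : p := h.1 rfl
      simp [this]
  change (Bool.rec _ _ (Nat.beq s 0) : Bool) = _
  simp only [force_eq]
  rw [key (Nat.beq s 0) (s = 0) _ _ (by simp [Nat.beq_eq])]
  rw [key (Nat.blt (Nat.land s 16383) k) (s &&& 16383 < k) _ _ (by rw [Nat.blt_eq]; rfl)]
  rw [key (Nat.beq _ 0) ((C (s &&& 16383)) ^^^ (C (s &&& 16383) &&& A) = 0) _ _
    (by rw [Nat.beq_eq]; rfl)]
  rw [key (Nat.beq (Nat.land _ (Nat.sub _ 1)) 0) (((C (s &&& 16383)) ^^^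
    (C (s &&& 16383) &&& A)) &&& (((C (s &&& 16383)) ^^^ (C (s &&& 16383) &&& A)) - 1) = 0) _ _
    (by rw [Nat.beq_eq]; rfl)]
  rw [key (Nat.blt _ PN) ((C (s &&& 16383)) ^^^ (C (s &&& 16383) &&& A) < PN) _ _
    (by rw [Nat.blt_eq]; rfl)]
  rw [key (Nat.blt _ PN) (((C (s &&& 16383)) ^^^ (C (s &&& 16383) &&& A)) >>> NV < PN) _ _
    (by rw [Nat.blt_eq]; rfl)]
  simp only [run, force_eq]
  rfl

theorem pow_two_of_land {r : Nat} (h0 : ¬ r = 0) (h : r &&& (r - 1) = 0) :
    1 <<< (Nat.log2 r) = r := by
  rw [Nat.one_shiftLeft]
  have h1 : 2 ^ Nat.log2 r ≤ r := Nat.log2_self_le h0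
  have h2 : r < 2 ^ (Nat.log2 r + 1) := Nat.lt_log2_self
  by_contra hne
  have h3 : 2 ^ Nat.log2 r ≤ r - 1 := by omega
  have h4 : r - 1 < 2 ^ (Nat.log2 r + 1) := by omega
  have key : ∀ x, 2 ^ Nat.log2 r ≤ x → x < 2 ^ (Nat.log2 r + 1) →
      x.testBit (Nat.log2 r) = true := by
    intro x hx1 hx2
    rw [Nat.testBit_eq_decide_div_mod_eq, decide_eq_true_eq]
    have : x / 2 ^ Nat.log2 r = 1 := by
      rw [Nat.div_eq_iff (by positivity)]
      rw [pow_succ] at hx2
      omega
    rw [this]
  have h5 := congrArg (fun x => Nat.testBit x (Nat.log2 r)) h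
  simp only [Nat.testBit_and, key r h1 h2, key (r - 1) h3 h4, Nat.zero_testBit] at h5
  exact absurd h5 (by simp)

theorem run_sound (C : Nat → Nat) (NV kend : Nat) (L0 : Nat → Prop) (n : Nat) :
    ∀ k A s, (∀ j < k, ¬ Holds NV L0 (C j)) → (Holds NV L0 (C k) → Holds NV L0 A) →
      run C NV (2 ^ NV) kend n k A s = true → ∀ j < kend, ¬ Holds NV L0 (C j) := by
  induction n with
  | zero => intro k A s _ _ h; exact absurd h (by simp [run])
  | succ n ih =>
    intro k A s hk hA h
    rw [run_succ] at h
    split_ifs at h with h1 h2 h3 h4 h5 h6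
    · have : k = kend := by simpa [Nat.beq_eq] using h
      subst this; exact hk
    · -- conflict
      refine ih _ _ _ (fun j hj => ?_) (fun h => h) h
      rcases Nat.lt_succ_iff_lt_or_eq.1 hj with hj | rfl
      · exact hk j hj
      · intro hH
        refine hk _ h2 (fun t ht => hA hH t ?_)
        have h7 := congrArg (fun x => Nat.testBit x t) h3
        simp only [Nat.testBit_xor, Nat.testBit_and, ht, Nat.zero_testBit, Bool.true_and] at h7
        simpa using h7
    · -- unit, positive
      replace h4 := pow_two_of_land h3 h4
      refine ih _ _ _ hk (fun hH => ?_) h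
      set r := (C (s &&& 16383)) ^^^ (C (s &&& 16383) &&& A) with hr
      have hA' := hA hH
      have hnot : ¬ Lit NV L0 (Nat.log2 r) := by
        intro hl
        refine hk _ h2 (fun t ht => ?_)
        by_cases hAt : A.testBit t = true
        · exact hA' t hAt
        · have h7 : r.testBit t = true := by
            rw [hr, Nat.testBit_xor, Nat.testBit_and, ht]
            simpa using hAt
          rw [← h4, Nat.one_shiftLeft, Nat.testBit_two_pow] at h7
          rw [decide_eq_true_eq] at h7
          exact h7 ▸ hl
      intro t ht
      rw [Nat.testBit_or] at ht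
      rcases Bool.or_eq_true_iff.1 ht with ht | ht
      · exact hA' t ht
      · rw [← h4, ← Nat.shiftLeft_add, Nat.one_shiftLeft, Nat.testBit_two_pow,
          decide_eq_true_eq] at ht
        subst ht
        have hlt : Nat.log2 r < NV := by
          rw [← h4, Nat.one_shiftLeft] at h5
          exact (Nat.pow_lt_pow_iff_right (by norm_num)).1 h5
        simp only [Lit, hlt, if_true] at hnot
        simp only [Lit]
        rw [if_neg (by omega)]
        simpa using hnot
    · -- unit, negative
      replace h4 := pow_two_of_land h3 h4
      refine ih _ _ _ hk (fun hH => ?_) h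
      set r := (C (s &&& 16383)) ^^^ (C (s &&& 16383) &&& A) with hr
      have hA' := hA hH
      have hnot : ¬ Lit NV L0 (Nat.log2 r) := by
        intro hl
        refine hk _ h2 (fun t ht => ?_)
        by_cases hAt : A.testBit t = true
        · exact hA' t hAt
        · have h7 : r.testBit t = true := by
            rw [hr, Nat.testBit_xor, Nat.testBit_and, ht]
            simpa using hAt
          rw [← h4, Nat.one_shiftLeft, Nat.testBit_two_pow] at h7
          rw [decide_eq_true_eq] at h7
          exact h7 ▸ hl
      have hge : NV ≤ Nat.log2 r := by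
        by_contra hcon
        rw [← h4, Nat.one_shiftLeft] at h5
        exact h5 (Nat.pow_lt_pow_right (by norm_num) (by omega))
      have hsh : r >>> NV = 2 ^ (Nat.log2 r - NV) := by
        conv_lhs => rw [← h4, Nat.one_shiftLeft]
        rw [Nat.shiftRight_eq_div_pow, Nat.pow_div hge (by norm_num)]
      intro t ht
      rw [Nat.testBit_or] at ht
      rcases Bool.or_eq_true_iff.1 ht with ht | ht
      · exact hA' t ht
      · rw [hsh, Nat.testBit_two_pow, decide_eq_true_eq] at ht
        subst ht
        have hlt : Nat.log2 r - NV < NV := by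
          rw [hsh] at h6
          exact (Nat.pow_lt_pow_iff_right (by norm_num)).1 h6
        simp only [Lit] at hnot
        rw [if_neg (by omega)] at hnot
        simp only [Lit, hlt, if_true]
        simpa using hnot

end H20.Rup
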