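import Pool.Agent.H20.Det61d
import Pool.Agent.H20.Rup61d

/-!
# Literals, items and their meaning for a labelled point configuration
-/

namespace H20

open Rup

/-- A labelled configuration of `n` points in general position (labels `0, …, n-1`), with all
points exposed and the adjacent pairs antipodal. -/
structure Conf (n : ℕ) (adj : ℕ → ℕ → Bool) (X : ℕ → Fin 3 → ℝ) : Prop where
  gen : ∀ a b c d, a < n → b < n → c < n → d < n → a ≠ b → a ≠ c → a ≠ d → b ≠ c → b ≠ d →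
    c ≠ d → D (X a) (X b) (X c) (X d) ≠ 0
  anti : ∀ a b, a < n → b < n → a ≠ b → adj a b = true → ∃ f : (Fin 3 → ℝ) →ₗ[ℝ] ℝ,
    ∀ k, k < n → (k ≠ a → f (X k) < f (X a)) ∧ (k ≠ b → f (X b) < f (X k))
  exposed : ∀ a, a < n → ∃ f : (Fin 3 → ℝ) →ₗ[ℝ] ℝ, ∀ k, k < n → k ≠ a → f (X k) < f (X a)
  pos : 0 < D (X 0) (X 1) (X 2) (X 3)

/-- `r` is positive (`s = true`) or negative (`s = false`). -/
def sgn (s : Bool) (r : ℝ) : Prop := if s = true then 0 < r else r < 0

theorem sgn_not_neg (s : Bool) (r : ℝ) : sgn (!s) (-r) ↔ sgn s r := by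
  cases s <;> simp [sgn]

/-- Negation by recursor. -/
noncomputable def nt (s : Bool) : Bool := Bool.rec true false s

theorem nt_eq (s : Bool) : nt s = !s := by cases s <;> rfl

/-- The list of sorted quadruples of labels `< 9`. -/
def quads9 : List (Nat × Nat × Nat × Nat) :=
  [(0, 1, 2, 3), (0, 1, 2, 4), (0, 1, 3, 4), (0, 2, 3, 4), (1, 2, 3, 4), (0, 1, 2, 5), 
   (0, 1, 3, 5), (0, 2, 3, 5), (1, 2, 3, 5), (0, 1, 4, 5), (0, 2, 4, 5), (1, 2, 4, 5), 
   (0, 3, 4, 5), (1, 3, 4, 5), (2, 3, 4, 5), (0, 1, 2, 6), (0, 1, 3, 6), (0, 2, 3, 6), 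
   (1, 2, 3, 6), (0, 1, 4, 6), (0, 2, 4, 6), (1, 2, 4, 6), (0, 3, 4, 6), (1, 3, 4, 6), 
   (2, 3, 4, 6), (0, 1, 5, 6), (0, 2, 5, 6), (1, 2, 5, 6), (0, 3, 5, 6), (1, 3, 5, 6), 
   (2, 3, 5, 6), (0, 4, 5, 6), (1, 4, 5, 6), (2, 4, 5, 6), (3, 4, 5, 6), (0, 1, 2, 7), 
   (0, 1, 3, 7), (0, 2, 3, 7), (1, 2, 3, 7), (0, 1, 4, 7), (0, 2, 4, 7), (1, 2, 4, 7), 
   (0, 3, 4, 7), (1, 3, 4, 7), (2, 3, 4, 7), (0, 1, 5, 7), (0, 2, 5, 7), (1, 2, 5, 7), 
   (0, 3, 5, 7), (1, 3, 5, 7), (2, 3, 5, 7), (0, 4, 5, 7), (1, 4, 5, 7), (2, 4, 5, 7), 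
   (3, 4, 5, 7), (0, 1, 6, 7), (0, 2, 6, 7), (1, 2, 6, 7), (0, 3, 6, 7), (1, 3, 6, 7), 
   (2, 3, 6, 7), (0, 4, 6, 7), (1, 4, 6, 7), (2, 4, 6, 7), (3, 4, 6, 7), (0, 5, 6, 7), 
   (1, 5, 6, 7), (2, 5, 6, 7), (3, 5, 6, 7), (4, 5, 6, 7), (0, 1, 2, 8), (0, 1, 3, 8), 
   (0, 2, 3, 8), (1, 2, 3, 8), (0, 1, 4, 8), (0, 2, 4, 8), (1, 2, 4, 8), (0, 3, 4, 8), 
   (1, 3, 4, 8), (2, 3, 4, 8), (0, 1, 5, 8), (0, 2, 5, 8), (1, 2, 5, 8), (0, 3, 5, 8), 
   (1, 3, 5, 8), (2, 3, 5, 8), (0, 4, 5, 8), (1, 4, 5, 8), (2, 4, 5, 8), (3, 4, 5, 8), 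
   (0, 1, 6, 8), (0, 2, 6, 8), (1, 2, 6, 8), (0, 3, 6, 8), (1, 3, 6, 8), (2, 3, 6, 8), 
   (0, 4, 6, 8), (1, 4, 6, 8), (2, 4, 6, 8), (3, 4, 6, 8), (0, 5, 6, 8), (1, 5, 6, 8), 
   (2, 5, 6, 8), (3, 5, 6, 8), (4, 5, 6, 8), (0, 1, 7, 8), (0, 2, 7, 8), (1, 2, 7, 8), 
   (0, 3, 7, 8), (1, 3, 7, 8), (2, 3, 7, 8), (0, 4, 7, 8), (1, 4, 7, 8), (2, 4, 7, 8), 
   (3, 4, 7, 8), (0, 5, 7, 8), (1, 5, 7, 8), (2, 5, 7, 8), (3, 5, 7, 8), (4, 5, 7, 8), 
   (0, 6, 7, 8), (1, 6, 7, 8), (2, 6, 7, 8), (3, 6, 7, 8), (4, 6, 7, 8), (5, 6, 7, 8)]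

/-- Quadruple with given rank. -/
def unrank (p : Nat) : Nat × Nat × Nat × Nat := quads9.getD p (0, 0, 0, 0)

/-- Rank of a sorted quadruple. -/
def rank (a b c d : Nat) : Nat :=
  Nat.add (Nat.add (Nat.add a (Nat.land (Nat.shiftRight 518026276684251070464 (Nat.mul 8 b)) 255))
    (Nat.land (Nat.shiftRight 1035545324430909505536 (Nat.mul 8 c)) 255))
    (Nat.land (Nat.shiftRight 1293798328577499856896 (Nat.mul 8 d)) 255)

theorem unrank_rank_aux : ((List.range 9).all fun d => (List.range d).all fun c =>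
    (List.range c).all fun b => (List.range b).all fun a =>
      decide (unrank (rank a b c d) = (a, b, c, d))) = true := by
  decide +kernel

theorem unrank_rank : ∀ d < 9, ∀ c < d, ∀ b < c, ∀ a < b,
    unrank (rank a b c d) = (a, b, c, d) := by
  have h := unrank_rank_aux
  simp only [List.all_eq_true, List.mem_range, decide_eq_true_eq] at h
  exact h

/-- Comparator. -/
noncomputable def cs {α : Type} (a b : Nat) (s : Bool) (k : Nat → Nat → Bool → α) : α :=
  Bool.rec (k b a (nt s)) (k a b s) (Nat.blt a b)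

theorem cs_elim {α : Type} {a b : Nat} {s : Bool} {k : Nat → Nat → Bool → α} (P : α → Prop)
    (h1 : a < b → P (k a b s)) (h2 : ¬ a < b → P (k b a (!s))) : P (cs a b s k) := by
  by_cases h : a < b
  · have : Nat.blt a b = true := by rw [Nat.blt_eq]; exact h
    rw [cs, this]; exact h1 h
  · have : Nat.blt a b = false := by
      rw [Bool.eq_false_iff, ne_eq, Nat.blt_eq]; exact h
    rw [cs, this]
    have := h2 h
    rwa [← nt_eq] at this

/-- Index of the literal '`D a b c d` has sign `s`' for sorted labels. -/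
noncomputable def posn (NV a b c d : Nat) (s : Bool) : Nat :=
  Nat.add (rank a b c d) (Bool.rec NV 0 s)

/-- Index of the literal '`D a b c d` has sign `s`'. -/
noncomputable def lit (NV a b c d : Nat) (s : Bool) : Nat :=
  cs a b s fun a b s => cs c d s fun c d s => cs a c s fun a c s => cs b d s fun b d s =>
    cs b c s fun b c s => posn NV a b c d s

variable {n NV : ℕ} {adj : ℕ → ℕ → Bool} {X : ℕ → Fin 3 → ℝ}

/-- Truth of the variables. -/
def Val (X : ℕ → Fin 3 → ℝ) (p : Nat) : Prop :=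
  0 < D (X (unrank p).1) (X (unrank p).2.1) (X (unrank p).2.2.1) (X (unrank p).2.2.2)

/-- Meaning of an item. -/
def T (X : ℕ → Fin 3 → ℝ) (a b c d : Nat) (s : Bool) : Prop := sgn s (D (X a) (X b) (X c) (X d))

theorem D_swap02 (a b c d : Fin 3 → ℝ) : D c b a d = - D a b c d := by
  simp only [D]; ring
theorem D_swap13 (a b c d : Fin 3 → ℝ) : D a d c b = - D a b c d := by
  simp only [D]; ring

theorem T_swap01 {a b c d : Nat} {s : Bool} (h : T X b a c d (!s)) : T X a b c d s := by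
  unfold T at *; rw [D_swap01] at h; exact (sgn_not_neg _ _).1 h
theorem T_swap23 {a b c d : Nat} {s : Bool} (h : T X a b d c (!s)) : T X a b c d s := by
  unfold T at *; rw [D_swap23] at h; exact (sgn_not_neg _ _).1 h
theorem T_swap12 {a b c d : Nat} {s : Bool} (h : T X a c b d (!s)) : T X a b c d s := by
  unfold T at *; rw [D_swap12] at h; exact (sgn_not_neg _ _).1 h
theorem T_swap02 {a b c d : Nat} {s : Bool} (h : T X c b a d (!s)) : T X a b c d s := by
  unfold T at *; rw [D_swap02] at h; exact (sgn_not_neg _ _).1 h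
theorem T_swap13 {a b c d : Nat} {s : Bool} (h : T X a d c b (!s)) : T X a b c d s := by
  unfold T at *; rw [D_swap13] at h; exact (sgn_not_neg _ _).1 h

/-- The positions used for labels `< n` are below `NV`. -/
def RankOK (n NV : ℕ) : Prop := n ≤ 9 ∧ ∀ d < n, ∀ c < d, ∀ b < c, ∀ a < b, rank a b c d < NV

section
variable (hR : RankOK n NV) (hX : Conf n adj X)
include hR hX

theorem posn_sound {a b c d : Nat} {s : Bool} (h1 : a < b) (h2 : b < c) (h3 : c < d) (h4 : d < n)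
    (h : Lit NV (Val X) (posn NV a b c d s)) : T X a b c d s := by
  have hr := hR.2 d h4 c h3 b h2 a h1
  have hu := unrank_rank d (lt_of_lt_of_le h4 hR.1) c h3 b h2 a h1
  have hg := hX.gen a b c d (by omega) (by omega) (by omega) h4 (by omega) (by omega) (by omega)
    (by omega) (by omega) (by omega)
  cases s with
  | true =>
    have e : posn NV a b c d true = rank a b c d := rfl
    rw [e] at h
    simp only [Lit, hr, if_true, Val, hu] at h
    simpa [T, sgn] using h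
  | false =>
    have e : posn NV a b c d false = rank a b c d + NV := rfl
    rw [e] at h
    simp only [Lit, Val] at h
    rw [if_neg (by omega), Nat.add_sub_cancel, hu] at h
    simp only [T, sgn]
    have h5 := not_lt.1 h
    simpa using lt_of_le_of_ne h5 hg

theorem s5 {a b c d : Nat} {s : Bool} (h1 : a < b) (h2 : a < c) (h3 : b < d) (h4 : c < d)
    (hbc : b ≠ c) (h5 : d < n)
    (h : Lit NV (Val X) (cs b c s fun b c s => posn NV a b c d s)) : T X a b c d s := by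
  revert h
  refine cs_elim (fun j => Lit NV (Val X) j → T X a b c d s) (fun hlt h => ?_) (fun hlt h => ?_)
  · exact posn_sound hR hX h1 hlt h4 h5 h
  · exact T_swap12 (posn_sound hR hX h2 (by omega) h3 h5 h)

theorem s4 {a b c d : Nat} {s : Bool} (h1 : a < b) (h2 : a < c) (h3 : a < d)
    (h4 : c < d ∨ c < b) (hbc : b ≠ c) (hbd : b ≠ d) (hcd : c ≠ d) (hb : b < n) (h5 : d < n)
    (h : Lit NV (Val X) (cs b d s fun b d s => cs b c s fun b c s => posn NV a b c d s)) :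
    T X a b c d s := by
  revert h
  refine cs_elim (fun j => Lit NV (Val X) j → T X a b c d s) (fun hlt h => ?_) (fun hlt h => ?_)
  · exact s5 hR hX h1 h2 hlt (by omega) hbc h5 h
  · exact T_swap13 (s5 hR hX h3 h2 (by omega) (by omega) (by omega) hb h)

theorem s3 {a b c d : Nat} {s : Bool} (h1 : a < b) (h2 : c < d) (hac : a ≠ c) (had : a ≠ d)
    (hbc : b ≠ c) (hbd : b ≠ d) (hb : b < n) (h5 : d < n)
    (h : Lit NV (Val X) (cs a c s fun a c s => cs b d s fun b d s => cs b c s fun b c s =>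
      posn NV a b c d s)) : T X a b c d s := by
  revert h
  refine cs_elim (fun j => Lit NV (Val X) j → T X a b c d s) (fun hlt h => ?_) (fun hlt h => ?_)
  · exact s4 hR hX h1 hlt (by omega) (by omega) hbc hbd (by omega) hb h5 h
  · exact T_swap02 (s4 hR hX (by omega) (by omega) (by omega) (by omega) (by omega) hbd had hb h5 h)

theorem s2 {a b c d : Nat} {s : Bool} (h1 : a < b) (hac : a ≠ c) (had : a ≠ d)
    (hbc : b ≠ c) (hbd : b ≠ d) (hcd : c ≠ d) (hb : b < n) (h4 : c < n) (h5 : d < n)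
    (h : Lit NV (Val X) (cs c d s fun c d s => cs a c s fun a c s => cs b d s fun b d s =>
      cs b c s fun b c s => posn NV a b c d s)) : T X a b c d s := by
  revert h
  refine cs_elim (fun j => Lit NV (Val X) j → T X a b c d s) (fun hlt h => ?_) (fun hlt h => ?_)
  · exact s3 hR hX h1 hlt hac had hbc hbd hb h5 h
  · exact T_swap23 (s3 hR hX h1 (by omega) had hac hbd hbc hb h4 h)

theorem lit_sound {a b c d : Nat} {s : Bool} (hab : a ≠ b) (hac : a ≠ c) (had : a ≠ d)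
    (hbc : b ≠ c) (hbd : b ≠ d) (hcd : c ≠ d) (ha : a < n) (hb : b < n) (h4 : c < n) (h5 : d < n)
    (h : Lit NV (Val X) (lit NV a b c d s)) : T X a b c d s := by
  revert h
  refine cs_elim (fun j => Lit NV (Val X) j → T X a b c d s) (fun hlt h => ?_) (fun hlt h => ?_)
  · exact s2 hR hX hlt hac had hbc hbd hcd hb h4 h5 h
  · exact T_swap01 (s2 hR hX (by omega) hbc hbd hac had hcd ha h4 h5 h)

end

end H20
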