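import Mathlib

/-!
# Project MP_61d55c_co (number of 0-antipodal vertex pairs of a 3-polytope): shared definitions

Target theorem (`d = 3`): for every `n ≥ 4`, the maximum number of 0-antipodal vertex pairs of
a 3-polytope with exactly `n` vertices is `e0val n`, i.e. `⌊(n-1)(n+2)/3⌋` for `n = 4` and
`n ≥ 7`, and `10`, `14` for `n = 5, 6`.
-/

namespace H20

/-- `x` and `y` form a 0-antipodal pair of `K`: they are distinct points of `K` and some linear
functional attains its maximum over `K` only at `x` and its minimum over `K` only at `y`. -/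
def ZeroAntipodal {d : ℕ} (K : Set (Fin d → ℝ)) (x y : Fin d → ℝ) : Prop :=
  x ∈ K ∧ y ∈ K ∧ x ≠ y ∧ ∃ f : (Fin d → ℝ) →ₗ[ℝ] ℝ,
    (∀ z ∈ K, z ≠ x → f z < f x) ∧ (∀ z ∈ K, z ≠ y → f y < f z)

/-- `K` is a `d`-polytope with exactly `n` vertices. -/
def IsPolytope (d n : ℕ) (K : Set (Fin d → ℝ)) : Prop :=
  (∃ S : Set (Fin d → ℝ), S.Finite ∧ K = convexHull ℝ S) ∧ (interior K).Nonempty ∧
    (K.extremePoints ℝ).ncard = n

/-- The unordered pairs of vertices of `K` that are 0-antipodal pairs of `K`. -/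
def antipodalPairs {d : ℕ} (K : Set (Fin d → ℝ)) : Set (Sym2 (Fin d → ℝ)) :=
  {e | ∃ x y, e = s(x, y) ∧ x ∈ K.extremePoints ℝ ∧ y ∈ K.extremePoints ℝ ∧ ZeroAntipodal K x y}

/-- The claimed value of `e₀(3, n)`. -/
def e0val (n : ℕ) : ℕ := if n = 5 then 10 else if n = 6 then 14 else (n - 1) * (n + 2) / 3

/-- Antipodality inside an indexed family of points of `ℝ³`: a linear functional whose strict
maximum over the family is at index `i` and strict minimum at index `j`. -/
def Antip {ι : Type*} (q : ι → Fin 3 → ℝ) (i j : ι) : Prop :=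
  i ≠ j ∧ ∃ f : (Fin 3 → ℝ) →ₗ[ℝ] ℝ,
    (∀ k, k ≠ i → f (q k) < f (q i)) ∧ (∀ k, k ≠ j → f (q j) < f (q k))

/-- `G` has `k` distinct vertices `f 0, …, f (k-1)` such that all pairs `f i, f j` (`i < j`)
are adjacent, except possibly those with `(i, j) ∈ L`. -/
def HasPat {V : Type*} (G : SimpleGraph V) (k : ℕ) (L : List (Fin k × Fin k)) : Prop :=
  ∃ f : Fin k → V, Function.Injective f ∧ ∀ i j : Fin k, i < j → (i, j) ∉ L → G.Adj (f i) (f j)

/-- The eight patterns which never occur in the 0-antipodality graph of points in `ℝ³`.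
`L` lists the pairs allowed to be non-adjacent. -/
structure Good {V : Type*} (G : SimpleGraph V) : Prop where
  k6 : ¬ HasPat G 6 []
  t57 : ¬ HasPat G 7 [(0, 1), (2, 3)]
  /-- `K_{2,2,2,2}`. -/
  k2222 : ¬ HasPat G 8 [(0, 1), (2, 3), (4, 5), (6, 7)]
  /-- the join of the path `4-5-6-7-8` with the `K_{2,2}` with parts `{0,1}`, `{2,3}`. -/
  p5k22 : ¬ HasPat G 9 [(0, 1), (2, 3), (4, 6), (4, 7), (4, 8), (5, 7), (5, 8), (6, 8)]
  /-- complement is (contained in) the path `0-1-2-3-4-5` plus two isolated vertices. -/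
  p6 : ¬ HasPat G 8 [(0, 1), (1, 2), (2, 3), (3, 4), (4, 5)]
  /-- complement: 5-cycle plus three isolated vertices. -/
  c5 : ¬ HasPat G 8 [(0, 1), (1, 2), (2, 3), (3, 4), (0, 4)]
  /-- complement: 4-cycle plus an edge plus two isolated vertices. -/
  c4k2 : ¬ HasPat G 8 [(0, 1), (1, 2), (2, 3), (0, 3), (4, 5)]
  /-- complement: path `0-…-6` plus the edge `7-8`. -/
  p7k2 : ¬ HasPat G 9 [(0, 1), (1, 2), (2, 3), (3, 4), (4, 5), (5, 6), (7, 8)]

end H20
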