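import Pool.Agent.H20.Defs61d

/-!
# Orientation determinant of four points of `ℝ³` and the six-point lemmas
-/

namespace H20

/-- The determinant of `b - a, c - a, d - a`. -/
def D (a b c d : Fin 3 → ℝ) : ℝ :=
  (b 0 - a 0) * ((c 1 - a 1) * (d 2 - a 2) - (c 2 - a 2) * (d 1 - a 1))
  - (b 1 - a 1) * ((c 0 - a 0) * (d 2 - a 2) - (c 2 - a 2) * (d 0 - a 0))
  + (b 2 - a 2) * ((c 0 - a 0) * (d 1 - a 1) - (c 1 - a 1) * (d 0 - a 0))

theorem D_swap01 (a b c d : Fin 3 → ℝ) : D b a c d = - D a b c d := by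
  simp only [D]; ring
theorem D_swap12 (a b c d : Fin 3 → ℝ) : D a c b d = - D a b c d := by
  simp only [D]; ring
theorem D_swap23 (a b c d : Fin 3 → ℝ) : D a b d c = - D a b c d := by
  simp only [D]; ring

theorem D_neg (a b c d : Fin 3 → ℝ) : D (-a) (-b) (-c) (-d) = - D a b c d := by
  simp only [D, Pi.neg_apply]; ring

/-- Sum of the coefficients of the affine dependency of five points. -/
theorem five_sum (p q r s t : Fin 3 → ℝ) :
    D q r s t - D p r s t + D p q s t - D p q r t + D p q r s = 0 := by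
  simp only [D]; ring

theorem five_vec (p q r s t : Fin 3 → ℝ) :
    D q r s t • p - D p r s t • q + D p q s t • r - D p q r t • s + D p q r s • t = 0 := by
  funext i
  have hi : i = 0 ∨ i = 1 ∨ i = 2 := by
    fin_cases i <;> simp
  simp only [Pi.add_apply, Pi.sub_apply, Pi.smul_apply, smul_eq_mul, Pi.zero_apply]
  rcases hi with rfl | rfl | rfl
  · simp only [D]; ring
  · simp only [D]; ring
  · simp only [D]; ring

theorem five_lin (f : (Fin 3 → ℝ) →ₗ[ℝ] ℝ) (p q r s t : Fin 3 → ℝ) :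
    D q r s t * f p - D p r s t * f q + D p q s t * f r - D p q r t * f s + D p q r s * f t = 0 := by
  have h := congrArg f (five_vec p q r s t)
  simpa only [map_add, map_sub, map_smul, smul_eq_mul, map_zero] using h

/-- Grassmann–Plücker relation. -/
theorem gp (a b c d e f : Fin 3 → ℝ) :
    D a b c d * D a b e f - D a b c e * D a b d f + D a b c f * D a b d e = 0 := by
  simp only [D]; ring

/-- `x` and `z` are antipodal with respect to the further points listed in `L`. -/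
def AP (x z : Fin 3 → ℝ) (L : List (Fin 3 → ℝ)) : Prop :=
  ∃ f : (Fin 3 → ℝ) →ₗ[ℝ] ℝ, f z < f x ∧ ∀ w ∈ L, f z < f w ∧ f w < f x

theorem AP.symm {x z : Fin 3 → ℝ} {L : List (Fin 3 → ℝ)} (h : AP x z L) : AP z x L := by
  obtain ⟨f, h1, h2⟩ := h
  refine ⟨-f, by simpa using h1, fun w hw => ?_⟩
  have := h2 w hw
  simp only [LinearMap.neg_apply, neg_lt_neg_iff]
  exact ⟨this.2, this.1⟩

theorem AP.mono {x z : Fin 3 → ℝ} {L L' : List (Fin 3 → ℝ)} (h : AP x z L)
    (h' : ∀ w ∈ L', w ∈ L) : AP x z L' := by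
  obtain ⟨f, h1, h2⟩ := h
  exact ⟨f, h1, fun w hw => h2 w (h' w hw)⟩

/-- The five point inequality: in a circuit split as `{x, x'}` against `{z, z2, z3}`, with `x, z`
antipodal, the coefficient of `z` is smaller than that of `x'`. -/
theorem R1 {g : ℝ} (x x' z z2 z3 : Fin 3 → ℝ) (h : AP x z [x', z2, z3])
    (hx : 0 < g * D x' z z2 z3) (hx' : 0 < -(g * D x z z2 z3)) (hz : 0 < -(g * D x x' z2 z3))
    (hz2 : 0 < g * D x x' z z3) (hz3 : 0 < -(g * D x x' z z2)) :
    -(g * D x x' z2 z3) < -(g * D x z z2 z3) := by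
  obtain ⟨f, h1, h2⟩ := h
  have a1 := h2 x' (by simp)
  have a2 := h2 z2 (by simp)
  have a3 := h2 z3 (by simp)
  have s := five_sum x x' z z2 z3
  have l := five_lin f x x' z z2 z3
  have s' : g * D x' z z2 z3 + -(g * D x z z2 z3)
      = -(g * D x x' z2 z3) + g * D x x' z z3 + -(g * D x x' z z2) := by
    linear_combination g * s
  have l' : g * D x' z z2 z3 * (f x - f z) + -(g * D x z z2 z3) * (f x' - f z)
      = g * D x x' z z3 * (f z2 - f z) + -(g * D x x' z z2) * (f z3 - f z) := by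
    linear_combination g * l - g * f z * s
  generalize g * D x' z z2 z3 = A at *
  generalize g * D x z z2 z3 = B at *
  generalize g * D x x' z2 z3 = C at *
  generalize g * D x x' z z3 = E at *
  generalize g * D x x' z z2 = F at *
  have m1 := mul_pos hx' (sub_pos.2 a1.1)
  have m2 := mul_pos hz2 (sub_pos.2 a2.2)
  have m3 := mul_pos hz3 (sub_pos.2 a3.2)
  have m4 : 0 < (-B - -C) * (f x - f z) := by
    have hA : A = -C + E + -F - -B := by linarith
    subst hA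
    nlinarith [m1, m2, m3, l']
  by_contra hcon
  have hle : -B - -C ≤ 0 := by linarith
  have := mul_nonpos_of_nonpos_of_nonneg hle (sub_pos.2 h1).le
  linarith

/-- If `x` is exposed in a five point set, the other four coefficients are not all of one sign. -/
theorem five_exposed {g : ℝ} (x a b c d : Fin 3 → ℝ) (f : (Fin 3 → ℝ) →ₗ[ℝ] ℝ)
    (ha : f a < f x) (hb : f b < f x) (hc : f c < f x) (hd : f d < f x)
    (h1 : 0 < -(g * D x b c d)) (h2 : 0 < g * D x a c d) (h3 : 0 < -(g * D x a b d))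
    (h4 : 0 < g * D x a b c) : False := by
  have s := five_sum x a b c d
  have l := five_lin f x a b c d
  have l' : -(g * D x b c d) * (f x - f a) + g * D x a c d * (f x - f b)
      + -(g * D x a b d) * (f x - f c) + g * D x a b c * (f x - f d) = 0 := by
    linear_combination g * f x * s - g * l
  have m1 := mul_pos h1 (sub_pos.2 ha)
  have m2 := mul_pos h2 (sub_pos.2 hb)
  have m3 := mul_pos h3 (sub_pos.2 hc)
  have m4 := mul_pos h4 (sub_pos.2 hd)
  linarith

theorem L1 (g : ℝ) (p1 p2 p3 p4 p5 p6 : Fin 3 → ℝ)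
    (h23 : AP p2 p3 [p1, p4, p5, p6])
    (h45 : AP p4 p5 [p1, p2, p3, p6])
    (k12 : 0 < g * D p3 p4 p5 p6)
    (k15 : 0 < g * D p2 p3 p4 p6)
    (k23 : 0 < g * D p1 p4 p5 p6)
    (k24 : 0 < g * D p1 p3 p5 p6)
    (k25 : 0 < g * D p1 p3 p4 p6)
    (k26 : 0 < g * D p1 p3 p4 p5)
    (k34 : 0 < g * D p1 p2 p5 p6)
    (k35 : 0 < g * D p1 p2 p4 p6)
    (k45 : 0 < g * D p1 p2 p3 p6)
    (k56 : 0 < g * D p1 p2 p3 p4)
    : False := by
  have a1 : (g * D p1 p3 p5 p6) < (g * D p1 p4 p5 p6) := by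
    have e0 : D p3 p4 p1 p6 = D p1 p3 p4 p6 := by simp only [D]; ring
    have e1 : D p5 p4 p1 p6 = - (D p1 p4 p5 p6) := by simp only [D]; ring
    have e2 : D p5 p3 p1 p6 = - (D p1 p3 p5 p6) := by simp only [D]; ring
    have e3 : D p5 p3 p4 p6 = D p3 p4 p5 p6 := by simp only [D]; ring
    have e4 : D p5 p3 p4 p1 = - (D p1 p3 p4 p5) := by simp only [D]; ring
    have := R1 (g := g) p5 p3 p4 p1 p6 (h45.symm.mono (by simp)) (by rw [e0]; linarith) (by rw [e1]; linarith) (by rw [e2]; linarith) (by rw [e3]; linarith) (by rw [e4]; linarith)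
    rw [e1, e2] at this; linarith
  have a2 : (g * D p1 p2 p4 p6) < (g * D p1 p2 p3 p6) := by
    have e0 : D p4 p3 p1 p6 = - (D p1 p3 p4 p6) := by simp only [D]; ring
    have e1 : D p2 p3 p1 p6 = D p1 p2 p3 p6 := by simp only [D]; ring
    have e2 : D p2 p4 p1 p6 = D p1 p2 p4 p6 := by simp only [D]; ring
    have e3 : D p2 p4 p3 p6 = - (D p2 p3 p4 p6) := by simp only [D]; ring
    have e4 : D p2 p4 p3 p1 = D p1 p2 p3 p4 := by simp only [D]; ring
    have := R1 (g := (-g)) p2 p4 p3 p1 p6 (h23.mono (by simp)) (by rw [e0]; linarith) (by rw [e1]; linarith) (by rw [e2]; linarith) (by rw [e3]; linarith) (by rw [e4]; linarith)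
    rw [e1, e2] at this; linarith
  have q : (g * D p1 p3 p5 p6) * (g * D p1 p2 p4 p6) = (g * D p1 p4 p5 p6) * (g * D p1 p2 p3 p6) + (g * D p1 p3 p4 p6) * (g * D p1 p2 p5 p6) := by
    have h := gp p1 p6 p2 p3 p4 p5
    rw [show D p1 p6 p2 p3 = D p1 p2 p3 p6 from by simp only [D]; ring] at h
    rw [show D p1 p6 p4 p5 = D p1 p4 p5 p6 from by simp only [D]; ring] at h
    rw [show D p1 p6 p2 p4 = D p1 p2 p4 p6 from by simp only [D]; ring] at h
    rw [show D p1 p6 p3 p5 = D p1 p3 p5 p6 from by simp only [D]; ring] at h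
    rw [show D p1 p6 p2 p5 = D p1 p2 p5 p6 from by simp only [D]; ring] at h
    rw [show D p1 p6 p3 p4 = D p1 p3 p4 p6 from by simp only [D]; ring] at h
    linear_combination (-1 * g ^ 2) * h
  generalize g * D p3 p4 p5 p6 = d12 at *
  generalize g * D p2 p3 p4 p6 = d15 at *
  generalize g * D p1 p4 p5 p6 = d23 at *
  generalize g * D p1 p3 p5 p6 = d24 at *
  generalize g * D p1 p3 p4 p6 = d25 at *
  generalize g * D p1 p3 p4 p5 = d26 at *
  generalize g * D p1 p2 p5 p6 = d34 at *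
  generalize g * D p1 p2 p4 p6 = d35 at *
  generalize g * D p1 p2 p3 p6 = d45 at *
  generalize g * D p1 p2 p3 p4 = d56 at *
  have m := mul_lt_mul'' a1 a2 k24.le k35.le
  have m2 := mul_pos k25 k34
  linarith

theorem L3 (g : ℝ) (p1 p2 p3 p4 p5 p6 : Fin 3 → ℝ)
    (h12 : AP p1 p2 [p3, p4, p5, p6])
    (h34 : AP p3 p4 [p1, p2, p5, p6])
    (h56 : AP p5 p6 [p1, p2, p3, p4])
    (k12 : 0 < g * D p3 p4 p5 p6)
    (k13 : 0 < -(g * D p2 p4 p5 p6))
    (k14 : 0 < -(g * D p2 p3 p5 p6))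
    (k15 : 0 < g * D p2 p3 p4 p6)
    (k16 : 0 < g * D p2 p3 p4 p5)
    (k23 : 0 < -(g * D p1 p4 p5 p6))
    (k25 : 0 < g * D p1 p3 p4 p6)
    (k34 : 0 < g * D p1 p2 p5 p6)
    (k35 : 0 < -(g * D p1 p2 p4 p6))
    (k36 : 0 < -(g * D p1 p2 p4 p5))
    (k45 : 0 < -(g * D p1 p2 p3 p6))
    (k56 : 0 < g * D p1 p2 p3 p4)
    : False := by
  have a1 : (g * D p2 p3 p4 p6) < (-(g * D p1 p2 p4 p6)) := by
    have e0 : D p3 p1 p4 p6 = - (D p1 p3 p4 p6) := by simp only [D]; ring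
    have e1 : D p2 p1 p4 p6 = - (D p1 p2 p4 p6) := by simp only [D]; ring
    have e2 : D p2 p3 p4 p6 = D p2 p3 p4 p6 := rfl
    have e3 : D p2 p3 p1 p6 = D p1 p2 p3 p6 := by simp only [D]; ring
    have e4 : D p2 p3 p1 p4 = D p1 p2 p3 p4 := by simp only [D]; ring
    have := R1 (g := (-g)) p2 p3 p1 p4 p6 (h12.symm.mono (by simp)) (by rw [e0]; linarith) (by rw [e1]; linarith) (by rw [e2]; linarith) (by rw [e3]; linarith) (by rw [e4]; linarith)
    rw [e1, e2] at this; linarith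
  have a2 : (-(g * D p1 p2 p4 p6)) < (-(g * D p2 p4 p5 p6)) := by
    have e0 : D p1 p5 p2 p4 = D p1 p2 p4 p5 := by simp only [D]; ring
    have e1 : D p6 p5 p2 p4 = - (D p2 p4 p5 p6) := by simp only [D]; ring
    have e2 : D p6 p1 p2 p4 = - (D p1 p2 p4 p6) := by simp only [D]; ring
    have e3 : D p6 p1 p5 p4 = D p1 p4 p5 p6 := by simp only [D]; ring
    have e4 : D p6 p1 p5 p2 = D p1 p2 p5 p6 := by simp only [D]; ring
    have := R1 (g := (-g)) p6 p1 p5 p2 p4 (h56.symm.mono (by simp)) (by rw [e0]; linarith) (by rw [e1]; linarith) (by rw [e2]; linarith) (by rw [e3]; linarith) (by rw [e4]; linarith)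
    rw [e1, e2] at this; linarith
  have a3 : (-(g * D p2 p4 p5 p6)) < (g * D p2 p3 p4 p6) := by
    have e0 : D p5 p3 p2 p6 = - (D p2 p3 p5 p6) := by simp only [D]; ring
    have e1 : D p4 p3 p2 p6 = - (D p2 p3 p4 p6) := by simp only [D]; ring
    have e2 : D p4 p5 p2 p6 = D p2 p4 p5 p6 := by simp only [D]; ring
    have e3 : D p4 p5 p3 p6 = D p3 p4 p5 p6 := by simp only [D]; ring
    have e4 : D p4 p5 p3 p2 = - (D p2 p3 p4 p5) := by simp only [D]; ring
    have := R1 (g := g) p4 p5 p3 p2 p6 (h34.symm.mono (by simp)) (by rw [e0]; linarith) (by rw [e1]; linarith) (by rw [e2]; linarith) (by rw [e3]; linarith) (by rw [e4]; linarith)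
    rw [e1, e2] at this; linarith
  linarith

theorem L2 (g : ℝ) (p1 p2 p3 p4 p5 p6 : Fin 3 → ℝ)
    (h12 : AP p1 p2 [p3, p4, p5, p6])
    (h34 : AP p3 p4 [p1, p2, p5, p6])
    (h56 : AP p5 p6 [p1, p2, p3, p4])
    (k12 : 0 < g * D p3 p4 p5 p6)
    (k13 : 0 < g * D p2 p4 p5 p6)
    (k14 : 0 < g * D p2 p3 p5 p6)
    (k15 : 0 < g * D p2 p3 p4 p6)
    (k16 : 0 < g * D p2 p3 p4 p5)
    (k23 : 0 < g * D p1 p4 p5 p6)
    (k24 : 0 < g * D p1 p3 p5 p6)
    (k25 : 0 < g * D p1 p3 p4 p6)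
    (k26 : 0 < g * D p1 p3 p4 p5)
    (k34 : 0 < g * D p1 p2 p5 p6)
    (k35 : 0 < g * D p1 p2 p4 p6)
    (k36 : 0 < g * D p1 p2 p4 p5)
    (k45 : 0 < g * D p1 p2 p3 p6)
    (k46 : 0 < g * D p1 p2 p3 p5)
    (k56 : 0 < g * D p1 p2 p3 p4)
    : False := by
  have a1 : (g * D p2 p3 p5 p6) < (g * D p2 p3 p4 p6) := by
    have e0 : D p5 p4 p2 p6 = - (D p2 p4 p5 p6) := by simp only [D]; ring
    have e1 : D p3 p4 p2 p6 = D p2 p3 p4 p6 := by simp only [D]; ring
    have e2 : D p3 p5 p2 p6 = D p2 p3 p5 p6 := by simp only [D]; ring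
    have e3 : D p3 p5 p4 p6 = - (D p3 p4 p5 p6) := by simp only [D]; ring
    have e4 : D p3 p5 p4 p2 = D p2 p3 p4 p5 := by simp only [D]; ring
    have := R1 (g := (-g)) p3 p5 p4 p2 p6 (h34.mono (by simp)) (by rw [e0]; linarith) (by rw [e1]; linarith) (by rw [e2]; linarith) (by rw [e3]; linarith) (by rw [e4]; linarith)
    rw [e1, e2] at this; linarith
  have a2 : (g * D p1 p3 p4 p5) < (g * D p1 p4 p5 p6) := by
    have e0 : D p3 p6 p1 p4 = - (D p1 p3 p4 p6) := by simp only [D]; ring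
    have e1 : D p5 p6 p1 p4 = D p1 p4 p5 p6 := by simp only [D]; ring
    have e2 : D p5 p3 p1 p4 = D p1 p3 p4 p5 := by simp only [D]; ring
    have e3 : D p5 p3 p6 p4 = - (D p3 p4 p5 p6) := by simp only [D]; ring
    have e4 : D p5 p3 p6 p1 = D p1 p3 p5 p6 := by simp only [D]; ring
    have := R1 (g := (-g)) p5 p3 p6 p1 p4 (h56.mono (by simp)) (by rw [e0]; linarith) (by rw [e1]; linarith) (by rw [e2]; linarith) (by rw [e3]; linarith) (by rw [e4]; linarith)
    rw [e1, e2] at this; linarith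
  have a3 : (g * D p2 p4 p5 p6) < (g * D p1 p2 p4 p6) := by
    have e0 : D p5 p1 p4 p6 = D p1 p4 p5 p6 := by simp only [D]; ring
    have e1 : D p2 p1 p4 p6 = - (D p1 p2 p4 p6) := by simp only [D]; ring
    have e2 : D p2 p5 p4 p6 = - (D p2 p4 p5 p6) := by simp only [D]; ring
    have e3 : D p2 p5 p1 p6 = D p1 p2 p5 p6 := by simp only [D]; ring
    have e4 : D p2 p5 p1 p4 = - (D p1 p2 p4 p5) := by simp only [D]; ring
    have := R1 (g := g) p2 p5 p1 p4 p6 (h12.symm.mono (by simp)) (by rw [e0]; linarith) (by rw [e1]; linarith) (by rw [e2]; linarith) (by rw [e3]; linarith) (by rw [e4]; linarith)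
    rw [e1, e2] at this; linarith
  have a4 : (g * D p1 p2 p4 p5) < (g * D p1 p3 p4 p5) := by
    have e0 : D p2 p3 p1 p5 = D p1 p2 p3 p5 := by simp only [D]; ring
    have e1 : D p4 p3 p1 p5 = - (D p1 p3 p4 p5) := by simp only [D]; ring
    have e2 : D p4 p2 p1 p5 = - (D p1 p2 p4 p5) := by simp only [D]; ring
    have e3 : D p4 p2 p3 p5 = D p2 p3 p4 p5 := by simp only [D]; ring
    have e4 : D p4 p2 p3 p1 = - (D p1 p2 p3 p4) := by simp only [D]; ring
    have := R1 (g := g) p4 p2 p3 p1 p5 (h34.symm.mono (by simp)) (by rw [e0]; linarith) (by rw [e1]; linarith) (by rw [e2]; linarith) (by rw [e3]; linarith) (by rw [e4]; linarith)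
    rw [e1, e2] at this; linarith
  have a5 : (g * D p2 p3 p4 p6) < (g * D p1 p2 p3 p6) := by
    have e0 : D p4 p1 p3 p6 = D p1 p3 p4 p6 := by simp only [D]; ring
    have e1 : D p2 p1 p3 p6 = - (D p1 p2 p3 p6) := by simp only [D]; ring
    have e2 : D p2 p4 p3 p6 = - (D p2 p3 p4 p6) := by simp only [D]; ring
    have e3 : D p2 p4 p1 p6 = D p1 p2 p4 p6 := by simp only [D]; ring
    have e4 : D p2 p4 p1 p3 = - (D p1 p2 p3 p4) := by simp only [D]; ring
    have := R1 (g := g) p2 p4 p1 p3 p6 (h12.symm.mono (by simp)) (by rw [e0]; linarith) (by rw [e1]; linarith) (by rw [e2]; linarith) (by rw [e3]; linarith) (by rw [e4]; linarith)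
    rw [e1, e2] at this; linarith
  have a6 : (g * D p2 p3 p4 p5) < (g * D p2 p4 p5 p6) := by
    have e0 : D p3 p6 p2 p4 = - (D p2 p3 p4 p6) := by simp only [D]; ring
    have e1 : D p5 p6 p2 p4 = D p2 p4 p5 p6 := by simp only [D]; ring
    have e2 : D p5 p3 p2 p4 = D p2 p3 p4 p5 := by simp only [D]; ring
    have e3 : D p5 p3 p6 p4 = - (D p3 p4 p5 p6) := by simp only [D]; ring
    have e4 : D p5 p3 p6 p2 = D p2 p3 p5 p6 := by simp only [D]; ring
    have := R1 (g := (-g)) p5 p3 p6 p2 p4 (h56.mono (by simp)) (by rw [e0]; linarith) (by rw [e1]; linarith) (by rw [e2]; linarith) (by rw [e3]; linarith) (by rw [e4]; linarith)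
    rw [e1, e2] at this; linarith
  have q : (g * D p2 p3 p5 p6) * (g * D p1 p2 p4 p6) = (g * D p2 p4 p5 p6) * (g * D p1 p2 p3 p6) + (g * D p2 p3 p4 p6) * (g * D p1 p2 p5 p6) := by
    have h := gp p2 p6 p1 p3 p4 p5
    rw [show D p2 p6 p1 p3 = - (D p1 p2 p3 p6) from by simp only [D]; ring] at h
    rw [show D p2 p6 p4 p5 = D p2 p4 p5 p6 from by simp only [D]; ring] at h
    rw [show D p2 p6 p1 p4 = - (D p1 p2 p4 p6) from by simp only [D]; ring] at h
    rw [show D p2 p6 p3 p5 = D p2 p3 p5 p6 from by simp only [D]; ring] at h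
    rw [show D p2 p6 p1 p5 = - (D p1 p2 p5 p6) from by simp only [D]; ring] at h
    rw [show D p2 p6 p3 p4 = D p2 p3 p4 p6 from by simp only [D]; ring] at h
    linear_combination (1 * g ^ 2) * h
  have l : (g * D p2 p4 p5 p6) - (g * D p1 p4 p5 p6) + (g * D p1 p2 p5 p6) - (g * D p1 p2 p4 p6) + (g * D p1 p2 p4 p5) = 0 := by
    have h := five_sum p1 p2 p4 p5 p6
    linear_combination g * h
  generalize g * D p3 p4 p5 p6 = d12 at *
  generalize g * D p2 p4 p5 p6 = d13 at *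
  generalize g * D p2 p3 p5 p6 = d14 at *
  generalize g * D p2 p3 p4 p6 = d15 at *
  generalize g * D p2 p3 p4 p5 = d16 at *
  generalize g * D p1 p4 p5 p6 = d23 at *
  generalize g * D p1 p3 p5 p6 = d24 at *
  generalize g * D p1 p3 p4 p6 = d25 at *
  generalize g * D p1 p3 p4 p5 = d26 at *
  generalize g * D p1 p2 p5 p6 = d34 at *
  generalize g * D p1 p2 p4 p6 = d35 at *
  generalize g * D p1 p2 p4 p5 = d36 at *
  generalize g * D p1 p2 p3 p6 = d45 at *
  generalize g * D p1 p2 p3 p5 = d46 at *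
  generalize g * D p1 p2 p3 p4 = d56 at *
  -- (D15−D14)(D23−D26)+(D15−D14)(D35−D13)+D14(D23−D26)+pl1345+(D15−D14)(D26−D36)+D16(D45−D15)−lin3·D15+(D15−D14)(D13−D16)+D14(D26−D36)+D16(D15−D14)+(D13−D16)(D45−D15)
  have m1 := mul_pos (sub_pos.2 a1) (sub_pos.2 a2)
  have m2 := mul_pos (sub_pos.2 a1) (sub_pos.2 a3)
  have m3 := mul_pos k14 (sub_pos.2 a2)
  have m4 := mul_pos (sub_pos.2 a1) (sub_pos.2 a4)
  have m5 := mul_pos k16 (sub_pos.2 a5)
  have m6 := mul_pos (sub_pos.2 a1) (sub_pos.2 a6)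
  have m7 := mul_pos k14 (sub_pos.2 a4)
  have m8 := mul_pos k16 (sub_pos.2 a1)
  have m9 := mul_pos (sub_pos.2 a6) (sub_pos.2 a5)
  have l15 := congrArg (fun t => t * d15) l
  beta_reduce at l15
  nlinarith [m1, m2, m3, m4, m5, m6, m7, m8, m9, q, l15]

theorem L4a (g : ℝ) (p1 p2 p3 p4 p5 p6 : Fin 3 → ℝ)
    (h15 : AP p1 p5 [p2, p3, p4, p6])
    (h23 : AP p2 p3 [p1, p4, p5, p6])
    (h46 : AP p4 p6 [p1, p2, p3, p5])
    (k12 : 0 < g * D p3 p4 p5 p6)
    (k13 : 0 < g * D p2 p4 p5 p6)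
    (k15 : 0 < g * D p2 p3 p4 p6)
    (k23 : 0 < g * D p1 p4 p5 p6)
    (k24 : 0 < g * D p1 p3 p5 p6)
    (k25 : 0 < g * D p1 p3 p4 p6)
    (k26 : 0 < g * D p1 p3 p4 p5)
    (k34 : 0 < g * D p1 p2 p5 p6)
    (k35 : 0 < g * D p1 p2 p4 p6)
    (k36 : 0 < g * D p1 p2 p4 p5)
    (k45 : 0 < g * D p1 p2 p3 p6)
    (k56 : 0 < g * D p1 p2 p3 p4)
    : (g * D p3 p4 p5 p6) * (g * D p1 p2 p3 p6) < (g * D p2 p4 p5 p6) * (g * D p1 p2 p3 p4) := by
  have a1 : (g * D p2 p4 p5 p6) < (g * D p1 p4 p5 p6) := by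
    have e0 : D p2 p1 p4 p6 = - (D p1 p2 p4 p6) := by simp only [D]; ring
    have e1 : D p5 p1 p4 p6 = D p1 p4 p5 p6 := by simp only [D]; ring
    have e2 : D p5 p2 p4 p6 = D p2 p4 p5 p6 := by simp only [D]; ring
    have e3 : D p5 p2 p1 p6 = - (D p1 p2 p5 p6) := by simp only [D]; ring
    have e4 : D p5 p2 p1 p4 = D p1 p2 p4 p5 := by simp only [D]; ring
    have := R1 (g := (-g)) p5 p2 p1 p4 p6 (h15.symm.mono (by simp)) (by rw [e0]; linarith) (by rw [e1]; linarith) (by rw [e2]; linarith) (by rw [e3]; linarith) (by rw [e4]; linarith)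
    rw [e1, e2] at this; linarith
  have a2 : (g * D p1 p2 p3 p4) < (g * D p1 p3 p4 p6) := by
    have e0 : D p2 p6 p1 p3 = - (D p1 p2 p3 p6) := by simp only [D]; ring
    have e1 : D p4 p6 p1 p3 = D p1 p3 p4 p6 := by simp only [D]; ring
    have e2 : D p4 p2 p1 p3 = D p1 p2 p3 p4 := by simp only [D]; ring
    have e3 : D p4 p2 p6 p3 = - (D p2 p3 p4 p6) := by simp only [D]; ring
    have e4 : D p4 p2 p6 p1 = D p1 p2 p4 p6 := by simp only [D]; ring
    have := R1 (g := (-g)) p4 p2 p6 p1 p3 (h46.mono (by simp)) (by rw [e0]; linarith) (by rw [e1]; linarith) (by rw [e2]; linarith) (by rw [e3]; linarith) (by rw [e4]; linarith)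
    rw [e1, e2] at this; linarith
  have a3 : (g * D p3 p4 p5 p6) < (g * D p1 p4 p5 p6) := by
    have e0 : D p3 p1 p4 p6 = - (D p1 p3 p4 p6) := by simp only [D]; ring
    have e1 : D p5 p1 p4 p6 = D p1 p4 p5 p6 := by simp only [D]; ring
    have e2 : D p5 p3 p4 p6 = D p3 p4 p5 p6 := by simp only [D]; ring
    have e3 : D p5 p3 p1 p6 = - (D p1 p3 p5 p6) := by simp only [D]; ring
    have e4 : D p5 p3 p1 p4 = D p1 p3 p4 p5 := by simp only [D]; ring
    have := R1 (g := (-g)) p5 p3 p1 p4 p6 (h15.symm.mono (by simp)) (by rw [e0]; linarith) (by rw [e1]; linarith) (by rw [e2]; linarith) (by rw [e3]; linarith) (by rw [e4]; linarith)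
    rw [e1, e2] at this; linarith
  have a4 : (g * D p1 p2 p4 p6) < (g * D p1 p2 p3 p6) := by
    have e0 : D p4 p3 p1 p6 = - (D p1 p3 p4 p6) := by simp only [D]; ring
    have e1 : D p2 p3 p1 p6 = D p1 p2 p3 p6 := by simp only [D]; ring
    have e2 : D p2 p4 p1 p6 = D p1 p2 p4 p6 := by simp only [D]; ring
    have e3 : D p2 p4 p3 p6 = - (D p2 p3 p4 p6) := by simp only [D]; ring
    have e4 : D p2 p4 p3 p1 = D p1 p2 p3 p4 := by simp only [D]; ring
    have := R1 (g := (-g)) p2 p4 p3 p1 p6 (h23.mono (by simp)) (by rw [e0]; linarith) (by rw [e1]; linarith) (by rw [e2]; linarith) (by rw [e3]; linarith) (by rw [e4]; linarith)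
    rw [e1, e2] at this; linarith
  have q : (g * D p2 p4 p5 p6) * (g * D p1 p3 p4 p6) = (g * D p3 p4 p5 p6) * (g * D p1 p2 p4 p6) + (g * D p2 p3 p4 p6) * (g * D p1 p4 p5 p6) := by
    have h := gp p4 p6 p1 p2 p3 p5
    rw [show D p4 p6 p1 p2 = D p1 p2 p4 p6 from by simp only [D]; ring] at h
    rw [show D p4 p6 p3 p5 = - (D p3 p4 p5 p6) from by simp only [D]; ring] at h
    rw [show D p4 p6 p1 p3 = D p1 p3 p4 p6 from by simp only [D]; ring] at h
    rw [show D p4 p6 p2 p5 = - (D p2 p4 p5 p6) from by simp only [D]; ring] at h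
    rw [show D p4 p6 p1 p5 = - (D p1 p4 p5 p6) from by simp only [D]; ring] at h
    rw [show D p4 p6 p2 p3 = D p2 p3 p4 p6 from by simp only [D]; ring] at h
    linear_combination (1 * g ^ 2) * h
  have l : (g * D p2 p3 p4 p6) - (g * D p1 p3 p4 p6) + (g * D p1 p2 p4 p6) - (g * D p1 p2 p3 p6) + (g * D p1 p2 p3 p4) = 0 := by
    have h := five_sum p1 p2 p3 p4 p6
    linear_combination g * h
  generalize g * D p3 p4 p5 p6 = d12 at *
  generalize g * D p2 p4 p5 p6 = d13 at *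
  generalize g * D p2 p3 p4 p6 = d15 at *
  generalize g * D p1 p4 p5 p6 = d23 at *
  generalize g * D p1 p3 p5 p6 = d24 at *
  generalize g * D p1 p3 p4 p6 = d25 at *
  generalize g * D p1 p3 p4 p5 = d26 at *
  generalize g * D p1 p2 p5 p6 = d34 at *
  generalize g * D p1 p2 p4 p6 = d35 at *
  generalize g * D p1 p2 p4 p5 = d36 at *
  generalize g * D p1 p2 p3 p6 = d45 at *
  generalize g * D p1 p2 p3 p4 = d56 at *
  have m1 := mul_pos (sub_pos.2 a1) (sub_pos.2 a2)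
  have m2 := mul_pos (sub_pos.2 a3) (sub_pos.2 a4)
  have l23 := congrArg (fun t => t * d23) l
  beta_reduce at l23
  nlinarith [m1, m2, q, l23]

end H20
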