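import Pool.Agent.H20.GraphIface61d

/-!
# Part G2 of project MP_61d55c_co: counting lemmas (helper98)
-/

namespace H20
open Finset

variable {V : Type*} [DecidableEq V] (G : SimpleGraph V) [DecidableRel G.Adj]

/-- Number of adjacent pairs `(s,t)`, `s ∈ S`, `t ∈ T`. -/
def ee (S T : Finset V) : ℕ := ∑ s ∈ S, ∑ t ∈ T, if G.Adj s t then 1 else 0

/-- Degree of `v` inside `S`. -/
def dg (S : Finset V) (v : V) : ℕ := (S.filter (G.Adj v)).card

lemma dg_eq (S : Finset V) (v : V) : dg G S v = ∑ t ∈ S, if G.Adj v t then 1 else 0 := by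
  rw [dg, Finset.card_filter]

lemma DS_eq (S : Finset V) : DS G S = ee G S S := by
  unfold DS ee
  refine Finset.sum_congr rfl fun v _ => ?_
  rw [Finset.card_filter]

lemma ee_comm (S T : Finset V) : ee G S T = ee G T S := by
  unfold ee
  rw [Finset.sum_comm]
  refine Finset.sum_congr rfl fun v _ => Finset.sum_congr rfl fun u _ => ?_
  simp [G.adj_comm]

lemma ee_eq_sum_dg (S T : Finset V) : ee G S T = ∑ s ∈ S, dg G T s := by
  unfold ee
  refine Finset.sum_congr rfl fun v _ => ?_
  rw [dg_eq]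

lemma ee_sdiff_left {A S : Finset V} (h : A ⊆ S) (T : Finset V) :
    ee G (S \ A) T + ee G A T = ee G S T := by
  unfold ee
  exact Finset.sum_sdiff h

lemma ee_sdiff_right {A S : Finset V} (h : A ⊆ S) (T : Finset V) :
    ee G T (S \ A) + ee G T A = ee G T S := by
  rw [ee_comm G T, ee_comm G T, ee_comm G T]
  exact ee_sdiff_left G h T

lemma DS_sdiff {A S : Finset V} (h : A ⊆ S) :
    DS G (S \ A) + 2 * (∑ a ∈ A, dg G S a) = DS G S + DS G A := by
  rw [DS_eq, DS_eq, DS_eq, ← ee_eq_sum_dg]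
  have h1 := ee_sdiff_left G h S
  have h2 := ee_sdiff_right G h (S \ A)
  have h3 := ee_sdiff_right G h A
  have h4 := ee_comm G A (S \ A)
  omega

lemma DS_erase {S : Finset V} {v : V} (hv : v ∈ S) :
    DS G S = DS G (S.erase v) + 2 * dg G S v := by
  have h := DS_sdiff G (A := {v}) (S := S) (by simpa using hv)
  rw [Finset.sdiff_singleton_eq_erase] at h
  have h2 : DS G {v} = 0 := by simp [DS]
  simp at h
  omega

lemma DS_even (S : Finset V) : Even (DS G S) := by
  induction S using Finset.induction_on with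
  | empty => simp [DS]
  | insert a s ha ih =>
    rw [DS_erase G (Finset.mem_insert_self a s), Finset.erase_insert ha]
    exact ih.add (even_two_mul _)

lemma DS_eq_sum_dg (S : Finset V) : DS G S = ∑ s ∈ S, dg G S s := rfl

lemma dg_lt (S : Finset V) {v : V} (hv : v ∈ S) : dg G S v < S.card := by
  apply Finset.card_lt_card
  refine ⟨Finset.filter_subset _ _, fun h => ?_⟩
  have := h hv
  simp at this

lemma DS_le (S : Finset V) : DS G S ≤ S.card * (S.card - 1) := by
  rw [DS_eq_sum_dg]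
  calc ∑ s ∈ S, dg G S s ≤ ∑ _s ∈ S, (S.card - 1) :=
        Finset.sum_le_sum fun s hs => Nat.le_sub_one_of_lt (dg_lt G S hs)
    _ = _ := by simp

lemma avg {S : Finset V} {B : ℕ} (h : ∀ v ∈ S, DS G (S.erase v) ≤ B) :
    S.card * DS G S ≤ S.card * B + 2 * DS G S := by
  have h1 : ∑ v ∈ S, DS G S = ∑ v ∈ S, (DS G (S.erase v) + 2 * dg G S v) :=
    Finset.sum_congr rfl fun v hv => DS_erase G hv
  rw [Finset.sum_const, smul_eq_mul, Finset.sum_add_distrib, ← Finset.mul_sum] at h1
  have h2 : ∑ v ∈ S, DS G (S.erase v) ≤ ∑ _v ∈ S, B := Finset.sum_le_sum h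
  rw [Finset.sum_const, smul_eq_mul] at h2
  have h3 := DS_eq_sum_dg G S
  rw [← h3] at h1
  omega

/-- Regularity from the equality case in averaging. -/
lemma dg_eq_of {S : Finset V} {B k : ℕ} (h : ∀ v ∈ S, DS G (S.erase v) ≤ B)
    (hk : DS G S = B + 2 * k) (hS : DS G S = S.card * k) : ∀ v ∈ S, dg G S v = k := by
  have h1 : ∀ v ∈ S, k ≤ dg G S v := fun v hv => by
    have := h v hv
    have := DS_erase G hv
    omega
  have h2 : ∑ v ∈ S, k = ∑ v ∈ S, dg G S v := by
    rw [← DS_eq_sum_dg, hS]; simp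
  intro v hv
  exact ((Finset.sum_eq_sum_iff_of_le h1).1 h2 v hv).symm

/-- Non-neighbours of `v` in `S`. -/
def nn (S : Finset V) (v : V) : Finset V := S.filter (fun y => y ≠ v ∧ ¬ G.Adj v y)

lemma card_nn {S : Finset V} {v : V} (hv : v ∈ S) : dg G S v + (nn G S v).card + 1 = S.card := by
  have h1 : S.card = (S.filter (G.Adj v)).card + (S.filter (fun y => ¬ G.Adj v y)).card :=
    (Finset.card_filter_add_card_filter_not _).symm
  have h2 : S.filter (fun y => ¬ G.Adj v y) = insert v (nn G S v) := by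
    ext y
    simp only [nn, Finset.mem_filter, Finset.mem_insert]
    constructor
    · rintro ⟨hy, hn⟩
      by_cases h : y = v
      · exact Or.inl h
      · exact Or.inr ⟨hy, h, hn⟩
    · rintro (rfl | ⟨hy, _, hn⟩)
      · exact ⟨hv, G.irrefl⟩
      · exact ⟨hy, hn⟩
  have h3 : v ∉ nn G S v := by simp [nn]
  rw [h1, h2, Finset.card_insert_of_notMem h3, dg]
  omega

lemma sum_nn (S : Finset V) : DS G S + ∑ v ∈ S, (nn G S v).card + S.card = S.card * S.card := by
  rw [DS_eq_sum_dg, ← Finset.sum_add_distrib]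
  have : S.card = ∑ _v ∈ S, 1 := by simp
  conv_lhs => rw [this]
  rw [← Finset.sum_add_distrib]
  rw [Finset.sum_congr rfl fun v hv => card_nn G hv]
  simp

end H20
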