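import Pool.Agent.H20.Graph61dSmall

/-!
# Part G2 of project MP_61d55c_co: good graphs on 11 vertices containing a `K₅` (helper98)
-/

namespace H20
open Finset

variable {V : Type*} [DecidableEq V] {G : SimpleGraph V} [DecidableRel G.Adj]

/-- The local structure of an 8-regular good graph on 11 vertices around a `K₅`. -/
structure Sit (G : SimpleGraph V) (A W : Finset V) (M : V → Finset V) (w1 w2 : V) : Prop where
  aa : ∀ a ∈ A, ∀ b ∈ A, a ≠ b → G.Adj a b
  wa : ∀ w ∈ W, ∀ a ∈ A, a ∉ M w → G.Adj w a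
  aw : ∀ a ∈ A, ∀ w ∈ W, a ∉ M w → G.Adj a w
  ww : ∀ w ∈ W, ∀ w' ∈ W, w ≠ w' → ¬ (w = w1 ∧ w' = w2) → ¬ (w = w2 ∧ w' = w1) → G.Adj w w'
  ne : ∀ a ∈ A, ∀ w ∈ W, a ≠ w
  ne' : ∀ a ∈ A, ∀ w ∈ W, w ≠ a

variable {A W : Finset V} {M : V → Finset V} {w1 w2 : V}

omit [DecidableEq V] [DecidableRel G.Adj] in
lemma Sit.ww' (h : Sit G A W M w1 w2) {w w' : V} (hw : w ∈ W) (hw' : w' ∈ W) (hne : w ≠ w')
    (h2 : w ≠ w2) (h2' : w' ≠ w2) : G.Adj w w' :=
  h.ww w hw w' hw' hne (fun e => h2' e.2) (fun e => h2 e.1)

set_option maxHeartbeats 4000000 in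
omit [DecidableRel G.Adj] in
lemma pat_c5 {a1 x w3 p q r : V} (h : Sit G A W M w1 w2)
    (ma1 : a1 ∈ A) (mx : x ∈ A) (mp : p ∈ A) (mq : q ∈ A) (mr : r ∈ A)
    (mw1 : w1 ∈ W) (mw2 : w2 ∈ W) (mw3 : w3 ∈ W)
    (n1 : M w1 = {a1}) (n2 : M w2 = {x}) (n3 : M w3 = {a1, x})
    (hx : x ≠ a1) (hp1 : p ≠ a1) (hq1 : q ≠ a1) (hr1 : r ≠ a1) (hpx : p ≠ x) (hqx : q ≠ x)
    (hrx : r ≠ x) (hqp : q ≠ p) (hrp : r ≠ p) (hrq : r ≠ q)
    (h21 : w2 ≠ w1) (h31 : w3 ≠ w1) (h32 : w3 ≠ w2) :
    HasPat G 8 [(0, 1), (1, 2), (2, 3), (3, 4), (0, 4)] := by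
  apply hasPat_mk ![a1, w1, w2, x, w3, p, q, r]
  · intro i j hij
    fin_cases i <;> fin_cases j <;> simp at hij ⊢ <;> (first | assumption | (apply Ne.symm; assumption) | exact Sit.ne (by assumption) _ (by assumption) _ (by assumption) | exact Sit.ne' (by assumption) _ (by assumption) _ (by assumption))
  · intro i j hij hL
    fin_cases i <;> fin_cases j <;> simp at hij hL ⊢ <;> first
      | exact h.aa _ (by assumption) _ (by assumption) (by (first | assumption | (apply Ne.symm; assumption) | exact Sit.ne (by assumption) _ (by assumption) _ (by assumption) | exact Sit.ne' (by assumption) _ (by assumption) _ (by assumption)))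
      | exact h.wa _ (by assumption) _ (by assumption)
          (by simp only [n1, n2, n3, Finset.mem_singleton, Finset.mem_insert]; (first | (first | assumption | (apply Ne.symm; assumption) | exact Sit.ne (by assumption) _ (by assumption) _ (by assumption) | exact Sit.ne' (by assumption) _ (by assumption) _ (by assumption)) | (refine not_or.2 ⟨?_, ?_⟩ <;> (first | assumption | (apply Ne.symm; assumption) | exact Sit.ne (by assumption) _ (by assumption) _ (by assumption) | exact Sit.ne' (by assumption) _ (by assumption) _ (by assumption)))))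
      | exact h.aw _ (by assumption) _ (by assumption)
          (by simp only [n1, n2, n3, Finset.mem_singleton, Finset.mem_insert]; (first | (first | assumption | (apply Ne.symm; assumption) | exact Sit.ne (by assumption) _ (by assumption) _ (by assumption) | exact Sit.ne' (by assumption) _ (by assumption) _ (by assumption)) | (refine not_or.2 ⟨?_, ?_⟩ <;> (first | assumption | (apply Ne.symm; assumption) | exact Sit.ne (by assumption) _ (by assumption) _ (by assumption) | exact Sit.ne' (by assumption) _ (by assumption) _ (by assumption)))))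
      | exact h.ww _ (by assumption) _ (by assumption) (by (first | assumption | (apply Ne.symm; assumption) | exact Sit.ne (by assumption) _ (by assumption) _ (by assumption) | exact Sit.ne' (by assumption) _ (by assumption) _ (by assumption)))
          (fun e => by first | exact absurd e.1 (by (first | assumption | (apply Ne.symm; assumption) | exact Sit.ne (by assumption) _ (by assumption) _ (by assumption) | exact Sit.ne' (by assumption) _ (by assumption) _ (by assumption))) | exact absurd e.2 (by (first | assumption | (apply Ne.symm; assumption) | exact Sit.ne (by assumption) _ (by assumption) _ (by assumption) | exact Sit.ne' (by assumption) _ (by assumption) _ (by assumption))))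
          (fun e => by first | exact absurd e.1 (by (first | assumption | (apply Ne.symm; assumption) | exact Sit.ne (by assumption) _ (by assumption) _ (by assumption) | exact Sit.ne' (by assumption) _ (by assumption) _ (by assumption))) | exact absurd e.2 (by (first | assumption | (apply Ne.symm; assumption) | exact Sit.ne (by assumption) _ (by assumption) _ (by assumption) | exact Sit.ne' (by assumption) _ (by assumption) _ (by assumption))))

set_option maxHeartbeats 4000000 in
omit [DecidableRel G.Adj] in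
lemma pat_p6 {a1 x y w3 w4 p q : V} (h : Sit G A W M w1 w2)
    (ma1 : a1 ∈ A) (mx : x ∈ A) (my : y ∈ A) (mp : p ∈ A) (mq : q ∈ A)
    (mw1 : w1 ∈ W) (mw3 : w3 ∈ W) (mw4 : w4 ∈ W)
    (n1 : M w1 = {a1}) (n3 : M w3 = {a1, x}) (n4 : M w4 = {x, y})
    (hx : x ≠ a1) (hy : y ≠ a1) (hyx : y ≠ x) (hp1 : p ≠ a1) (hq1 : q ≠ a1) (hpx : p ≠ x)
    (hqx : q ≠ x) (hpy : p ≠ y) (hqy : q ≠ y) (hqp : q ≠ p)
    (h12 : w1 ≠ w2) (h31 : w3 ≠ w1) (h32 : w3 ≠ w2) (h41 : w4 ≠ w1) (h42 : w4 ≠ w2)
    (h43 : w4 ≠ w3) :
    HasPat G 8 [(0, 1), (1, 2), (2, 3), (3, 4), (4, 5)] := by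
  apply hasPat_mk ![w1, a1, w3, x, w4, y, p, q]
  · intro i j hij
    fin_cases i <;> fin_cases j <;> simp at hij ⊢ <;> (first | assumption | (apply Ne.symm; assumption) | exact Sit.ne (by assumption) _ (by assumption) _ (by assumption) | exact Sit.ne' (by assumption) _ (by assumption) _ (by assumption))
  · intro i j hij hL
    fin_cases i <;> fin_cases j <;> simp at hij hL ⊢ <;> first
      | exact h.aa _ (by assumption) _ (by assumption) (by (first | assumption | (apply Ne.symm; assumption) | exact Sit.ne (by assumption) _ (by assumption) _ (by assumption) | exact Sit.ne' (by assumption) _ (by assumption) _ (by assumption)))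
      | exact h.wa _ (by assumption) _ (by assumption)
          (by simp only [n1, n3, n4, Finset.mem_singleton, Finset.mem_insert]; (first | (first | assumption | (apply Ne.symm; assumption) | exact Sit.ne (by assumption) _ (by assumption) _ (by assumption) | exact Sit.ne' (by assumption) _ (by assumption) _ (by assumption)) | (refine not_or.2 ⟨?_, ?_⟩ <;> (first | assumption | (apply Ne.symm; assumption) | exact Sit.ne (by assumption) _ (by assumption) _ (by assumption) | exact Sit.ne' (by assumption) _ (by assumption) _ (by assumption)))))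
      | exact h.aw _ (by assumption) _ (by assumption)
          (by simp only [n1, n3, n4, Finset.mem_singleton, Finset.mem_insert]; (first | (first | assumption | (apply Ne.symm; assumption) | exact Sit.ne (by assumption) _ (by assumption) _ (by assumption) | exact Sit.ne' (by assumption) _ (by assumption) _ (by assumption)) | (refine not_or.2 ⟨?_, ?_⟩ <;> (first | assumption | (apply Ne.symm; assumption) | exact Sit.ne (by assumption) _ (by assumption) _ (by assumption) | exact Sit.ne' (by assumption) _ (by assumption) _ (by assumption)))))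
      | exact h.ww' (by assumption) (by assumption) (by (first | assumption | (apply Ne.symm; assumption) | exact Sit.ne (by assumption) _ (by assumption) _ (by assumption) | exact Sit.ne' (by assumption) _ (by assumption) _ (by assumption))) (by (first | assumption | (apply Ne.symm; assumption) | exact Sit.ne (by assumption) _ (by assumption) _ (by assumption) | exact Sit.ne' (by assumption) _ (by assumption) _ (by assumption))) (by (first | assumption | (apply Ne.symm; assumption) | exact Sit.ne (by assumption) _ (by assumption) _ (by assumption) | exact Sit.ne' (by assumption) _ (by assumption) _ (by assumption)))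

set_option maxHeartbeats 4000000 in
omit [DecidableRel G.Adj] in
lemma pat_c4k2 {a1 x y w3 w4 p q : V} (h : Sit G A W M w1 w2)
    (ma1 : a1 ∈ A) (mx : x ∈ A) (my : y ∈ A) (mp : p ∈ A) (mq : q ∈ A)
    (mw1 : w1 ∈ W) (mw3 : w3 ∈ W) (mw4 : w4 ∈ W)
    (n1 : M w1 = {a1}) (n3 : M w3 = {x, y}) (n4 : M w4 = {x, y})
    (hx : x ≠ a1) (hy : y ≠ a1) (hyx : y ≠ x) (hp1 : p ≠ a1) (hq1 : q ≠ a1) (hpx : p ≠ x)
    (hqx : q ≠ x) (hpy : p ≠ y) (hqy : q ≠ y) (hqp : q ≠ p)
    (h12 : w1 ≠ w2) (h31 : w3 ≠ w1) (h32 : w3 ≠ w2) (h41 : w4 ≠ w1) (h42 : w4 ≠ w2)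
    (h43 : w4 ≠ w3) :
    HasPat G 8 [(0, 1), (1, 2), (2, 3), (0, 3), (4, 5)] := by
  apply hasPat_mk ![x, w3, y, w4, w1, a1, p, q]
  · intro i j hij
    fin_cases i <;> fin_cases j <;> simp at hij ⊢ <;> (first | assumption | (apply Ne.symm; assumption) | exact Sit.ne (by assumption) _ (by assumption) _ (by assumption) | exact Sit.ne' (by assumption) _ (by assumption) _ (by assumption))
  · intro i j hij hL
    fin_cases i <;> fin_cases j <;> simp at hij hL ⊢ <;> first
      | exact h.aa _ (by assumption) _ (by assumption) (by (first | assumption | (apply Ne.symm; assumption) | exact Sit.ne (by assumption) _ (by assumption) _ (by assumption) | exact Sit.ne' (by assumption) _ (by assumption) _ (by assumption)))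
      | exact h.wa _ (by assumption) _ (by assumption)
          (by simp only [n1, n3, n4, Finset.mem_singleton, Finset.mem_insert]; (first | (first | assumption | (apply Ne.symm; assumption) | exact Sit.ne (by assumption) _ (by assumption) _ (by assumption) | exact Sit.ne' (by assumption) _ (by assumption) _ (by assumption)) | (refine not_or.2 ⟨?_, ?_⟩ <;> (first | assumption | (apply Ne.symm; assumption) | exact Sit.ne (by assumption) _ (by assumption) _ (by assumption) | exact Sit.ne' (by assumption) _ (by assumption) _ (by assumption)))))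
      | exact h.aw _ (by assumption) _ (by assumption)
          (by simp only [n1, n3, n4, Finset.mem_singleton, Finset.mem_insert]; (first | (first | assumption | (apply Ne.symm; assumption) | exact Sit.ne (by assumption) _ (by assumption) _ (by assumption) | exact Sit.ne' (by assumption) _ (by assumption) _ (by assumption)) | (refine not_or.2 ⟨?_, ?_⟩ <;> (first | assumption | (apply Ne.symm; assumption) | exact Sit.ne (by assumption) _ (by assumption) _ (by assumption) | exact Sit.ne' (by assumption) _ (by assumption) _ (by assumption)))))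
      | exact h.ww' (by assumption) (by assumption) (by (first | assumption | (apply Ne.symm; assumption) | exact Sit.ne (by assumption) _ (by assumption) _ (by assumption) | exact Sit.ne' (by assumption) _ (by assumption) _ (by assumption))) (by (first | assumption | (apply Ne.symm; assumption) | exact Sit.ne (by assumption) _ (by assumption) _ (by assumption) | exact Sit.ne' (by assumption) _ (by assumption) _ (by assumption))) (by (first | assumption | (apply Ne.symm; assumption) | exact Sit.ne (by assumption) _ (by assumption) _ (by assumption) | exact Sit.ne' (by assumption) _ (by assumption) _ (by assumption)))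

set_option maxHeartbeats 4000000 in
omit [DecidableRel G.Adj] in
lemma pat_p7k2 {a1 x y z u w3 w4 w5 : V} (h : Sit G A W M w1 w2)
    (ma1 : a1 ∈ A) (mx : x ∈ A) (my : y ∈ A) (mz : z ∈ A) (mu : u ∈ A)
    (mw1 : w1 ∈ W) (mw3 : w3 ∈ W) (mw4 : w4 ∈ W) (mw5 : w5 ∈ W)
    (n1 : M w1 = {a1}) (n3 : M w3 = {x, y}) (n4 : M w4 = {y, z}) (n5 : M w5 = {z, u})
    (hx : x ≠ a1) (hy : y ≠ a1) (hz : z ≠ a1) (hu : u ≠ a1) (hyx : y ≠ x) (hzx : z ≠ x)
    (hux : u ≠ x) (hzy : z ≠ y) (huy : u ≠ y) (huz : u ≠ z)
    (h12 : w1 ≠ w2) (h31 : w3 ≠ w1) (h32 : w3 ≠ w2) (h41 : w4 ≠ w1) (h42 : w4 ≠ w2)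
    (h43 : w4 ≠ w3) (h51 : w5 ≠ w1) (h52 : w5 ≠ w2) (h53 : w5 ≠ w3) (h54 : w5 ≠ w4) :
    HasPat G 9 [(0, 1), (1, 2), (2, 3), (3, 4), (4, 5), (5, 6), (7, 8)] := by
  apply hasPat_mk ![x, w3, y, w4, z, w5, u, w1, a1]
  · intro i j hij
    fin_cases i <;> fin_cases j <;> simp at hij ⊢ <;> (first | assumption | (apply Ne.symm; assumption) | exact Sit.ne (by assumption) _ (by assumption) _ (by assumption) | exact Sit.ne' (by assumption) _ (by assumption) _ (by assumption))
  · intro i j hij hL
    fin_cases i <;> fin_cases j <;> simp at hij hL ⊢ <;> first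
      | exact h.aa _ (by assumption) _ (by assumption) (by (first | assumption | (apply Ne.symm; assumption) | exact Sit.ne (by assumption) _ (by assumption) _ (by assumption) | exact Sit.ne' (by assumption) _ (by assumption) _ (by assumption)))
      | exact h.wa _ (by assumption) _ (by assumption)
          (by simp only [n1, n3, n4, n5, Finset.mem_singleton, Finset.mem_insert]; (first | (first | assumption | (apply Ne.symm; assumption) | exact Sit.ne (by assumption) _ (by assumption) _ (by assumption) | exact Sit.ne' (by assumption) _ (by assumption) _ (by assumption)) | (refine not_or.2 ⟨?_, ?_⟩ <;> (first | assumption | (apply Ne.symm; assumption) | exact Sit.ne (by assumption) _ (by assumption) _ (by assumption) | exact Sit.ne' (by assumption) _ (by assumption) _ (by assumption)))))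
      | exact h.aw _ (by assumption) _ (by assumption)
          (by simp only [n1, n3, n4, n5, Finset.mem_singleton, Finset.mem_insert]; (first | (first | assumption | (apply Ne.symm; assumption) | exact Sit.ne (by assumption) _ (by assumption) _ (by assumption) | exact Sit.ne' (by assumption) _ (by assumption) _ (by assumption)) | (refine not_or.2 ⟨?_, ?_⟩ <;> (first | assumption | (apply Ne.symm; assumption) | exact Sit.ne (by assumption) _ (by assumption) _ (by assumption) | exact Sit.ne' (by assumption) _ (by assumption) _ (by assumption)))))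
      | exact h.ww' (by assumption) (by assumption) (by (first | assumption | (apply Ne.symm; assumption) | exact Sit.ne (by assumption) _ (by assumption) _ (by assumption) | exact Sit.ne' (by assumption) _ (by assumption) _ (by assumption))) (by (first | assumption | (apply Ne.symm; assumption) | exact Sit.ne (by assumption) _ (by assumption) _ (by assumption) | exact Sit.ne' (by assumption) _ (by assumption) _ (by assumption))) (by (first | assumption | (apply Ne.symm; assumption) | exact Sit.ne (by assumption) _ (by assumption) _ (by assumption) | exact Sit.ne' (by assumption) _ (by assumption) _ (by assumption)))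

omit [DecidableEq V] in
lemma two_other [DecidableEq V] {s : Finset V} {a : V} (hs : s.card = 2) (ha : a ∈ s) :
    ∃ b, b ≠ a ∧ b ∈ s ∧ s = {a, b} := by
  obtain ⟨x, y, hxy, rfl⟩ := Finset.card_eq_two.1 hs
  rw [Finset.mem_insert, Finset.mem_singleton] at ha
  rcases ha with rfl | rfl
  · exact ⟨y, hxy.symm, by simp, rfl⟩
  · exact ⟨x, hxy, by simp, Finset.pair_comm _ _⟩

omit A W M w1 w2 in
lemma rest2 {A : Finset V} {a x y : V} (hA : A.card = 5) (ma : a ∈ A) (mx : x ∈ A) (my : y ∈ A)
    (hx : x ≠ a) (hy : y ≠ a) (hyx : y ≠ x) :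
    ∃ p q, q ≠ p ∧ (p ∈ A ∧ p ≠ a ∧ p ≠ x ∧ p ≠ y) ∧ (q ∈ A ∧ q ≠ a ∧ q ≠ x ∧ q ≠ y) := by
  have hc : (((A.erase a).erase x).erase y).card = 2 := by
    rw [Finset.card_erase_of_mem, Finset.card_erase_of_mem, Finset.card_erase_of_mem ma, hA]
    · exact Finset.mem_erase.2 ⟨hx, mx⟩
    · exact Finset.mem_erase.2 ⟨hyx, Finset.mem_erase.2 ⟨hy, my⟩⟩
  obtain ⟨p, q, hpq, hR⟩ := Finset.card_eq_two.1 hc
  have hp : p ∈ ((A.erase a).erase x).erase y := by rw [hR]; simp
  have hq : q ∈ ((A.erase a).erase x).erase y := by rw [hR]; simp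
  simp only [Finset.mem_erase] at hp hq
  exact ⟨p, q, hpq.symm, ⟨hp.2.2.2, hp.2.2.1, hp.2.1, hp.1⟩, hq.2.2.2, hq.2.2.1, hq.2.1, hq.1⟩

omit A W M w1 w2 in
lemma rest3 {A : Finset V} {a x : V} (hA : A.card = 5) (ma : a ∈ A) (mx : x ∈ A)
    (hx : x ≠ a) :
    ∃ p q r, q ≠ p ∧ r ≠ p ∧ r ≠ q ∧ (p ∈ A ∧ p ≠ a ∧ p ≠ x) ∧ (q ∈ A ∧ q ≠ a ∧ q ≠ x) ∧
      (r ∈ A ∧ r ≠ a ∧ r ≠ x) := by
  have hc : ((A.erase a).erase x).card = 3 := by
    rw [Finset.card_erase_of_mem, Finset.card_erase_of_mem ma, hA]
    exact Finset.mem_erase.2 ⟨hx, mx⟩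
  obtain ⟨p, q, r, hpq, hpr, hqr, hR⟩ := Finset.card_eq_three.1 hc
  have hp : p ∈ (A.erase a).erase x := by rw [hR]; simp
  have hq : q ∈ (A.erase a).erase x := by rw [hR]; simp
  have hr : r ∈ (A.erase a).erase x := by rw [hR]; simp
  simp only [Finset.mem_erase] at hp hq hr
  exact ⟨p, q, r, hpq.symm, hpr.symm, hqr.symm, ⟨hp.2.2, hp.2.1, hp.1⟩,
    ⟨hq.2.2, hq.2.1, hq.1⟩, hr.2.2, hr.2.1, hr.1⟩

omit [DecidableRel G.Adj] in
lemma eleven_comb (hG : Good G) (h : Sit G A W M w1 w2) (N : V → Finset V) (hA : A.card = 5)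
    (hW : W.card = 6) (mw1 : w1 ∈ W) (mw2 : w2 ∈ W) (h12 : w1 ≠ w2)
    (hM1 : (M w1).card = 1) (hM2 : (M w2).card = 1)
    (hM : ∀ w ∈ W, w ≠ w1 → w ≠ w2 → (M w).card = 2)
    (hMA : ∀ w ∈ W, M w ⊆ A) (hNW : ∀ a ∈ A, N a ⊆ W) (hN : ∀ a ∈ A, (N a).card = 2)
    (dual : ∀ a ∈ A, ∀ w ∈ W, (a ∈ M w ↔ w ∈ N a)) : False := by
  obtain ⟨a1, ha1⟩ := Finset.card_eq_one.1 hM1
  have ma1 : a1 ∈ A := hMA w1 mw1 (by rw [ha1]; exact Finset.mem_singleton_self _)
  have hw1N : w1 ∈ N a1 := (dual a1 ma1 w1 mw1).1 (by rw [ha1]; exact Finset.mem_singleton_self _)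
  obtain ⟨w3, h31, hw3N, hN1⟩ := two_other (hN a1 ma1) hw1N
  have mw3 : w3 ∈ W := hNW a1 ma1 hw3N
  by_cases h32 : w3 = w2
  · -- Case 2: `w1`, `w2` both miss `a1`
    subst h32
    have ha2 : M w3 = {a1} := exists_other hM2 ((dual a1 ma1 w3 mw2).2 hw3N)
    have hmiss : ∀ {w a : V}, w ∈ W → a ∈ M w → w ≠ w1 → w ≠ w3 → a ≠ a1 := by
      rintro w a hw ha hn1 hn3 rfl
      have := (dual a ma1 w hw).1 ha
      rw [hN1, Finset.mem_insert, Finset.mem_singleton] at this
      rcases this with e | e
      · exact hn1 e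
      · exact hn3 e
    have hnot : ∀ {w a : V}, a ∈ A → w ∈ N a → a ≠ a1 → w ≠ w1 ∧ w ≠ w3 := by
      rintro w a ha hw hne
      constructor
      · rintro rfl
        have := (dual a ha w mw1).2 hw
        rw [ha1, Finset.mem_singleton] at this
        exact hne this
      · rintro rfl
        have := (dual a ha w mw2).2 hw
        rw [ha2, Finset.mem_singleton] at this
        exact hne this
    obtain ⟨w4, mw4, h4⟩ := pick (S := W) (T := {w1, w3})
      (by rw [hW]; exact lt_of_le_of_lt Finset.card_le_two (by norm_num))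
    simp only [Finset.mem_insert, Finset.mem_singleton, not_or] at h4
    obtain ⟨h41, h43⟩ := h4
    -- `M w4 = {x, y}`
    obtain ⟨x, y, hxy, hMw4⟩ := Finset.card_eq_two.1 (hM w4 mw4 h41 h43)
    have hx4 : x ∈ M w4 := by rw [hMw4]; simp
    have hy4 : y ∈ M w4 := by rw [hMw4]; simp
    have mx := hMA w4 mw4 hx4
    have my := hMA w4 mw4 hy4
    have hx1 := hmiss mw4 hx4 h41 h43
    have hy1 := hmiss mw4 hy4 h41 h43
    obtain ⟨w5, h54, hw5N, hNy⟩ := two_other (hN y my) ((dual y my w4 mw4).1 hy4)
    have mw5 := hNW y my hw5N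
    obtain ⟨h51, h53⟩ := hnot my hw5N hy1
    obtain ⟨z, hzy, hz5, hMw5⟩ := two_other (hM w5 mw5 h51 h53) ((dual y my w5 mw5).2 hw5N)
    have mz := hMA w5 mw5 hz5
    have hz1 := hmiss mw5 hz5 h51 h53
    by_cases hzx : z = x
    · subst hzx
      obtain ⟨p, q, hqp, ⟨mp, hp1, hpx, hpy⟩, mq, hq1, hqx, hqy⟩ :=
        rest2 hA ma1 mx my hx1 hy1 hxy.symm
      exact hG.c4k2 (pat_c4k2 h ma1 mx my mp mq mw1 mw4 mw5 ha1 hMw4
        (by rw [hMw5, Finset.pair_comm]) hx1 hy1 hxy.symm hp1 hq1 hpx hqx
        hpy hqy hqp h12 h41 h43 h51 h53 h54)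
    · obtain ⟨w6, h65, hw6N, hNz⟩ := two_other (hN z mz) ((dual z mz w5 mw5).1 hz5)
      have mw6 := hNW z mz hw6N
      obtain ⟨h61, h63⟩ := hnot mz hw6N hz1
      have h64 : w6 ≠ w4 := by
        rintro rfl
        have := (dual z mz w6 mw6).2 hw6N
        rw [hMw4, Finset.mem_insert, Finset.mem_singleton] at this
        rcases this with e | e
        · exact hzx e
        · exact hzy e
      obtain ⟨u, huz, hu6, hMw6⟩ := two_other (hM w6 mw6 h61 h63) ((dual z mz w6 mw6).2 hw6N)
      have mu := hMA w6 mw6 hu6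
      have hu1 := hmiss mw6 hu6 h61 h63
      have huy : u ≠ y := by
        rintro rfl
        have := (dual u mu w6 mw6).1 hu6
        rw [hNy, Finset.mem_insert, Finset.mem_singleton] at this
        rcases this with e | e
        · exact h64 e
        · exact h65 e
      have hux : u ≠ x := by
        rintro rfl
        -- the fifth vertex of `A`
        obtain ⟨v, mv, hv⟩ := pick (S := A) (T := {a1, u, y, z})
          (by rw [hA]; exact lt_of_le_of_lt Finset.card_le_four (by norm_num))
        simp only [Finset.mem_insert, Finset.mem_singleton, not_or] at hv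
        obtain ⟨hv1, hvu, hvy, hvz⟩ := hv
        have hsub : N v ⊆ ((((W.erase w1).erase w3).erase w4).erase w5).erase w6 := by
          intro w hw
          have hwW := hNW v mv hw
          have hvM := (dual v mv w hwW).2 hw
          obtain ⟨e1, e3⟩ := hnot mv hw hv1
          simp only [Finset.mem_erase]
          refine ⟨?_, ?_, ?_, e3, e1, hwW⟩
          · rintro rfl
            rw [hMw6, Finset.mem_insert, Finset.mem_singleton] at hvM
            exact hvM.elim hvz hvu
          · rintro rfl
            rw [hMw5, Finset.mem_insert, Finset.mem_singleton] at hvM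
            exact hvM.elim hvy hvz
          · rintro rfl
            rw [hMw4, Finset.mem_insert, Finset.mem_singleton] at hvM
            exact hvM.elim hvu hvy
        have hc := Finset.card_le_card hsub
        rw [hN v mv, Finset.card_erase_of_mem, Finset.card_erase_of_mem,
          Finset.card_erase_of_mem, Finset.card_erase_of_mem, Finset.card_erase_of_mem mw1, hW]
          at hc
        · omega
        · exact Finset.mem_erase.2 ⟨h12.symm, mw3⟩
        · simp only [Finset.mem_erase]; exact ⟨h43, h41, mw4⟩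
        · simp only [Finset.mem_erase]; exact ⟨h54, h53, h51, mw5⟩
        · simp only [Finset.mem_erase]; exact ⟨h65, h64, h63, h61, mw6⟩
      exact hG.p7k2 (pat_p7k2 h ma1 mx my mz mu mw1 mw4 mw5 mw6 ha1 hMw4 hMw5 hMw6 hx1 hy1 hz1
        hu1 hxy.symm hzx hux hzy huy huz h12 h41 h43 h51 h53 h54 h61 h63 h64 h65)
  · -- Case 1: `w2` does not miss `a1`
    have ha13 : a1 ∈ M w3 := (dual a1 ma1 w3 mw3).2 hw3N
    obtain ⟨x, hx1, hx3, hMw3⟩ := two_other (hM w3 mw3 h31 h32) ha13
    have mx := hMA w3 mw3 hx3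
    obtain ⟨w4, h43, hw4N, hNx⟩ := two_other (hN x mx) ((dual x mx w3 mw3).1 hx3)
    have mw4 := hNW x mx hw4N
    have hxw4 : x ∈ M w4 := (dual x mx w4 mw4).2 hw4N
    have h41 : w4 ≠ w1 := by
      rintro rfl
      rw [ha1, Finset.mem_singleton] at hxw4
      exact hx1 hxw4
    by_cases h42 : w4 = w2
    · subst h42
      have hMw4 : M w4 = {x} := exists_other hM2 hxw4
      obtain ⟨p, q, r, hqp, hrp, hrq, ⟨mp, hp1, hpx⟩, ⟨mq, hq1, hqx⟩, mr, hr1, hrx⟩ :=
        rest3 hA ma1 mx hx1
      exact hG.c5 (pat_c5 h ma1 mx mp mq mr mw1 mw2 mw3 ha1 hMw4 hMw3 hx1 hp1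
        hq1 hr1 hpx hqx hrx hqp hrp hrq h12.symm h31 h32)
    · obtain ⟨y, hyx, hy4, hMw4⟩ := two_other (hM w4 mw4 h41 h42) hxw4
      have my := hMA w4 mw4 hy4
      have hy1 : y ≠ a1 := by
        rintro rfl
        have := (dual y my w4 mw4).1 hy4
        rw [hN1, Finset.mem_insert, Finset.mem_singleton] at this
        exact this.elim h41 h43
      obtain ⟨p, q, hqp, ⟨mp, hp1, hpx, hpy⟩, mq, hq1, hqx, hqy⟩ :=
        rest2 hA ma1 mx my hx1 hy1 hyx
      exact hG.p6 (pat_p6 h ma1 mx my mp mq mw1 mw3 mw4 ha1 hMw3 hMw4 hx1 hy1 hyx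
        hp1 hq1 hpx hqx hpy hqy hqp h12 h31 h32 h41 h42 h43)

omit A W M w1 w2 in
lemma card_nn_add {A S : Finset V} (h : A ⊆ S) (v : V) :
    (nn G S v).card = (nn G A v).card + (nn G (S \ A) v).card := by
  have e : nn G S v = nn G A v ∪ nn G (S \ A) v := by
    ext y
    simp only [nn, Finset.mem_filter, Finset.mem_union, Finset.mem_sdiff]
    constructor
    · rintro ⟨hy, hr⟩
      by_cases hyA : y ∈ A
      · exact Or.inl ⟨hyA, hr⟩
      · exact Or.inr ⟨⟨hy, hyA⟩, hr⟩
    · rintro (⟨hy, hr⟩ | ⟨⟨hy, _⟩, hr⟩)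
      · exact ⟨h hy, hr⟩
      · exact ⟨hy, hr⟩
  rw [e, Finset.card_union_of_disjoint]
  rw [Finset.disjoint_left]
  intro y hy hy'
  simp only [nn, Finset.mem_filter, Finset.mem_sdiff] at hy hy'
  exact hy'.1.2 hy.1

/-- A good graph on 11 vertices with 44 edges contains no `K₅`. -/
lemma eleven (hG : Good G) {S A : Finset V} (hS : S.card = 11) (hD : DS G S = 88)
    (hdg : ∀ v ∈ S, dg G S v = 8) (hAS : A ⊆ S) (hA : A.card = 5)
    (hK : ∀ a ∈ A, ∀ b ∈ A, a ≠ b → G.Adj a b) : False := by
  have hnS : ∀ v ∈ S, (nn G S v).card = 2 := fun v hv => by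
    have := card_nn G hv
    have := hdg v hv
    omega
  have hnA : ∀ a ∈ A, nn G A a = ∅ := by
    intro a ha
    rw [Finset.eq_empty_iff_forall_notMem]
    intro y hy
    rw [nn, Finset.mem_filter] at hy
    exact hy.2.2 (hK a ha y hy.1 hy.2.1.symm)
  have hWc : (S \ A).card = 6 := by
    rw [Finset.card_sdiff_of_subset hAS, hS, hA]
  have hDA : DS G A = 20 := by
    have := sum_nn G A
    rw [hA, Finset.sum_eq_zero fun v hv => by rw [hnA v hv, Finset.card_empty]] at this
    omega
  have hDW : DS G (S \ A) = 28 := by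
    have h1 := DS_sdiff G hAS
    rw [Finset.sum_congr rfl fun a ha => hdg a (hAS ha), Finset.sum_const, hA, hD, hDA] at h1
    simp at h1
    omega
  have hsum : ∑ w ∈ S \ A, (nn G (S \ A) w).card = 2 := by
    have := sum_nn G (S \ A)
    rw [hWc, hDW] at this
    omega
  obtain ⟨w1, mw1, hc1⟩ : ∃ v ∈ S \ A, (nn G (S \ A) v).card ≠ 0 := by
    by_contra hcon
    push Not at hcon
    rw [Finset.sum_eq_zero hcon] at hsum
    omega
  obtain ⟨w2, hw2⟩ := Finset.card_pos.1 (Nat.pos_of_ne_zero hc1)
  have mw2 : w2 ∈ S \ A := nn_mem hw2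
  have h21 : w2 ≠ w1 := nn_ne hw2
  have hw1 := nn_symm mw1 hw2
  have hc2 := Finset.card_pos.2 ⟨w1, hw1⟩
  have e1 := Finset.add_sum_erase (S \ A) (fun v => (nn G (S \ A) v).card) mw1
  have e2 := Finset.add_sum_erase ((S \ A).erase w1) (fun v => (nn G (S \ A) v).card)
    (Finset.mem_erase.2 ⟨h21, mw2⟩)
  have c1 : (nn G (S \ A) w1).card = 1 := by omega
  have c2 : (nn G (S \ A) w2).card = 1 := by omega
  have c0 : ∑ v ∈ ((S \ A).erase w1).erase w2, (nn G (S \ A) v).card = 0 := by omega
  rw [Finset.sum_eq_zero_iff] at c0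
  have c0' : ∀ w ∈ S \ A, w ≠ w1 → w ≠ w2 → (nn G (S \ A) w).card = 0 := fun w hw h1 h2 =>
    c0 w (Finset.mem_erase.2 ⟨h2, Finset.mem_erase.2 ⟨h1, hw⟩⟩)
  have hWS : ∀ w ∈ S \ A, w ∈ S := fun w hw => (Finset.mem_sdiff.1 hw).1
  have hWA : ∀ w ∈ S \ A, w ∉ A := fun w hw => (Finset.mem_sdiff.1 hw).2
  have hsit : Sit G A (S \ A) (fun w => nn G A w) w1 w2 := by
    refine ⟨hK, ?_, ?_, ?_, ?_, ?_⟩
    · intro w hw a ha hn
      exact adj_of_notMem_nn ha (fun e => hWA w hw (e ▸ ha)) hn
    · intro a ha w hw hn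
      exact (adj_of_notMem_nn ha (fun e : w = a => hWA w hw (by rw [e]; exact ha)) hn).symm
    · intro w hw w' hw' hne hn1 hn2
      by_cases hh1 : w = w1
      · subst hh1
        refine adj_of_notMem_nn hw' hne fun hm => hn1 ⟨rfl, ?_⟩
        rw [exists_other c1 hw2, Finset.mem_singleton] at hm
        exact hm
      · by_cases hh2 : w = w2
        · subst hh2
          refine adj_of_notMem_nn hw' hne fun hm => hn2 ⟨rfl, ?_⟩
          rw [exists_other c2 hw1, Finset.mem_singleton] at hm
          exact hm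
        · refine adj_of_notMem_nn hw' hne fun hm => ?_
          rw [Finset.card_eq_zero.1 (c0' w hw hh1 hh2)] at hm
          exact absurd hm (Finset.notMem_empty _)
    · intro a ha w hw e
      exact hWA w hw (e ▸ ha)
    · intro a ha w hw e
      exact hWA w hw (e ▸ ha)
  refine eleven_comb hG hsit (fun a => nn G (S \ A) a) hA hWc mw1 mw2 h21.symm ?_ ?_ ?_ ?_ ?_ ?_ ?_
  · have := card_nn_add (G := G) hAS w1
    have := hnS w1 (hWS w1 mw1)
    omega
  · have := card_nn_add (G := G) hAS w2
    have := hnS w2 (hWS w2 mw2)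
    omega
  · intro w hw h1 h2
    have := card_nn_add (G := G) hAS w
    have := hnS w (hWS w hw)
    have := c0' w hw h1 h2
    omega
  · intro w hw
    exact Finset.filter_subset _ _
  · intro a ha
    exact Finset.filter_subset _ _
  · intro a ha
    have := card_nn_add (G := G) hAS a
    have := hnS a (hAS ha)
    rw [hnA a ha, Finset.card_empty] at *
    omega
  · intro a ha w hw
    simp only [nn, Finset.mem_filter]
    constructor
    · rintro ⟨_, hne, hn⟩
      exact ⟨hw, hne.symm, fun h => hn h.symm⟩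
    · rintro ⟨_, hne, hn⟩
      exact ⟨ha, hne.symm, fun h => hn h.symm⟩

end H20
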