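import Pool.Agent.H20.Graph61dEleven

/-!
# Part G2 of project MP_61d55c_co: main bound, assuming Theorem A (helper98)
-/

namespace H20
open Finset

/-- Theorem A (part G1), as a proposition about the type `V`. -/
def ThA (V : Type*) [DecidableEq V] : Prop :=
  ∀ (G : SimpleGraph V) [DecidableRel G.Adj], ¬ HasPat G 5 [] →
    ¬ HasPat G 8 [(0, 1), (2, 3), (4, 5), (6, 7)] →
    ¬ HasPat G 9 [(0, 1), (2, 3), (4, 6), (4, 7), (4, 8), (5, 7), (5, 8), (6, 8)] →
    ∀ S : Finset V, DS G S ≤ 2 * ((S.card - 1) * (S.card + 2) / 3)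

variable {V : Type*} [DecidableEq V] {G : SimpleGraph V} [DecidableRel G.Adj]

lemma HasPat.mono {G G' : SimpleGraph V} (h : ∀ u v, G'.Adj u v → G.Adj u v) {k : ℕ}
    {L : List (Fin k × Fin k)} (hp : HasPat G' k L) : HasPat G k L := by
  obtain ⟨f, hf, h2⟩ := hp
  exact ⟨f, hf, fun i j hij hL => h _ _ (h2 i j hij hL)⟩

/-- If `S` contains no `K₅`, Theorem A applies to `S`. -/
lemma noK5_bound (hA : ThA V) (hG : Good G) {S : Finset V}
    (hK : ∀ A ⊆ S, A.card = 5 → ¬ ∀ a ∈ A, ∀ b ∈ A, a ≠ b → G.Adj a b) :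
    DS G S ≤ 2 * ((S.card - 1) * (S.card + 2) / 3) := by
  let G' : SimpleGraph V :=
    { Adj := fun u v => G.Adj u v ∧ u ∈ S ∧ v ∈ S
      symm := ⟨fun u v h => ⟨h.1.symm, h.2.2, h.2.1⟩⟩
      loopless := ⟨fun u h => G.irrefl h.1⟩ }
  haveI : DecidableRel G'.Adj := fun u v => by
    change Decidable (G.Adj u v ∧ u ∈ S ∧ v ∈ S)
    infer_instance
  have hle : ∀ u v, G'.Adj u v → G.Adj u v := fun u v h => h.1
  have hDS : DS G' S = DS G S := by
    unfold DS
    refine Finset.sum_congr rfl fun v hv => ?_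
    congr 1
    ext w
    simp only [Finset.mem_filter]
    constructor
    · rintro ⟨hw, h⟩
      exact ⟨hw, h.1⟩
    · rintro ⟨hw, h⟩
      exact ⟨hw, h, hv, hw⟩
  rw [← hDS]
  refine hA G' ?_ (fun h => hG.k2222 (h.mono hle)) (fun h => hG.p5k22 (h.mono hle)) S
  rintro ⟨f, hf, h⟩
  have hadj : ∀ i j, i ≠ j → G'.Adj (f i) (f j) := by
    intro i j hij
    rcases lt_or_gt_of_ne hij with h' | h'
    · exact h i j h' (by simp)
    · exact (h j i h' (by simp)).symm
  refine hK (Finset.univ.image f) ?_ ?_ ?_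
  · intro x hx
    obtain ⟨i, -, rfl⟩ := Finset.mem_image.1 hx
    obtain ⟨j, hj⟩ : ∃ j : Fin 5, i ≠ j := ⟨i + 1, by fin_cases i <;> decide⟩
    exact (hadj i j hj).2.1
  · rw [Finset.card_image_of_injective _ hf]
    simp
  · intro a ha b hb hab
    obtain ⟨i, -, rfl⟩ := Finset.mem_image.1 ha
    obtain ⟨j, -, rfl⟩ := Finset.mem_image.1 hb
    exact (hadj i j (fun e => hab (by rw [e]))).1

lemma bound9 (hG : Good G) {S : Finset V} (hS : S.card = 9) : DS G S ≤ 58 := by
  have h8 : ∀ v ∈ S, DS G (S.erase v) ≤ 46 := fun v hv =>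
    bound8 hG (by rw [Finset.card_erase_of_mem hv, hS])
  have h1 := avg G h8
  rw [hS] at h1
  obtain ⟨m, hm⟩ := DS_even G S
  omega

lemma bound10 (hG : Good G) {S : Finset V} (hS : S.card = 10) : DS G S ≤ 72 := by
  have h9 : ∀ v ∈ S, DS G (S.erase v) ≤ 58 := fun v hv =>
    bound9 hG (by rw [Finset.card_erase_of_mem hv, hS])
  have h1 := avg G h9
  rw [hS] at h1
  obtain ⟨m, hm⟩ := DS_even G S
  omega

lemma bound11 (hA : ThA V) (hG : Good G) {S : Finset V} (hS : S.card = 11) :
    DS G S ≤ 86 := by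
  by_contra hlt
  have h10 : ∀ v ∈ S, DS G (S.erase v) ≤ 72 := fun v hv =>
    bound10 hG (by rw [Finset.card_erase_of_mem hv, hS])
  have h1 := avg G h10
  rw [hS] at h1
  obtain ⟨m, hm⟩ := DS_even G S
  have hD : DS G S = 88 := by omega
  have hd := dg_eq_of G h10 (k := 8) (by omega) (by rw [hS, hD])
  by_cases hK : ∃ A ⊆ S, A.card = 5 ∧ ∀ a ∈ A, ∀ b ∈ A, a ≠ b → G.Adj a b
  · obtain ⟨A, hAS, hc, hK⟩ := hK
    exact eleven hG hS hD hd hAS hc hK
  · push Not at hK
    have := noK5_bound hA hG (S := S) (fun A hAS hc h => by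
      obtain ⟨a, ha, b, hb, hab, hn⟩ := hK A hAS hc
      exact hn (h a ha b hb hab))
    rw [hS] at this
    omega

/-- The value `(n-1)(n+2)/3` for `n = 3m+1, 3m+2, 3m+3`. -/
lemma F_one (m : ℕ) : (3 * m + 1 - 1) * (3 * m + 1 + 2) / 3 = 3 * (m * m) + 3 * m := by
  have : (3 * m + 1 - 1) * (3 * m + 1 + 2) = 3 * (3 * (m * m) + 3 * m) := by
    rw [Nat.add_sub_cancel]; ring
  rw [this]; simp

lemma F_two (m : ℕ) : (3 * m + 2 - 1) * (3 * m + 2 + 2) / 3 = 3 * (m * m) + 5 * m + 1 := by
  have : (3 * m + 2 - 1) * (3 * m + 2 + 2) = 3 * (3 * (m * m) + 5 * m + 1) + 1 := by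
    have e : 3 * m + 2 - 1 = 3 * m + 1 := by omega
    rw [e]; ring
  rw [this]; omega

lemma F_three (m : ℕ) : (3 * m + 3 - 1) * (3 * m + 3 + 2) / 3 = 3 * (m * m) + 7 * m + 3 := by
  have : (3 * m + 3 - 1) * (3 * m + 3 + 2) = 3 * (3 * (m * m) + 7 * m + 3) + 1 := by
    have e : 3 * m + 3 - 1 = 3 * m + 2 := by omega
    rw [e]; ring
  rw [this]; omega

/-- The main bound, by strong induction. -/
theorem main_bound (hA : ThA V) (hG : Good G) :
    ∀ n : ℕ, 4 ≤ n → ∀ S : Finset V, S.card = n → DS G S ≤ 2 * e0val n := by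
  intro n
  induction n using Nat.strong_induction_on with
  | _ n ih =>
    intro hn S hS
    rcases Nat.lt_or_ge n 12 with hlt | hge
    · have hle := DS_le G S
      interval_cases n
      · rw [hS] at hle; simp [e0val]; omega
      · rw [hS] at hle; simp [e0val]; omega
      · have := bound6 hG hS; simp [e0val]; omega
      · have := bound7 hG hS; simp [e0val]; omega
      · have := bound8 hG hS; simp [e0val]; omega
      · have := bound9 hG hS; simp [e0val]; omega
      · have := bound10 hG hS; simp [e0val]; omega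
      · have := bound11 hA hG hS; simp [e0val]; omega
    · have e0 : ∀ k, 7 ≤ k → e0val k = (k - 1) * (k + 2) / 3 := by
        intro k hk
        unfold e0val
        rw [if_neg (by omega), if_neg (by omega)]
      have hprev : ∀ v ∈ S, DS G (S.erase v) ≤ 2 * e0val (n - 1) := fun v hv =>
        ih (n - 1) (by omega) (by omega) _ (by rw [Finset.card_erase_of_mem hv, hS])
      have h1 := avg G hprev
      rw [hS] at h1
      obtain ⟨c, hc⟩ := DS_even G S
      obtain ⟨m, hm | hm | hm⟩ : ∃ m, n = 3 * m + 1 ∨ n = 3 * m + 2 ∨ n = 3 * m + 3 :=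
        ⟨(n - 1) / 3, by omega⟩
      · -- `n = 3m+1`
        subst hm
        obtain ⟨k, rfl⟩ : ∃ k, m = k + 1 := ⟨m - 1, by omega⟩
        have e1 : 3 * (k + 1) + 1 - 1 = 3 * k + 3 := by omega
        rw [e1, e0 _ (by omega), F_three] at h1
        rw [e0 _ (by omega), F_one]
        by_contra hcon
        push Not at hcon
        nlinarith
      · -- `n = 3m+2`
        subst hm
        have e1 : 3 * m + 2 - 1 = 3 * m + 1 := by omega
        rw [e1] at hprev
        rw [e1, e0 _ (by omega), F_one] at h1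
        rw [e0 _ (by omega), F_two]
        by_contra hcon
        push Not at hcon
        have hD : DS G S = 6 * (m * m) + 10 * m + 4 := by
          have hm3 : 3 ≤ m := by omega
          have : DS G S < 6 * (m * m) + 10 * m + 5 := by
            by_contra hh
            push Not at hh
            nlinarith
          omega
        rw [e0 _ (by omega), F_one] at hprev
        have hd := dg_eq_of G hprev (k := 2 * m + 2) (by rw [hD]; ring) (by rw [hS, hD]; ring)
        by_cases hK : ∃ A ⊆ S, A.card = 5 ∧ ∀ a ∈ A, ∀ b ∈ A, a ≠ b → G.Adj a b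
        · obtain ⟨A, hAS, hcA, hK⟩ := hK
          have hnA : ∀ a ∈ A, nn G A a = ∅ := by
            intro a ha
            rw [Finset.eq_empty_iff_forall_notMem]
            intro y hy
            rw [nn, Finset.mem_filter] at hy
            exact hy.2.2 (hK a ha y hy.1 hy.2.1.symm)
          have hDA : DS G A = 20 := by
            have := sum_nn G A
            rw [hcA, Finset.sum_eq_zero fun v hv => by rw [hnA v hv, Finset.card_empty]] at this
            omega
          have hsd := DS_sdiff G hAS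
          rw [Finset.sum_congr rfl fun a ha => hd a (hAS ha), Finset.sum_const, hcA, hD, hDA,
            smul_eq_mul] at hsd
          have hcW : (S \ A).card = 3 * m + 2 - 5 := by
            rw [Finset.card_sdiff_of_subset hAS, hS, hcA]
          have hW := ih (3 * m + 2 - 5) (by omega) (by omega) (S \ A) hcW
          obtain ⟨k, rfl⟩ : ∃ k, m = k + 2 := ⟨m - 2, by omega⟩
          have e5 : 3 * (k + 2) + 2 - 5 = 3 * k + 3 := by omega
          rw [e5, e0 _ (by omega), F_three] at hW
          nlinarith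
        · push Not at hK
          have := noK5_bound hA hG (S := S) (fun A hAS hc h => by
            obtain ⟨a, ha, b, hb, hab, hn⟩ := hK A hAS hc
            exact hn (h a ha b hb hab))
          rw [hS, F_two] at this
          omega
      · -- `n = 3m+3`
        subst hm
        have e1 : 3 * m + 3 - 1 = 3 * m + 2 := by omega
        rw [e1, e0 _ (by omega), F_two] at h1
        rw [e0 _ (by omega), F_three]
        by_contra hcon
        push Not at hcon
        have h2 : 2 * (3 * (m * m) + 7 * m + 3) + 2 ≤ DS G S := by omega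
        nlinarith

/-- The main bound for the number of edges, assuming Theorem A. -/
theorem Good.card_edges_le_of_thA {V : Type*} [Fintype V] [DecidableEq V] (hA : ThA V)
    (G : SimpleGraph V) [DecidableRel G.Adj] (h : Good G) (hn : 4 ≤ Fintype.card V) :
    G.edgeFinset.card ≤ e0val (Fintype.card V) := by
  have h1 := main_bound hA h (Fintype.card V) hn Finset.univ Finset.card_univ
  have h2 := G.sum_degrees_eq_twice_card_edges
  have h3 : DS G Finset.univ = ∑ v, G.degree v := by
    unfold DS
    refine Finset.sum_congr rfl fun v _ => ?_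
    rw [← G.card_neighborFinset_eq_degree, SimpleGraph.neighborFinset_eq_filter]
  omega

end H20
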