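import Pool.Agent.H20.Graph61dBase

/-!
# Part G2 of project MP_61d55c_co: the bound for good graphs with 6, 7, 8 vertices (helper98)
-/

namespace H20
open Finset

variable {V : Type*} [DecidableEq V] (G : SimpleGraph V) [DecidableRel G.Adj]

lemma hasPat_mk {V : Type*} {G : SimpleGraph V} {k : ℕ} {L : List (Fin k × Fin k)} (f : Fin k → V)
    (h1 : ∀ i j, i < j → f i ≠ f j)
    (h2 : ∀ i j, i < j → (i, j) ∉ L → G.Adj (f i) (f j)) : HasPat G k L := by
  refine ⟨f, fun i j hij => ?_, h2⟩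
  by_contra hne
  rcases lt_or_gt_of_ne hne with h | h
  · exact h1 i j h hij
  · exact h1 j i h hij.symm

lemma hasPat_clique {V : Type*} {G : SimpleGraph V} {k : ℕ} {L : List (Fin k × Fin k)}
    {A : Finset V} (hk : A.card = k)
    (hA : ∀ a ∈ A, ∀ b ∈ A, a ≠ b → G.Adj a b) : HasPat G k L := by
  let e := (A.equivFinOfCardEq hk).symm
  refine ⟨fun i => (e i : V), fun i j hij => ?_, fun i j hij _ => ?_⟩
  · exact e.injective (Subtype.ext hij)
  · refine hA _ (e i).2 _ (e j).2 fun h => ?_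
    exact hij.ne (e.injective (Subtype.ext h))

variable {G}

lemma adj_of_notMem_nn {S : Finset V} {x y : V} (hy : y ∈ S) (hne : x ≠ y)
    (h : y ∉ nn G S x) : G.Adj x y := by
  by_contra hn
  exact h (Finset.mem_filter.2 ⟨hy, hne.symm, hn⟩)

lemma nn_symm {S : Finset V} {x y : V} (hx : x ∈ S) (h : y ∈ nn G S x) : x ∈ nn G S y := by
  rw [nn, Finset.mem_filter] at h ⊢
  exact ⟨hx, h.2.1.symm, fun h' => h.2.2 h'.symm⟩

lemma nn_mem {S : Finset V} {x y : V} (h : y ∈ nn G S x) : y ∈ S := (Finset.mem_filter.1 h).1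

lemma nn_ne {S : Finset V} {x y : V} (h : y ∈ nn G S x) : y ≠ x := (Finset.mem_filter.1 h).2.1

omit [DecidableEq V] [DecidableRel G.Adj] in
lemma pat_k2222 {v1 v2 v3 v4 v5 v6 v7 v8 : V} {S : Finset V} {nn : V → Finset V}
    (hadj : ∀ x ∈ S, ∀ y ∈ S, x ≠ y → y ∉ nn x → G.Adj x y)
    (m1 : v1 ∈ S) (m2 : v2 ∈ S) (m3 : v3 ∈ S) (m4 : v4 ∈ S) (m5 : v5 ∈ S) (m6 : v6 ∈ S)
    (m7 : v7 ∈ S) (m8 : v8 ∈ S)
    (n1 : nn v1 = {v2}) (n2 : nn v2 = {v1}) (n3 : nn v3 = {v4}) (n4 : nn v4 = {v3})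
    (n5 : nn v5 = {v6}) (n6 : nn v6 = {v5})
    (h21 : v2 ≠ v1) (h31 : v3 ≠ v1) (h41 : v4 ≠ v1) (h51 : v5 ≠ v1) (h61 : v6 ≠ v1)
    (h71 : v7 ≠ v1) (h81 : v8 ≠ v1) (h32 : v3 ≠ v2) (h42 : v4 ≠ v2) (h52 : v5 ≠ v2)
    (h62 : v6 ≠ v2) (h72 : v7 ≠ v2) (h82 : v8 ≠ v2) (h43 : v4 ≠ v3) (h53 : v5 ≠ v3)
    (h63 : v6 ≠ v3) (h73 : v7 ≠ v3) (h83 : v8 ≠ v3) (h54 : v5 ≠ v4) (h64 : v6 ≠ v4)
    (h74 : v7 ≠ v4) (h84 : v8 ≠ v4) (h65 : v6 ≠ v5) (h75 : v7 ≠ v5) (h85 : v8 ≠ v5)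
    (h76 : v7 ≠ v6) (h86 : v8 ≠ v6) (h87 : v8 ≠ v7) :
    HasPat G 8 [(0, 1), (2, 3), (4, 5), (6, 7)] := by
  apply hasPat_mk ![v1, v2, v3, v4, v5, v6, v7, v8]
  · intro i j hij
    fin_cases i <;> fin_cases j <;> simp at hij ⊢ <;> (first | assumption | (apply Ne.symm; assumption) | (refine not_or.2 ⟨?_, ?_⟩ <;> (first | assumption | (apply Ne.symm; assumption))))
  · intro i j hij hL
    fin_cases i <;> fin_cases j <;> simp at hij hL ⊢ <;>
      (refine hadj _ (by assumption) _ (by assumption) (by (first | assumption | (apply Ne.symm; assumption) | (refine not_or.2 ⟨?_, ?_⟩ <;> (first | assumption | (apply Ne.symm; assumption)))))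
        (by simp only [n1, n2, n3, n4, n5, n6, Finset.mem_singleton]; (first | assumption | (apply Ne.symm; assumption) | (refine not_or.2 ⟨?_, ?_⟩ <;> (first | assumption | (apply Ne.symm; assumption))))))

omit [DecidableEq V] [DecidableRel G.Adj] in
lemma pat_t57 {v1 v2 v3 v4 v5 v6 v7 : V} {S : Finset V} {nn : V → Finset V}
    (hadj : ∀ x ∈ S, ∀ y ∈ S, x ≠ y → y ∉ nn x → G.Adj x y)
    (m1 : v1 ∈ S) (m2 : v2 ∈ S) (m3 : v3 ∈ S) (m4 : v4 ∈ S) (m5 : v5 ∈ S) (m6 : v6 ∈ S)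
    (m7 : v7 ∈ S)
    (n1 : nn v1 = {v2}) (n2 : nn v2 = {v1}) (n3 : nn v3 = {v4}) (n4 : nn v4 = {v3})
    (n5 : nn v5 = ∅) (n6 : nn v6 = ∅)
    (h21 : v2 ≠ v1) (h31 : v3 ≠ v1) (h41 : v4 ≠ v1) (h51 : v5 ≠ v1) (h61 : v6 ≠ v1)
    (h71 : v7 ≠ v1) (h32 : v3 ≠ v2) (h42 : v4 ≠ v2) (h52 : v5 ≠ v2)
    (h62 : v6 ≠ v2) (h72 : v7 ≠ v2) (h43 : v4 ≠ v3) (h53 : v5 ≠ v3)
    (h63 : v6 ≠ v3) (h73 : v7 ≠ v3) (h54 : v5 ≠ v4) (h64 : v6 ≠ v4)
    (h74 : v7 ≠ v4) (h65 : v6 ≠ v5) (h75 : v7 ≠ v5) (h76 : v7 ≠ v6) :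
    HasPat G 7 [(0, 1), (2, 3)] := by
  apply hasPat_mk ![v1, v2, v3, v4, v5, v6, v7]
  · intro i j hij
    fin_cases i <;> fin_cases j <;> simp at hij ⊢ <;> (first | assumption | (apply Ne.symm; assumption) | (refine not_or.2 ⟨?_, ?_⟩ <;> (first | assumption | (apply Ne.symm; assumption))))
  · intro i j hij hL
    fin_cases i <;> fin_cases j <;> simp at hij hL ⊢ <;>
      (refine hadj _ (by assumption) _ (by assumption) (by (first | assumption | (apply Ne.symm; assumption) | (refine not_or.2 ⟨?_, ?_⟩ <;> (first | assumption | (apply Ne.symm; assumption)))))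
        (by simp only [n1, n2, n3, n4, n5, n6, Finset.mem_singleton, Finset.notMem_empty,
              not_false_eq_true] <;> (first | assumption | (apply Ne.symm; assumption) | (refine not_or.2 ⟨?_, ?_⟩ <;> (first | assumption | (apply Ne.symm; assumption))))))

lemma bound6 (hG : Good G) {S : Finset V} (hS : S.card = 6) : DS G S ≤ 28 := by
  by_contra hlt
  have h1 := DS_le G S
  rw [hS] at h1
  obtain ⟨m, hm⟩ := DS_even G S
  have h2 := sum_nn G S
  rw [hS] at h2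
  have h3 : ∑ v ∈ S, (nn G S v).card = 0 := by omega
  rw [Finset.sum_eq_zero_iff] at h3
  apply hG.k6
  refine hasPat_clique hS fun a ha b hb hab => adj_of_notMem_nn hb hab ?_
  rw [Finset.card_eq_zero.1 (h3 a ha)]
  exact Finset.notMem_empty _

lemma exists_other {s : Finset V} {a : V} (hs : s.card = 1) (ha : a ∈ s) : s = {a} := by
  obtain ⟨b, rfl⟩ := Finset.card_eq_one.1 hs
  rw [Finset.mem_singleton] at ha
  rw [ha]

lemma bound7 (hG : Good G) {S : Finset V} (hS : S.card = 7) : DS G S ≤ 36 := by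
  by_contra hlt
  have h6 : ∀ v ∈ S, DS G (S.erase v) ≤ 28 := fun v hv =>
    bound6 hG (by rw [Finset.card_erase_of_mem hv, hS])
  have h1 := avg G h6
  rw [hS] at h1
  obtain ⟨m, hm⟩ := DS_even G S
  have hD : DS G S = 38 := by omega
  have h2 := sum_nn G S
  rw [hS, hD] at h2
  have h3 : ∑ v ∈ S, (nn G S v).card = 4 := by omega
  have h4 : ∀ v ∈ S, (nn G S v).card ≤ 1 := fun v hv => by
    have e1 := DS_erase G hv
    have e2 := card_nn G hv
    have e3 := h6 v hv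
    omega
  -- first non-adjacent pair
  obtain ⟨v1, hv1, hc1⟩ : ∃ v ∈ S, (nn G S v).card ≠ 0 := by
    by_contra hcon
    push Not at hcon
    rw [Finset.sum_eq_zero hcon] at h3
    omega
  have hc1' : (nn G S v1).card = 1 := by have := h4 v1 hv1; omega
  obtain ⟨v2, hv2⟩ := Finset.card_eq_one.1 hc1'
  have m2 : v2 ∈ nn G S v1 := by rw [hv2]; exact Finset.mem_singleton_self _
  have hv2S := nn_mem m2
  have hc2 : (nn G S v2).card = 1 := by
    have := h4 v2 hv2S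
    have := Finset.card_pos.2 ⟨v1, nn_symm hv1 m2⟩
    omega
  have n2 : nn G S v2 = {v1} := exists_other hc2 (nn_symm hv1 m2)
  have hne12 : v2 ≠ v1 := nn_ne m2
  have s2 : ∑ v ∈ (S.erase v1).erase v2, (nn G S v).card = 2 := by
    have e1 := Finset.add_sum_erase S (fun v => (nn G S v).card) hv1
    have e2 := Finset.add_sum_erase (S.erase v1) (fun v => (nn G S v).card)
      (Finset.mem_erase.2 ⟨hne12, hv2S⟩)
    omega
  obtain ⟨v3, hv3, hc3⟩ : ∃ v ∈ (S.erase v1).erase v2, (nn G S v).card ≠ 0 := by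
    by_contra hcon
    push Not at hcon
    rw [Finset.sum_eq_zero hcon] at s2
    omega
  simp only [Finset.mem_erase] at hv3
  have hv3S := hv3.2.2
  have hc3' : (nn G S v3).card = 1 := by have := h4 v3 hv3S; omega
  obtain ⟨v4, hv4⟩ := Finset.card_eq_one.1 hc3'
  have m4 : v4 ∈ nn G S v3 := by rw [hv4]; exact Finset.mem_singleton_self _
  have hv4S := nn_mem m4
  have hc4 : (nn G S v4).card = 1 := by
    have := h4 v4 hv4S
    have := Finset.card_pos.2 ⟨v3, nn_symm hv3S m4⟩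
    omega
  have n4 : nn G S v4 = {v3} := exists_other hc4 (nn_symm hv3S m4)
  have hne34 : v4 ≠ v3 := nn_ne m4
  have hne41 : v4 ≠ v1 := by
    rintro rfl
    rw [hv2, Finset.singleton_inj] at n4
    exact hv3.1 n4.symm
  have hne42 : v4 ≠ v2 := by
    rintro rfl
    rw [n2, Finset.singleton_inj] at n4
    exact hv3.2.1 n4.symm
  have s4 : ∑ v ∈ (((S.erase v1).erase v2).erase v3).erase v4, (nn G S v).card = 0 := by
    have e1 := Finset.add_sum_erase ((S.erase v1).erase v2) (fun v => (nn G S v).card)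
      (a := v3) (by simp only [Finset.mem_erase]; exact hv3)
    have e2 := Finset.add_sum_erase (((S.erase v1).erase v2).erase v3)
      (fun v => (nn G S v).card) (a := v4)
      (by simp only [Finset.mem_erase]; exact ⟨hne34, hne42, hne41, hv4S⟩)
    omega
  rw [Finset.sum_eq_zero_iff] at s4
  have hR : ((((S.erase v1).erase v2).erase v3).erase v4).card = 3 := by
    rw [Finset.card_erase_of_mem, Finset.card_erase_of_mem, Finset.card_erase_of_mem,
      Finset.card_erase_of_mem, hS]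
    · exact hv1
    · exact Finset.mem_erase.2 ⟨hne12, hv2S⟩
    · simp only [Finset.mem_erase]; exact hv3
    · simp only [Finset.mem_erase]; exact ⟨hne34, hne42, hne41, hv4S⟩
  obtain ⟨p, q, r, hpq, hpr, hqr, hR'⟩ := Finset.card_eq_three.1 hR
  have hp : p ∈ (((S.erase v1).erase v2).erase v3).erase v4 := by rw [hR']; simp
  have hq : q ∈ (((S.erase v1).erase v2).erase v3).erase v4 := by rw [hR']; simp
  have hr : r ∈ (((S.erase v1).erase v2).erase v3).erase v4 := by rw [hR']; simp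
  have np := Finset.card_eq_zero.1 (s4 p hp)
  have nq := Finset.card_eq_zero.1 (s4 q hq)
  have nr := Finset.card_eq_zero.1 (s4 r hr)
  simp only [Finset.mem_erase] at hp hq hr
  obtain ⟨hp4, hp3, hp2, hp1, hpS⟩ := hp
  obtain ⟨hq4, hq3, hq2, hq1, hqS⟩ := hq
  obtain ⟨hr4, hr3, hr2, hr1, hrS⟩ := hr
  obtain ⟨h32, h31, -⟩ := hv3
  have hadj : ∀ x ∈ S, ∀ y ∈ S, x ≠ y → y ∉ nn G S x → G.Adj x y :=
    fun x _ y hy hxy hn => adj_of_notMem_nn hy hxy hn
  exact hG.t57 (pat_t57 hadj hv1 hv2S hv3S hv4S hpS hqS hrS hv2 n2 hv4 n4 np nq hne12 h31 hne41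
    hp1 hq1 hr1 h32 hne42 hp2 hq2 hr2 hne34 hp3 hq3 hr3 hp4 hq4 hr4 hpq.symm hpr.symm hqr.symm)

lemma pick {S T : Finset V} (h : T.card < S.card) : ∃ v ∈ S, v ∉ T := by
  by_contra hcon
  push Not at hcon
  exact absurd (Finset.card_le_card hcon) (by omega)

lemma bound8 (hG : Good G) {S : Finset V} (hS : S.card = 8) : DS G S ≤ 46 := by
  by_contra hlt
  have h7 : ∀ v ∈ S, DS G (S.erase v) ≤ 36 := fun v hv =>
    bound7 hG (by rw [Finset.card_erase_of_mem hv, hS])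
  have h1 := avg G h7
  rw [hS] at h1
  obtain ⟨m, hm⟩ := DS_even G S
  have hD : DS G S = 48 := by omega
  have hd := dg_eq_of G h7 (k := 6) (by omega) (by rw [hS, hD])
  have hn : ∀ v ∈ S, (nn G S v).card = 1 := fun v hv => by
    have := hd v hv
    have := card_nn G hv
    omega
  have hmate : ∀ v ∈ S, ∃ w ∈ S, w ≠ v ∧ nn G S v = {w} ∧ nn G S w = {v} := by
    intro v hv
    obtain ⟨w, hw⟩ := Finset.card_eq_one.1 (hn v hv)
    have m2 : w ∈ nn G S v := by rw [hw]; exact Finset.mem_singleton_self _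
    exact ⟨w, nn_mem m2, nn_ne m2, hw, exists_other (hn w (nn_mem m2)) (nn_symm hv m2)⟩
  obtain ⟨v1, m1, -⟩ := pick (S := S) (T := ∅) (by rw [hS]; simp)
  obtain ⟨v2, m2, h21, n1, n2⟩ := hmate v1 m1
  obtain ⟨v3, m3, h3⟩ := pick (S := S) (T := {v1, v2})
    (by rw [hS]; exact lt_of_le_of_lt Finset.card_le_two (by norm_num))
  obtain ⟨v4, m4, h43, n3, n4⟩ := hmate v3 m3
  obtain ⟨v5, m5, h5⟩ := pick (S := S) (T := {v1, v2, v3, v4})
    (by rw [hS]; exact lt_of_le_of_lt Finset.card_le_four (by norm_num))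
  obtain ⟨v6, m6, h65, n5, n6⟩ := hmate v5 m5
  obtain ⟨v7, m7, h7'⟩ := pick (S := S) (T := {v1, v2, v3, v4, v5, v6})
    (by rw [hS]; exact lt_of_le_of_lt Finset.card_le_six (by norm_num))
  obtain ⟨v8, m8, h87, n7, n8⟩ := hmate v7 m7
  simp only [Finset.mem_insert, Finset.mem_singleton, not_or] at h3 h5 h7'
  have key : ∀ {a b c d : V}, nn G S a = {b} → nn G S c = {d} → b ≠ d → a ≠ c := by
    rintro a b c d h1 h2 h3 rfl
    rw [h1, Finset.singleton_inj] at h2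
    exact h3 h2
  have e41 := key n4 n1 h3.2
  have e42 := key n4 n2 h3.1
  have e61 := key n6 n1 h5.2.1
  have e62 := key n6 n2 h5.1
  have e63 := key n6 n3 h5.2.2.2
  have e64 := key n6 n4 h5.2.2.1
  have e81 := key n8 n1 h7'.2.1
  have e82 := key n8 n2 h7'.1
  have e83 := key n8 n3 h7'.2.2.2.1
  have e84 := key n8 n4 h7'.2.2.1
  have e85 := key n8 n5 h7'.2.2.2.2.2
  have e86 := key n8 n6 h7'.2.2.2.2.1
  have hadj : ∀ x ∈ S, ∀ y ∈ S, x ≠ y → y ∉ nn G S x → G.Adj x y :=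
    fun x _ y hy hxy hn => adj_of_notMem_nn hy hxy hn
  obtain ⟨h31, h32⟩ := h3
  obtain ⟨h51, h52, h53, h54⟩ := h5
  obtain ⟨h71, h72, h73, h74, h75, h76⟩ := h7'
  exact hG.k2222 (pat_k2222 hadj m1 m2 m3 m4 m5 m6 m7 m8 n1 n2 n3 n4 n5 n6 h21 h31 e41 h51 e61
    h71 e81 h32 e42 h52 e62 h72 e82 h43 h53 e63 h73 e83 h54 e64 h74 e84 h65 h75 e85 h76 e86 h87)

end H20
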