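import Pool.Agent.H4.G61.Main

/-! Part G1 (Theorem A) of project MP_61d55c_co: `H20.theoremA`, proved in
`Pool/Agent/H4/G61/{Pat,Deg,Dat,Main}.lean`. -/
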