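import Pool.Agent.H20.Defs61d

/-!
# Interface between the two graph-theory parts G1 and G2 of project MP_61d55c_co

The complete paper proof is in `Pool/Agent/H20/GraphPlan61d.lean`.

PART G1 (Theorem A).  File `Pool/Agent/H20/GraphA61d.lean`:
```
theorem H20.theoremA {V : Type*} [DecidableEq V] (G : SimpleGraph V) [DecidableRel G.Adj]
    (h5 : ¬ HasPat G 5 [])
    (h8 : ¬ HasPat G 8 [(0, 1), (2, 3), (4, 5), (6, 7)])
    (h9 : ¬ HasPat G 9 [(0, 1), (2, 3), (4, 6), (4, 7), (4, 8), (5, 7), (5, 8), (6, 8)])
    (S : Finset V) : DS G S ≤ 2 * ((S.card - 1) * (S.card + 2) / 3)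
```

PART G2 (main bound, may assume G1's theorem as a hypothesis until it is there).
File `Pool/Agent/H20/Graph61d.lean`:
```
theorem H20.Good.card_edges_le {V : Type*} [Fintype V] [DecidableEq V] (G : SimpleGraph V)
    [DecidableRel G.Adj] (h : Good G) (hn : 4 ≤ Fintype.card V) :
    G.edgeFinset.card ≤ e0val (Fintype.card V)
```
-/

namespace H20

/-- Sum over `v ∈ S` of the number of neighbours of `v` in `S` (twice the number of edges
inside `S`). -/
def DS {V : Type*} [DecidableEq V] (G : SimpleGraph V) [DecidableRel G.Adj] (S : Finset V) : ℕ :=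
  ∑ v ∈ S, (S.filter (G.Adj v)).card

end H20
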