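import Pool.Agent.H20.Defs61d

/-!
# PART G (graph theory) of project MP_61d55c_co: statement to prove, and complete paper proof

TO PROVE (in `Pool/Agent/H20/Graph61d.lean`, importing `Pool.Agent.H20.Defs61d`):

```
theorem H20.Good.card_edges_le {V : Type*} [Fintype V] [DecidableEq V] (G : SimpleGraph V)
    [DecidableRel G.Adj] (h : Good G) (hn : 4 ≤ Fintype.card V) :
    G.edgeFinset.card ≤ e0val (Fintype.card V)
```

Notation. For a finset `S` of vertices, `deg_S v = #{w ∈ S : w ~ v}`, `D(S) = Σ_{v∈S} deg_S v`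
(so `D(S) = 2 e(S)` is even; e.g. `D(insert v S) = D(S) + 2 deg_S(v)`), `D(S \ T) = D(S) - 2 Σ_{t∈T}
deg_S t + D(T)` for `T ⊆ S`.  `F(n) = ⌊(n-1)(n+2)/3⌋`; so `F(3m+1) = 3m(m+1)`,
`F(3m+2) = 3m²+5m+1`, `F(3m) = 3m²+m-1 (m≥1)`.  Averaging: `(|S|-2) D(S) = Σ_{v∈S} D(S \ v)`,
and `D(S) = D(S\v) + 2 deg_S v`.

## THEOREM A.  If `G` has no `K5`, no `K_{2,2,2,2} = C4 ∨ K_{2,2}` and no `P5 ∨ K_{2,2}`, then
`D(S) ≤ 2F(|S|)` for all nonempty `S`; moreover if `|S| = 3m+1`, `m ≥ 1` and `D(S) = 6m(m+1)` then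
`S ∈ K(m)`, where

K(m): `S = Z ⊔ B ⊔ C`, `|Z| = m+1`, `|B| = |C| = m`, `B` and `C` independent, all edges between
different parts are present, and `G[Z]` is a double star: there are `x ≠ y` in `Z`, `x ~ y`, every
other `z ∈ Z` is adjacent to exactly one of `x, y` and there are no other edges inside `Z`.

Proof by strong induction on `|S|`.
* small: |S| = 1: 0.  |S| ≤ 3 trivial.  |S| = 4 (m=1): D = 12 is K4, in K(1) (Z={x,y},B={b},C={c}).
* |S| = 3m+1, m ≥ 2. Averaging from 3m gives D(S) ≤ 6m(m+1) + (2m-2)/(3m-1) < 6m(m+1)+1. Assume equality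
  D(S) = 6m(m+1). Then deg_S v = (D(S) - D(S\v))/2 ≥ (6m²+6m - (6m²+2m-2))/2 = 2m+1 for all v ∈ S.
  Let Y = {v ∈ S : deg_S v = 2m+1}.  From Σ deg = 6m²+6m ≥ (2m+2)(3m+1) - |Y| get |Y| ≥ 2m+2, so
  |S \ Y| ≤ m-1.  Triangle T ⊆ Y: y1 ∈ Y has ≥ m+2 neighbours in Y, take y2; then
  |N_S(y1) ∩ N_S(y2)| ≥ 2(2m+1) - (3m+1) = m+1 > |S\Y|, so there is a common neighbour y3 ∈ Y.
  D(S\T) = 6m²+6m - 6(2m+1) + 6 = 6(m-1)m, so S' = S\T ∈ K(m-1) with parts Z', B', C'
  (|Z'| = m, |B'| = |C'| = m-1, centers x,y), and each t ∈ T has exactly 2m-1 neighbours in S':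
  z in Z', b in B', c in C', z+b+c = 2m-1.

  m = 2: S' = K4 and each t ∈ T misses exactly one vertex of S'.  Two t's missing the same s would
  give a K5 (the two t's and S' \ s).  So T={t1,t2,t3} miss distinct s1,s2,s3; let a be the fourth.
  Then Z={a,s1,t1} (x=a,y=s1), B={s2,t2}, C={s3,t3}: S ∈ K(2).

  m ≥ 3: 
  - b = 0: then z = m, c = m-1: 'type B' (adjacent to all Z', all C', nothing in B').
  - c = 0: 'type C' similarly.
  - b, c ≥ 1: N(t) ∩ Z' is independent (an edge z1z2 in it plus b', c' neighbours would be K5), z ≥ 1.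
    z = 1: b = c = m-1: 'type Z(z0)': adjacent to exactly one z0 ∈ Z', and all of B', C'.
    z ≥ 2 and b, c ≥ 2: if two of the neighbours in Z' have a common neighbour u ∈ Z', then
      C4 = t z1 u z2 joined with {b,b'}×{c,c'} is K_{2,2,2,2}; otherwise there are neighbours z1
      adjacent to x, z2 adjacent to y (z1 ≠ y, z2 ≠ x) and z1 x y z2 t is a P5 joined with K_{2,2}.
      Contradiction.
    b = 1, z ≥ 2: z + c = 2m-2, c ≤ m-1, z ≤ m-1 (Z' not independent), so z = c = m-1 and
      N(t)∩Z' = Z' \ {u} is independent: Z' is a star with center u.  'weird type B(b0)': adjacent to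
      Z' \ u, C', one vertex b0 ∈ B', not adjacent to u.  Similarly 'weird type C(c0)'.
  Case 1: Z' is NOT a star (both centers have a leaf). Types B, C, Z(z0) only. Two of type B: K5
    (t1,t2,z1~z2,c). Two of type C: same. Two of type Z, z1 = z2: K5 (t1,t2,z1,b,c); z1 ~ z2: C4 t1 t2 z2 z1
    with K_{2,2}; z1 ≁ z2: a path in Z' from z1 to z2 of length 2 or 3 and t1,t2 contain a P5 (e.g.
    t1? z1 u z2 t2 with t1 adjacent to z1: t1 z1 u z2 t2).  So T consists of one of each type and
    S ∈ K(m) with Z = Z' + tZ, B = B' + tB, C = C' + tC provided z0 ∈ {x,y}: if z0 is a leaf of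
    x then (y has another leaf w) tZ z0 x y w is a P5: contradiction.
  Case 2: Z' is a star with center u =: a.  Let P = Z' \ a, Q = B', R = C' (each of size m-1 ≥ 2,
    independent, complete to each other, and a adjacent to all). All types are now symmetric: each t has
    a part X ∈ {P,Q,R} such that t is complete to the other two parts, and either ('full X')
    t ~ a and t has no neighbour in X, or ('weird X(x0)') t ≁ a and t has exactly one neighbour x0 in X.
    (type B = full Q, type C = full R, type Z(a) = full P, type Z(z0), z0≠a = weird P(z0).)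
    Two t's of the same part X (others Y, W): full/full: K5 {t1,t2,a,y,w}; full/weird(x0):
    C4 t1 a x0 t2 with K_{2,2} from Y, W; weird(x0)/weird(x1): x0 = x1: K5 {t1,t2,x0,y,w};
    x0≠x1: P5 t1 x0 a x1 t2 with K_{2,2}.  So the three t's have three distinct parts.
    Two weird ones t1 = weird X(x0), t2 = weird Y(y0): K5 {t1,t2,x0,y0,w} with w ∈ W.
    So at most one is weird. None weird: S ∈ K(m) with Z = P + tP + a (star, x=a, y = any leaf),
    B = Q + tQ, C = R + tR.   Exactly one weird, X(x0), t1: Z = X + t1 + a with centers a, x0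
    (t1 ~ x0 only, other x ~ a), B, C = the other two parts with their t's.
* |S| = 3m+2, m ≥ 1 (m = 0 trivial). Averaging: D(S) ≤ (3m+2)·6m(m+1)/(3m) = 6m²+10m+4 = 2F+2. If
  D(S) = 2F+2, then D(S\v) = 6m(m+1) for every v (so S\v ∈ K(m)) and all degrees are 2m+2.
  Take any v and S\v = Z ⊔ B ⊔ C. Each vertex of B ∪ C and each z ∈ Z \ {x,y} has degree 2m+1 in S\v so is
  adjacent to v.  deg_Z x + deg_Z y = m+1 and both ≤ 2, so m ≤ 3; v has exactly 2 neighbours in Z; the m-1
  noncentral vertices of Z are adjacent to v.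
  m = 1: v,x,y,b,c is K5. m = 2: Z = {x,y,w}, w ~ x (say): then deg_{S\v} x = 2m+2, v ≁ x, v ~ y, v ~ w:
  C4 v y x w with K_{2,2} = B, C. m = 3: deg_Z x = deg_Z y = 2, w ~ x, w' ~ y, v ≁ x, y, v ~ w, w': P5 w x y w' v.
* |S| = 3m: averaging: (3m-2) D(S) ≤ 3m (6m²-2m-2), so D(S) ≤ 2F(3m) + (4m-4)/(3m-2) < 2F(3m)+2; D is even.

## MAIN BOUND for good graphs.
* n = 4, 5: complete graph. n = 6: no K6, so D ≤ 28.
* n = 7: if e ≥ 19 then the complement has ≤ 2 edges: no K6 / T5(7) (pattern t57).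
* n = 8: e ≤ 24 by averaging; if e = 24 then 6-regular, the complement is a perfect matching: k2222.
* n = 9: e ≤ 29, n = 10: e ≤ 36 by averaging.
* n = 11: e ≤ 44 by averaging; if e = 44 then 8-regular and by Theorem A there is a K5 =: A. W = S \ A has 6
  vertices, D(W) = 88 - 80 + 20 = 28, so W = K6 minus one edge w1w2. Complement degrees are 2: each a ∈ A
  is missed by (non-adjacent to) exactly two vertices of W; w1, w2 miss exactly one vertex of A each,
  w3..w6 exactly two.  Let w1 miss a1.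
  Case 1: w2 does not miss a1. a1 is missed by w1 and w3, w3 misses a1 and x. The other misser of x is
   - w2: A ∪ {w1,w2,w3} has complement the 5-cycle a1 w1 w2 x w3 plus three isolated: pattern c5.
   - w4 ∈ W \ {w1,w2,w3}, missing x and y: A ∪ {w1,w3,w4}: complement path w1 a1 w3 x w4 y: pattern p6.
  Case 2: w1, w2 both miss a1. w3 misses x, y; other misser of y is w4 missing y, z.
   - z = x: A ∪ {w1,w3,w4}: 4-cycle x w3 y w4 plus edge w1 a1: pattern c4k2.
   - z ≠ x: other misser of z is w5 missing z, u; u ≠ x since otherwise the fifth vertex of A would be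
     missed by at most one vertex. A ∪ {w1,w3,w4,w5}: complement path x w3 y w4 z w5 u plus edge
     w1 a1: pattern p7k2.
* n ≥ 12: induction. n = 3m, 3m+1: averaging (as in Theorem A, integrality of e).  n = 3m+2, m ≥ 4: e ≤ F+1 with
  equality only if (2m+2)-regular. If there is a K5 =: A then D(S\A) = 6m²+10m+4 - 20m - 20 + 20 = 6m²-10m+4 =
  2F(3m-3)+2, contradiction with the bound for 3m-3 ≥ 9. So no K5 and Theorem A gives e ≤ F.
-/
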