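import Pool.Agent.H20.Chk61d

/-!
# Clause instances and their soundness
-/

namespace H20

open Rup

/-- An item: four labels and a sign. -/
inductive Item where
  | mk (a b c d : Nat) (s : Bool) : Item

/-- Mask of a list of items. -/
noncomputable def maskL (NV : Nat) (l : List Item) : Nat :=
  List.rec 0 (fun it _ ih =>
    Nat.lor (Item.rec (fun a b c d s => Nat.shiftLeft 1 (lit NV a b c d s)) it) ih) l

variable {n NV : ℕ} {adj : ℕ → ℕ → Bool} {X : ℕ → Fin 3 → ℝ}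

theorem holds_maskL_cons {L0 : Nat → Prop} {a b c d : Nat} {s : Bool} {l : List Item} :
    Holds NV L0 (maskL NV (⟨a, b, c, d, s⟩ :: l)) ↔
      Lit NV L0 (lit NV a b c d s) ∧ Holds NV L0 (maskL NV l) := by
  have e : maskL NV (⟨a, b, c, d, s⟩ :: l) = (1 <<< (lit NV a b c d s)) ||| maskL NV l := rfl
  rw [e]
  constructor
  · intro h
    refine ⟨h _ ?_, fun j hj => h j ?_⟩
    · rw [Nat.testBit_or, Nat.one_shiftLeft, Nat.testBit_two_pow_self, Bool.true_or]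
    · rw [Nat.testBit_or, hj, Bool.or_true]
  · rintro ⟨h1, h2⟩ j hj
    rw [Nat.testBit_or, Bool.or_eq_true] at hj
    rcases hj with hj | hj
    · rw [Nat.one_shiftLeft, Nat.testBit_two_pow, decide_eq_true_eq] at hj
      exact hj ▸ h1
    · exact h2 j hj

theorem Holds.mono {L0 : Nat → Prop} {a b : Nat} (h : Holds NV L0 b) (hab : a &&& b = a) :
    Holds NV L0 a := by
  intro j hj
  refine h j ?_
  rw [← hab, Nat.testBit_and] at hj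
  simp only [Bool.and_eq_true] at hj
  exact hj.2

/-- Real sign. -/
noncomputable def rg (s : Bool) : ℝ := if s = true then 1 else -1

theorem T_pos {a b c d : Nat} {g : Bool} (h : T X a b c d g) :
    0 < rg g * D (X a) (X b) (X c) (X d) := by
  cases g
  · simp only [T, sgn, Bool.false_eq_true, if_false] at h; simp [rg, h]
  · simp only [T, sgn, if_true] at h; simp [rg, h]

theorem T_pos' {a b c d : Nat} {g : Bool} (h : T X a b c d (nt g)) :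
    0 < -(rg g * D (X a) (X b) (X c) (X d)) := by
  rw [nt_eq] at h
  cases g
  · simp only [T, sgn, Bool.not_false, if_true] at h; simp [rg, h]
  · simp only [T, sgn, Bool.not_true, Bool.false_eq_true, if_false] at h; simp [rg, h]

theorem abs_of_T {g : Bool} {r : ℝ} (h : 0 < rg g * r) : |r| = rg g * r := by
  cases g
  · simp only [rg, Bool.false_eq_true, if_false] at h ⊢
    rw [abs_of_neg (by linarith)]; ring
  · simp only [rg, if_true] at h ⊢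
    rw [abs_of_pos (by linarith)]; ring

theorem abs_of_T' {g : Bool} {r : ℝ} (h : 0 < -(rg g * r)) : |r| = -(rg g * r) := by
  cases g
  · simp only [rg, Bool.false_eq_true, if_false] at h ⊢
    rw [abs_of_pos (by linarith)]; ring
  · simp only [rg, if_true] at h ⊢
    rw [abs_of_neg (by linarith)]; ring

theorem Conf.ap (hX : Conf n adj X) {a b : Nat} (l : List ℕ) (ha : a < n) (hb : b < n)
    (hab : a ≠ b) (h : adj a b = true) (hl : ∀ k ∈ l, k < n ∧ k ≠ a ∧ k ≠ b) :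
    AP (X a) (X b) (l.map X) := by
  obtain ⟨f, hf⟩ := hX.anti a b ha hb hab h
  refine ⟨f, (hf a ha).2 hab, ?_⟩
  intro w hw
  obtain ⟨k, hk, rfl⟩ := List.mem_map.1 hw
  obtain ⟨h1, h2, h3⟩ := hl k hk
  exact ⟨(hf k h1).2 h3, (hf k h1).1 h2⟩

/-- Items of kind `L1`. -/
noncomputable def itL1 (y1 y2 y3 y4 y5 y6 : Nat) (g : Bool) : List Item :=
  [⟨y3, y4, y5, y6, g⟩,
   ⟨y2, y3, y4, y6, g⟩,
   ⟨y1, y4, y5, y6, g⟩,
   ⟨y1, y3, y5, y6, g⟩,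
   ⟨y1, y3, y4, y6, g⟩,
   ⟨y1, y3, y4, y5, g⟩,
   ⟨y1, y2, y5, y6, g⟩,
   ⟨y1, y2, y4, y6, g⟩,
   ⟨y1, y2, y3, y6, g⟩,
   ⟨y1, y2, y3, y4, g⟩]

/-- Items of kind `L2`. -/
noncomputable def itL2 (y1 y2 y3 y4 y5 y6 : Nat) (g : Bool) : List Item :=
  [⟨y3, y4, y5, y6, g⟩,
   ⟨y2, y4, y5, y6, g⟩,
   ⟨y2, y3, y5, y6, g⟩,
   ⟨y2, y3, y4, y6, g⟩,
   ⟨y2, y3, y4, y5, g⟩,
   ⟨y1, y4, y5, y6, g⟩,
   ⟨y1, y3, y5, y6, g⟩,
   ⟨y1, y3, y4, y6, g⟩,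
   ⟨y1, y3, y4, y5, g⟩,
   ⟨y1, y2, y5, y6, g⟩,
   ⟨y1, y2, y4, y6, g⟩,
   ⟨y1, y2, y4, y5, g⟩,
   ⟨y1, y2, y3, y6, g⟩,
   ⟨y1, y2, y3, y5, g⟩,
   ⟨y1, y2, y3, y4, g⟩]

/-- Items of kind `L3`. -/
noncomputable def itL3 (y1 y2 y3 y4 y5 y6 : Nat) (g : Bool) : List Item :=
  [⟨y3, y4, y5, y6, g⟩,
   ⟨y2, y4, y5, y6, (nt g)⟩,
   ⟨y2, y3, y5, y6, (nt g)⟩,
   ⟨y2, y3, y4, y6, g⟩,
   ⟨y2, y3, y4, y5, g⟩,
   ⟨y1, y4, y5, y6, (nt g)⟩,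
   ⟨y1, y3, y4, y6, g⟩,
   ⟨y1, y2, y5, y6, g⟩,
   ⟨y1, y2, y4, y6, (nt g)⟩,
   ⟨y1, y2, y4, y5, (nt g)⟩,
   ⟨y1, y2, y3, y6, (nt g)⟩,
   ⟨y1, y2, y3, y4, g⟩]

/-- Items of kind `L4a`. -/
noncomputable def itL4a (y1 y2 y3 y4 y5 y6 : Nat) (g : Bool) : List Item :=
  [⟨y3, y4, y5, y6, g⟩,
   ⟨y2, y4, y5, y6, g⟩,
   ⟨y2, y3, y4, y6, g⟩,
   ⟨y1, y4, y5, y6, g⟩,
   ⟨y1, y3, y5, y6, g⟩,
   ⟨y1, y3, y4, y6, g⟩,
   ⟨y1, y3, y4, y5, g⟩,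
   ⟨y1, y2, y5, y6, g⟩,
   ⟨y1, y2, y4, y6, g⟩,
   ⟨y1, y2, y4, y5, g⟩,
   ⟨y1, y2, y3, y6, g⟩,
   ⟨y1, y2, y3, y4, g⟩]

/-- Items of kind `five`. -/
noncomputable def itFive (x a b c d : Nat) (g : Bool) : List Item :=
  [⟨x, b, c, d, nt g⟩, ⟨x, a, c, d, g⟩, ⟨x, a, b, d, nt g⟩, ⟨x, a, b, c, g⟩]

/-- Items of kind `gp`. -/
noncomputable def itGP (a b c d e f : Nat) (s0 s1 s2 s3 s4 s5 : Bool) : List Item :=
  [⟨a, b, c, d, s0⟩, ⟨a, b, e, f, s1⟩, ⟨a, b, c, e, s2⟩, ⟨a, b, d, f, s3⟩, ⟨a, b, c, f, s4⟩,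
   ⟨a, b, d, e, s5⟩]

/-- Items of kind `R1`. -/
noncomputable def itR1 (x x' z z2 z3 : Nat) (g : Bool) : List Item :=
  [⟨x', z, z2, z3, g⟩, ⟨x, z, z2, z3, nt g⟩, ⟨x, x', z2, z3, nt g⟩, ⟨x, x', z, z3, g⟩,
   ⟨x, x', z, z2, nt g⟩]

section
variable (hR : RankOK n NV) (hX : Conf n adj X)
include hR hX

theorem soundL1 {y1 y2 y3 y4 y5 y6 : Nat} {g : Bool}
    (h12 : y1 ≠ y2) (h13 : y1 ≠ y3) (h14 : y1 ≠ y4) (h15 : y1 ≠ y5) (h16 : y1 ≠ y6) (h23 : y2 ≠ y3) (h24 : y2 ≠ y4) (h25 : y2 ≠ y5) (h26 : y2 ≠ y6) (h34 : y3 ≠ y4) (h35 : y3 ≠ y5) (h36 : y3 ≠ y6) (h45 : y4 ≠ y5) (h46 : y4 ≠ y6) (h56 : y5 ≠ y6)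
    (l1 : y1 < n) (l2 : y2 < n) (l3 : y3 < n) (l4 : y4 < n) (l5 : y5 < n) (l6 : y6 < n)
    (e23 : adj y2 y3 = true) (e45 : adj y4 y5 = true)
    (H : Holds NV (Val X) (maskL NV (itL1 y1 y2 y3 y4 y5 y6 g))) : False := by
  simp only [itL1, holds_maskL_cons] at H
  obtain ⟨c12, c15, c23, c24, c25, c26, c34, c35, c45, c56, -⟩ := H
  have k12 := T_pos (lit_sound hR hX h34 h35 h36 h45 h46 h56 l3 l4 l5 l6 c12)
  have k15 := T_pos (lit_sound hR hX h23 h24 h26 h34 h36 h46 l2 l3 l4 l6 c15)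
  have k23 := T_pos (lit_sound hR hX h14 h15 h16 h45 h46 h56 l1 l4 l5 l6 c23)
  have k24 := T_pos (lit_sound hR hX h13 h15 h16 h35 h36 h56 l1 l3 l5 l6 c24)
  have k25 := T_pos (lit_sound hR hX h13 h14 h16 h34 h36 h46 l1 l3 l4 l6 c25)
  have k26 := T_pos (lit_sound hR hX h13 h14 h15 h34 h35 h45 l1 l3 l4 l5 c26)
  have k34 := T_pos (lit_sound hR hX h12 h15 h16 h25 h26 h56 l1 l2 l5 l6 c34)
  have k35 := T_pos (lit_sound hR hX h12 h14 h16 h24 h26 h46 l1 l2 l4 l6 c35)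
  have k45 := T_pos (lit_sound hR hX h12 h13 h16 h23 h26 h36 l1 l2 l3 l6 c45)
  have k56 := T_pos (lit_sound hR hX h12 h13 h14 h23 h24 h34 l1 l2 l3 l4 c56)
  have a23 := hX.ap [y1, y4, y5, y6] l2 l3 h23 e23 (by
    simp only [List.forall_mem_cons, List.not_mem_nil, false_implies, implies_true, and_true]
    refine ⟨⟨l1, h12, h13⟩, ⟨l4, h24.symm, h34.symm⟩, ⟨l5, h25.symm, h35.symm⟩, ⟨l6, h26.symm, h36.symm⟩⟩)
  have a45 := hX.ap [y1, y2, y3, y6] l4 l5 h45 e45 (by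
    simp only [List.forall_mem_cons, List.not_mem_nil, false_implies, implies_true, and_true]
    refine ⟨⟨l1, h14, h15⟩, ⟨l2, h24, h25⟩, ⟨l3, h34, h35⟩, ⟨l6, h46.symm, h56.symm⟩⟩)
  exact L1 (rg g) (X y1) (X y2) (X y3) (X y4) (X y5) (X y6) a23 a45 k12 k15 k23 k24 k25 k26 k34 k35 k45 k56

theorem soundL2 {y1 y2 y3 y4 y5 y6 : Nat} {g : Bool}
    (h12 : y1 ≠ y2) (h13 : y1 ≠ y3) (h14 : y1 ≠ y4) (h15 : y1 ≠ y5) (h16 : y1 ≠ y6) (h23 : y2 ≠ y3) (h24 : y2 ≠ y4) (h25 : y2 ≠ y5) (h26 : y2 ≠ y6) (h34 : y3 ≠ y4) (h35 : y3 ≠ y5) (h36 : y3 ≠ y6) (h45 : y4 ≠ y5) (h46 : y4 ≠ y6) (h56 : y5 ≠ y6)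
    (l1 : y1 < n) (l2 : y2 < n) (l3 : y3 < n) (l4 : y4 < n) (l5 : y5 < n) (l6 : y6 < n)
    (e12 : adj y1 y2 = true) (e34 : adj y3 y4 = true) (e56 : adj y5 y6 = true)
    (H : Holds NV (Val X) (maskL NV (itL2 y1 y2 y3 y4 y5 y6 g))) : False := by
  simp only [itL2, holds_maskL_cons] at H
  obtain ⟨c12, c13, c14, c15, c16, c23, c24, c25, c26, c34, c35, c36, c45, c46, c56, -⟩ := H
  have k12 := T_pos (lit_sound hR hX h34 h35 h36 h45 h46 h56 l3 l4 l5 l6 c12)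
  have k13 := T_pos (lit_sound hR hX h24 h25 h26 h45 h46 h56 l2 l4 l5 l6 c13)
  have k14 := T_pos (lit_sound hR hX h23 h25 h26 h35 h36 h56 l2 l3 l5 l6 c14)
  have k15 := T_pos (lit_sound hR hX h23 h24 h26 h34 h36 h46 l2 l3 l4 l6 c15)
  have k16 := T_pos (lit_sound hR hX h23 h24 h25 h34 h35 h45 l2 l3 l4 l5 c16)
  have k23 := T_pos (lit_sound hR hX h14 h15 h16 h45 h46 h56 l1 l4 l5 l6 c23)
  have k24 := T_pos (lit_sound hR hX h13 h15 h16 h35 h36 h56 l1 l3 l5 l6 c24)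
  have k25 := T_pos (lit_sound hR hX h13 h14 h16 h34 h36 h46 l1 l3 l4 l6 c25)
  have k26 := T_pos (lit_sound hR hX h13 h14 h15 h34 h35 h45 l1 l3 l4 l5 c26)
  have k34 := T_pos (lit_sound hR hX h12 h15 h16 h25 h26 h56 l1 l2 l5 l6 c34)
  have k35 := T_pos (lit_sound hR hX h12 h14 h16 h24 h26 h46 l1 l2 l4 l6 c35)
  have k36 := T_pos (lit_sound hR hX h12 h14 h15 h24 h25 h45 l1 l2 l4 l5 c36)
  have k45 := T_pos (lit_sound hR hX h12 h13 h16 h23 h26 h36 l1 l2 l3 l6 c45)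
  have k46 := T_pos (lit_sound hR hX h12 h13 h15 h23 h25 h35 l1 l2 l3 l5 c46)
  have k56 := T_pos (lit_sound hR hX h12 h13 h14 h23 h24 h34 l1 l2 l3 l4 c56)
  have a12 := hX.ap [y3, y4, y5, y6] l1 l2 h12 e12 (by
    simp only [List.forall_mem_cons, List.not_mem_nil, false_implies, implies_true, and_true]
    refine ⟨⟨l3, h13.symm, h23.symm⟩, ⟨l4, h14.symm, h24.symm⟩, ⟨l5, h15.symm, h25.symm⟩, ⟨l6, h16.symm, h26.symm⟩⟩)
  have a34 := hX.ap [y1, y2, y5, y6] l3 l4 h34 e34 (by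
    simp only [List.forall_mem_cons, List.not_mem_nil, false_implies, implies_true, and_true]
    refine ⟨⟨l1, h13, h14⟩, ⟨l2, h23, h24⟩, ⟨l5, h35.symm, h45.symm⟩, ⟨l6, h36.symm, h46.symm⟩⟩)
  have a56 := hX.ap [y1, y2, y3, y4] l5 l6 h56 e56 (by
    simp only [List.forall_mem_cons, List.not_mem_nil, false_implies, implies_true, and_true]
    refine ⟨⟨l1, h15, h16⟩, ⟨l2, h25, h26⟩, ⟨l3, h35, h36⟩, ⟨l4, h45, h46⟩⟩)
  exact L2 (rg g) (X y1) (X y2) (X y3) (X y4) (X y5) (X y6) a12 a34 a56 k12 k13 k14 k15 k16 k23 k24 k25 k26 k34 k35 k36 k45 k46 k56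

theorem soundL3 {y1 y2 y3 y4 y5 y6 : Nat} {g : Bool}
    (h12 : y1 ≠ y2) (h13 : y1 ≠ y3) (h14 : y1 ≠ y4) (h15 : y1 ≠ y5) (h16 : y1 ≠ y6) (h23 : y2 ≠ y3) (h24 : y2 ≠ y4) (h25 : y2 ≠ y5) (h26 : y2 ≠ y6) (h34 : y3 ≠ y4) (h35 : y3 ≠ y5) (h36 : y3 ≠ y6) (h45 : y4 ≠ y5) (h46 : y4 ≠ y6) (h56 : y5 ≠ y6)
    (l1 : y1 < n) (l2 : y2 < n) (l3 : y3 < n) (l4 : y4 < n) (l5 : y5 < n) (l6 : y6 < n)
    (e12 : adj y1 y2 = true) (e34 : adj y3 y4 = true) (e56 : adj y5 y6 = true)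
    (H : Holds NV (Val X) (maskL NV (itL3 y1 y2 y3 y4 y5 y6 g))) : False := by
  simp only [itL3, holds_maskL_cons] at H
  obtain ⟨c12, c13, c14, c15, c16, c23, c25, c34, c35, c36, c45, c56, -⟩ := H
  have k12 := T_pos (lit_sound hR hX h34 h35 h36 h45 h46 h56 l3 l4 l5 l6 c12)
  have k13 := T_pos' (lit_sound hR hX h24 h25 h26 h45 h46 h56 l2 l4 l5 l6 c13)
  have k14 := T_pos' (lit_sound hR hX h23 h25 h26 h35 h36 h56 l2 l3 l5 l6 c14)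
  have k15 := T_pos (lit_sound hR hX h23 h24 h26 h34 h36 h46 l2 l3 l4 l6 c15)
  have k16 := T_pos (lit_sound hR hX h23 h24 h25 h34 h35 h45 l2 l3 l4 l5 c16)
  have k23 := T_pos' (lit_sound hR hX h14 h15 h16 h45 h46 h56 l1 l4 l5 l6 c23)
  have k25 := T_pos (lit_sound hR hX h13 h14 h16 h34 h36 h46 l1 l3 l4 l6 c25)
  have k34 := T_pos (lit_sound hR hX h12 h15 h16 h25 h26 h56 l1 l2 l5 l6 c34)
  have k35 := T_pos' (lit_sound hR hX h12 h14 h16 h24 h26 h46 l1 l2 l4 l6 c35)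
  have k36 := T_pos' (lit_sound hR hX h12 h14 h15 h24 h25 h45 l1 l2 l4 l5 c36)
  have k45 := T_pos' (lit_sound hR hX h12 h13 h16 h23 h26 h36 l1 l2 l3 l6 c45)
  have k56 := T_pos (lit_sound hR hX h12 h13 h14 h23 h24 h34 l1 l2 l3 l4 c56)
  have a12 := hX.ap [y3, y4, y5, y6] l1 l2 h12 e12 (by
    simp only [List.forall_mem_cons, List.not_mem_nil, false_implies, implies_true, and_true]
    refine ⟨⟨l3, h13.symm, h23.symm⟩, ⟨l4, h14.symm, h24.symm⟩, ⟨l5, h15.symm, h25.symm⟩, ⟨l6, h16.symm, h26.symm⟩⟩)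
  have a34 := hX.ap [y1, y2, y5, y6] l3 l4 h34 e34 (by
    simp only [List.forall_mem_cons, List.not_mem_nil, false_implies, implies_true, and_true]
    refine ⟨⟨l1, h13, h14⟩, ⟨l2, h23, h24⟩, ⟨l5, h35.symm, h45.symm⟩, ⟨l6, h36.symm, h46.symm⟩⟩)
  have a56 := hX.ap [y1, y2, y3, y4] l5 l6 h56 e56 (by
    simp only [List.forall_mem_cons, List.not_mem_nil, false_implies, implies_true, and_true]
    refine ⟨⟨l1, h15, h16⟩, ⟨l2, h25, h26⟩, ⟨l3, h35, h36⟩, ⟨l4, h45, h46⟩⟩)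
  exact L3 (rg g) (X y1) (X y2) (X y3) (X y4) (X y5) (X y6) a12 a34 a56 k12 k13 k14 k15 k16 k23 k25 k34 k35 k36 k45 k56

theorem soundL4a {y1 y2 y3 y4 y5 y6 : Nat} {g : Bool}
    (h12 : y1 ≠ y2) (h13 : y1 ≠ y3) (h14 : y1 ≠ y4) (h15 : y1 ≠ y5) (h16 : y1 ≠ y6) (h23 : y2 ≠ y3) (h24 : y2 ≠ y4) (h25 : y2 ≠ y5) (h26 : y2 ≠ y6) (h34 : y3 ≠ y4) (h35 : y3 ≠ y5) (h36 : y3 ≠ y6) (h45 : y4 ≠ y5) (h46 : y4 ≠ y6) (h56 : y5 ≠ y6)
    (l1 : y1 < n) (l2 : y2 < n) (l3 : y3 < n) (l4 : y4 < n) (l5 : y5 < n) (l6 : y6 < n)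
    (e15 : adj y1 y5 = true) (e23 : adj y2 y3 = true) (e46 : adj y4 y6 = true)
    (H : Holds NV (Val X) (maskL NV (itL4a y1 y2 y3 y4 y5 y6 g))) : |D (X y3) (X y4) (X y5) (X y6)| * |D (X y1) (X y2) (X y3) (X y6)|
      < |D (X y2) (X y4) (X y5) (X y6)| * |D (X y1) (X y2) (X y3) (X y4)| := by
  simp only [itL4a, holds_maskL_cons] at H
  obtain ⟨c12, c13, c15, c23, c24, c25, c26, c34, c35, c36, c45, c56, -⟩ := H
  have k12 := T_pos (lit_sound hR hX h34 h35 h36 h45 h46 h56 l3 l4 l5 l6 c12)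
  have k13 := T_pos (lit_sound hR hX h24 h25 h26 h45 h46 h56 l2 l4 l5 l6 c13)
  have k15 := T_pos (lit_sound hR hX h23 h24 h26 h34 h36 h46 l2 l3 l4 l6 c15)
  have k23 := T_pos (lit_sound hR hX h14 h15 h16 h45 h46 h56 l1 l4 l5 l6 c23)
  have k24 := T_pos (lit_sound hR hX h13 h15 h16 h35 h36 h56 l1 l3 l5 l6 c24)
  have k25 := T_pos (lit_sound hR hX h13 h14 h16 h34 h36 h46 l1 l3 l4 l6 c25)
  have k26 := T_pos (lit_sound hR hX h13 h14 h15 h34 h35 h45 l1 l3 l4 l5 c26)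
  have k34 := T_pos (lit_sound hR hX h12 h15 h16 h25 h26 h56 l1 l2 l5 l6 c34)
  have k35 := T_pos (lit_sound hR hX h12 h14 h16 h24 h26 h46 l1 l2 l4 l6 c35)
  have k36 := T_pos (lit_sound hR hX h12 h14 h15 h24 h25 h45 l1 l2 l4 l5 c36)
  have k45 := T_pos (lit_sound hR hX h12 h13 h16 h23 h26 h36 l1 l2 l3 l6 c45)
  have k56 := T_pos (lit_sound hR hX h12 h13 h14 h23 h24 h34 l1 l2 l3 l4 c56)
  have a15 := hX.ap [y2, y3, y4, y6] l1 l5 h15 e15 (by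
    simp only [List.forall_mem_cons, List.not_mem_nil, false_implies, implies_true, and_true]
    refine ⟨⟨l2, h12.symm, h25⟩, ⟨l3, h13.symm, h35⟩, ⟨l4, h14.symm, h45⟩, ⟨l6, h16.symm, h56.symm⟩⟩)
  have a23 := hX.ap [y1, y4, y5, y6] l2 l3 h23 e23 (by
    simp only [List.forall_mem_cons, List.not_mem_nil, false_implies, implies_true, and_true]
    refine ⟨⟨l1, h12, h13⟩, ⟨l4, h24.symm, h34.symm⟩, ⟨l5, h25.symm, h35.symm⟩, ⟨l6, h26.symm, h36.symm⟩⟩)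
  have a46 := hX.ap [y1, y2, y3, y5] l4 l6 h46 e46 (by
    simp only [List.forall_mem_cons, List.not_mem_nil, false_implies, implies_true, and_true]
    refine ⟨⟨l1, h14, h16⟩, ⟨l2, h24, h26⟩, ⟨l3, h34, h36⟩, ⟨l5, h45.symm, h56⟩⟩)
  have h := L4a (rg g) (X y1) (X y2) (X y3) (X y4) (X y5) (X y6) a15 a23 a46 k12 k13 k15 k23 k24 k25 k26 k34 k35 k36 k45 k56
  rwa [abs_of_T k12, abs_of_T k45, abs_of_T k13, abs_of_T k56]

theorem soundFive {x a b c d : Nat} {g : Bool} (h12 : x ≠ a) (h13 : x ≠ b) (h14 : x ≠ c)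
    (h15 : x ≠ d) (h23 : a ≠ b) (h24 : a ≠ c) (h25 : a ≠ d) (h34 : b ≠ c) (h35 : b ≠ d)
    (h45 : c ≠ d) (l1 : x < n) (l2 : a < n) (l3 : b < n) (l4 : c < n) (l5 : d < n)
    (H : Holds NV (Val X) (maskL NV (itFive x a b c d g))) : False := by
  simp only [itFive, holds_maskL_cons] at H
  obtain ⟨c1, c2, c3, c4, -⟩ := H
  have k1 := T_pos' (lit_sound hR hX h13 h14 h15 h34 h35 h45 l1 l3 l4 l5 c1)
  have k2 := T_pos (lit_sound hR hX h12 h14 h15 h24 h25 h45 l1 l2 l4 l5 c2)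
  have k3 := T_pos' (lit_sound hR hX h12 h13 h15 h23 h25 h35 l1 l2 l3 l5 c3)
  have k4 := T_pos (lit_sound hR hX h12 h13 h14 h23 h24 h34 l1 l2 l3 l4 c4)
  obtain ⟨f, hf⟩ := hX.exposed x l1
  exact five_exposed (X x) (X a) (X b) (X c) (X d) f (hf a l2 h12.symm) (hf b l3 h13.symm)
    (hf c l4 h14.symm) (hf d l5 h15.symm) k1 k2 k3 k4

theorem soundGP {a b c d e f : Nat} {s0 s1 s2 s3 s4 s5 : Bool}
    (h12 : a ≠ b) (h13 : a ≠ c) (h14 : a ≠ d) (h15 : a ≠ e) (h16 : a ≠ f)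
    (h23 : b ≠ c) (h24 : b ≠ d) (h25 : b ≠ e) (h26 : b ≠ f)
    (h34 : c ≠ d) (h35 : c ≠ e) (h36 : c ≠ f) (h45 : d ≠ e) (h46 : d ≠ f) (h56 : e ≠ f)
    (l1 : a < n) (l2 : b < n) (l3 : c < n) (l4 : d < n) (l5 : e < n) (l6 : f < n)
    (H : Holds NV (Val X) (maskL NV (itGP a b c d e f s0 s1 s2 s3 s4 s5))) :
    T X a b c d s0 ∧ T X a b e f s1 ∧ T X a b c e s2 ∧ T X a b d f s3 ∧ T X a b c f s4 ∧
      T X a b d e s5 := by
  simp only [itGP, holds_maskL_cons] at H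
  obtain ⟨c1, c2, c3, c4, c5, c6, -⟩ := H
  exact ⟨lit_sound hR hX h12 h13 h14 h23 h24 h34 l1 l2 l3 l4 c1,
    lit_sound hR hX h12 h15 h16 h25 h26 h56 l1 l2 l5 l6 c2,
    lit_sound hR hX h12 h13 h15 h23 h25 h35 l1 l2 l3 l5 c3,
    lit_sound hR hX h12 h14 h16 h24 h26 h46 l1 l2 l4 l6 c4,
    lit_sound hR hX h12 h13 h16 h23 h26 h36 l1 l2 l3 l6 c5,
    lit_sound hR hX h12 h14 h15 h24 h25 h45 l1 l2 l4 l5 c6⟩

theorem soundR1 {x x' z z2 z3 : Nat} {g : Bool} (h12 : x ≠ x') (h13 : x ≠ z) (h14 : x ≠ z2)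
    (h15 : x ≠ z3) (h23 : x' ≠ z) (h24 : x' ≠ z2) (h25 : x' ≠ z3) (h34 : z ≠ z2) (h35 : z ≠ z3)
    (h45 : z2 ≠ z3) (l1 : x < n) (l2 : x' < n) (l3 : z < n) (l4 : z2 < n) (l5 : z3 < n)
    (e13 : adj x z = true) (H : Holds NV (Val X) (maskL NV (itR1 x x' z z2 z3 g))) :
    |D (X x) (X x') (X z2) (X z3)| < |D (X x) (X z) (X z2) (X z3)| := by
  simp only [itR1, holds_maskL_cons] at H
  obtain ⟨c1, c2, c3, c4, c5, -⟩ := H
  have k1 := T_pos (lit_sound hR hX h23 h24 h25 h34 h35 h45 l2 l3 l4 l5 c1)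
  have k2 := T_pos' (lit_sound hR hX h13 h14 h15 h34 h35 h45 l1 l3 l4 l5 c2)
  have k3 := T_pos' (lit_sound hR hX h12 h14 h15 h24 h25 h45 l1 l2 l4 l5 c3)
  have k4 := T_pos (lit_sound hR hX h12 h13 h15 h23 h25 h35 l1 l2 l3 l5 c4)
  have k5 := T_pos' (lit_sound hR hX h12 h13 h14 h23 h24 h34 l1 l2 l3 l4 c5)
  have a13 := hX.ap [x', z2, z3] l1 l3 h13 e13 (by
    simp only [List.forall_mem_cons, List.not_mem_nil, false_implies, implies_true, and_true]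
    refine ⟨⟨l2, h12.symm, h23⟩, ⟨l4, h14.symm, h34.symm⟩, ⟨l5, h15.symm, h35.symm⟩⟩)
  have h := R1 (g := rg g) (X x) (X x') (X z) (X z2) (X z3) a13 k1 k2 k3 k4 k5
  rwa [abs_of_T' k3, abs_of_T' k2]

end

end H20
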