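import Pool.Agent.H20.Defs61d

/-!
# Project MP_61d55c_co, part L: the lower bound for `e₀(3, n)`
-/

open Set

namespace H20

section General

variable {ι : Type*}

/-- A strict maximum over the family is a strict maximum over the convex hull. -/
lemma strict_max_hull (q : ι → Fin 3 → ℝ) (f : (Fin 3 → ℝ) →ₗ[ℝ] ℝ) (i : ι)
    (h : ∀ k, k ≠ i → f (q k) < f (q i)) :
    ∀ z ∈ convexHull ℝ (range q), z ≠ q i → f z < f (q i) := by
  classical
  intro z hz hne
  by_cases hsub : (q '' {k | k ≠ i}).Nonempty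
  · have hr : range q = insert (q i) (q '' {k | k ≠ i}) := by
      ext x
      constructor
      · rintro ⟨k, rfl⟩
        by_cases hk : k = i
        · left; rw [hk]
        · right; exact ⟨k, hk, rfl⟩
      · rintro (rfl | ⟨k, _, rfl⟩)
        · exact ⟨i, rfl⟩
        · exact ⟨k, rfl⟩
    rw [hr, convexHull_insert hsub] at hz
    obtain ⟨x, hx, y, hy, hz⟩ := mem_convexJoin.1 hz
    have hx' : x = q i := by simpa using hx
    subst hx'
    have hconv : Convex ℝ {x : Fin 3 → ℝ | f x < f (q i)} := by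
      exact (convex_Iio (f (q i))).is_linear_preimage f.isLinear
    have hy' : f y < f (q i) := by
      have : convexHull ℝ (q '' {k | k ≠ i}) ⊆ {x : Fin 3 → ℝ | f x < f (q i)} :=
        convexHull_min (by rintro _ ⟨k, hk, rfl⟩; exact h k hk) hconv
      exact this hy
    obtain ⟨a, b, ha, hb, hab, rfl⟩ := hz
    have hb' : b ≠ 0 := by
      rintro rfl
      apply hne
      have : a = 1 := by linarith
      simp [this]
    have hbp : 0 < b := lt_of_le_of_ne hb (Ne.symm hb')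
    rw [map_add, map_smul, map_smul, smul_eq_mul, smul_eq_mul]
    have ha' : a = 1 - b := by linarith
    subst ha'
    nlinarith
  · have hr : range q = {q i} := by
      ext x
      constructor
      · rintro ⟨k, rfl⟩
        by_cases hk : k = i
        · rw [hk]; rfl
        · exact absurd ⟨q k, k, hk, rfl⟩ hsub
      · rintro rfl
        exact ⟨i, rfl⟩
    rw [hr, convexHull_singleton] at hz
    exact absurd hz hne

lemma Antip.symm {q : ι → Fin 3 → ℝ} {i j : ι} (h : Antip q i j) : Antip q j i := by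
  obtain ⟨hne, f, h1, h2⟩ := h
  refine ⟨hne.symm, -f, ?_, ?_⟩
  · intro k hk
    have := h2 k hk
    simpa using this
  · intro k hk
    have := h1 k hk
    simpa using this

lemma Antip.zeroAntipodal {q : ι → Fin 3 → ℝ} {i j : ι} (h : Antip q i j) :
    ZeroAntipodal (convexHull ℝ (range q)) (q i) (q j) := by
  obtain ⟨hne, f, h1, h2⟩ := h
  refine ⟨subset_convexHull ℝ _ ⟨i, rfl⟩, subset_convexHull ℝ _ ⟨j, rfl⟩, ?_, f, ?_, ?_⟩
  · intro he
    have := h1 j (Ne.symm hne)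
    rw [he] at this
    exact lt_irrefl _ this
  · exact strict_max_hull q f i h1
  · intro z hz hzne
    have := strict_max_hull q (-f) j (fun k hk => by simpa using h2 k hk) z hz hzne
    simpa using this

lemma Antip.extreme {q : ι → Fin 3 → ℝ} {i j : ι} (h : Antip q i j) :
    q i ∈ (convexHull ℝ (range q)).extremePoints ℝ := by
  obtain ⟨hne, f, h1, h2⟩ := h
  have hmax := strict_max_hull q f i h1
  rw [mem_extremePoints]
  refine ⟨subset_convexHull ℝ _ ⟨i, rfl⟩, ?_⟩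
  intro x hx y hy hseg
  obtain ⟨a, b, ha, hb, hab, he⟩ := hseg
  have hfx : f x ≤ f (q i) := by
    by_cases hxe : x = q i
    · rw [hxe]
    · exact (hmax x hx hxe).le
  have hfy : f y ≤ f (q i) := by
    by_cases hye : y = q i
    · rw [hye]
    · exact (hmax y hy hye).le
  have hf : a * f x + b * f y = f (q i) := by
    rw [← he]; simp
  have ha' : a = 1 - b := by linarith
  subst ha'
  constructor
  · by_contra hxe
    have := hmax x hx hxe
    nlinarith
  · by_contra hye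
    have := hmax y hy hye
    nlinarith

/-- General reduction. -/
theorem polytope_of_family {n : ℕ} (q : Fin n → Fin 3 → ℝ)
    (hall : ∀ i, ∃ j, Antip q i j)
    (hint : (interior (convexHull ℝ (range q))).Nonempty)
    (A : Finset (Fin n × Fin n)) (hA : ∀ p ∈ A, p.1 < p.2 ∧ Antip q p.1 p.2) :
    ∃ K : Set (Fin 3 → ℝ), IsPolytope 3 n K ∧ A.card ≤ (antipodalPairs K).ncard := by
  classical
  have hinj : Function.Injective q := by
    intro i k hik
    by_contra hne
    obtain ⟨j, _, f, h1, _⟩ := hall i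
    have := h1 k (Ne.symm hne)
    rw [hik] at this
    exact lt_irrefl _ this
  have hext : (convexHull ℝ (range q)).extremePoints ℝ = range q := by
    apply Subset.antisymm
    · exact extremePoints_convexHull_subset
    · rintro _ ⟨i, rfl⟩
      obtain ⟨j, hj⟩ := hall i
      exact hj.extreme
  refine ⟨convexHull ℝ (range q), ⟨⟨range q, finite_range q, rfl⟩, hint, ?_⟩, ?_⟩
  · rw [hext, ← image_univ, ncard_image_of_injective _ hinj, ncard_univ]
    simp
  · have hfin : (antipodalPairs (convexHull ℝ (range q))).Finite := by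
      apply Set.Finite.subset (s := (fun p : (Fin 3 → ℝ) × (Fin 3 → ℝ) => s(p.1, p.2)) ''
        ((range q) ×ˢ (range q)))
      · exact ((finite_range q).prod (finite_range q)).image _
      · rintro e ⟨x, y, rfl, hx, hy, _⟩
        rw [hext] at hx hy
        exact ⟨(x, y), ⟨hx, hy⟩, rfl⟩
    have hsub : (fun p : Fin n × Fin n => s(q p.1, q p.2)) '' (A : Set (Fin n × Fin n)) ⊆
        antipodalPairs (convexHull ℝ (range q)) := by
      rintro _ ⟨p, hp, rfl⟩
      obtain ⟨_, hp2⟩ := hA p hp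
      exact ⟨q p.1, q p.2, rfl, hp2.extreme, hp2.symm.extreme, hp2.zeroAntipodal⟩
    have hinj2 : InjOn (fun p : Fin n × Fin n => s(q p.1, q p.2)) (A : Set (Fin n × Fin n)) := by
      intro p hp p' hp' he
      have h1 := (hA p hp).1
      have h2 := (hA p' hp').1
      simp only [Sym2.eq_iff] at he
      rcases he with ⟨ha, hb⟩ | ⟨ha, hb⟩
      · exact Prod.ext (hinj ha) (hinj hb)
      · have ha' := hinj ha
        have hb' := hinj hb
        rw [ha', hb'] at h1
        exact absurd h1 (not_lt.2 h2.le)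
    calc A.card = (A : Set (Fin n × Fin n)).ncard := (ncard_coe_finset A).symm
      _ = ((fun p : Fin n × Fin n => s(q p.1, q p.2)) '' (A : Set (Fin n × Fin n))).ncard :=
        hinj2.ncard_image.symm
      _ ≤ _ := ncard_le_ncard hsub hfin

end General

section Family

/-- The points of the cluster `i`. -/
noncomputable def Pc (i : Fin 3) (s : ℝ) : Fin 3 → ℝ :=
  fun m => if m = i then 1 - (2 / 5) * s - s ^ 2 else if m = i + 1 then -s else s / 2

/-- Linear functionals in rotated coordinates. -/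
noncomputable def Ff (i : Fin 3) (c0 c1 c2 : ℝ) : (Fin 3 → ℝ) →ₗ[ℝ] ℝ :=
  c0 • LinearMap.proj i + c1 • LinearMap.proj (i + 1) + c2 • LinearMap.proj (i + 2)

lemma Ff_P0 (i : Fin 3) (c0 c1 c2 s : ℝ) :
    Ff i c0 c1 c2 (Pc i s) = c0 * (1 - (2 / 5) * s - s ^ 2) - c1 * s + c2 * (s / 2) := by
  fin_cases i <;> simp [Ff, Pc] <;> ring

lemma Ff_P1 (i : Fin 3) (c0 c1 c2 s : ℝ) :
    Ff i c0 c1 c2 (Pc (i + 1) s) = c1 * (1 - (2 / 5) * s - s ^ 2) - c2 * s + c0 * (s / 2) := by
  fin_cases i <;> simp [Ff, Pc] <;> ring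

lemma Ff_P2 (i : Fin 3) (c0 c1 c2 s : ℝ) :
    Ff i c0 c1 c2 (Pc (i + 2) s) = c2 * (1 - (2 / 5) * s - s ^ 2) - c0 * s + c1 * (s / 2) := by
  fin_cases i <;> simp [Ff, Pc] <;> ring

/-- The functional for a pair of points of two different clusters. -/
noncomputable def Fpair (i : Fin 3) (s t : ℝ) : (Fin 3 → ℝ) →ₗ[ℝ] ℝ :=
  Ff i (24 + 20 * t) (-(3 + 40 * s)) (66 / 5 + 16 * s + 16 * t + 80 * s * t)

/-- The functional for a pair consisting of a cluster point and the apex. -/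
noncomputable def Fapex (i : Fin 3) (s : ℝ) : (Fin 3 → ℝ) →ₗ[ℝ] ℝ :=
  Ff i 10 (1 / 2) (9 + 40 * s)

lemma Fpair_P0 (i : Fin 3) (s t x : ℝ) :
    Fpair i s t (Pc i x) = (24 + 20 * t) * (1 + s ^ 2 - (x - s) ^ 2) := by
  rw [Fpair, Ff_P0]; ring

lemma Fpair_P1 (i : Fin 3) (s t x : ℝ) :
    Fpair i s t (Pc (i + 1) x) = -(3 + 40 * s) * (1 + t ^ 2 - (x - t) ^ 2) := by
  rw [Fpair, Ff_P1]; ring

lemma Fpair_P2 (i : Fin 3) {s t x : ℝ} (hs : 0 ≤ s) (hs' : s ≤ 1 / 100) (ht : 0 ≤ t)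
    (ht' : t ≤ 1 / 100) (hx : 0 ≤ x) (hx' : x ≤ 1 / 100) :
    0 < Fpair i s t (Pc (i + 2) x) ∧ Fpair i s t (Pc (i + 2) x) < 20 := by
  rw [Fpair, Ff_P2]
  have hst : 0 ≤ s * t := mul_nonneg hs ht
  have hst' : s * t ≤ 1 / 10000 := by nlinarith
  have htx : 0 ≤ t * x := mul_nonneg ht hx
  have htx' : t * x ≤ 1 / 10000 := by nlinarith
  have hsx : 0 ≤ s * x := mul_nonneg hs hx
  have hsx' : s * x ≤ 1 / 10000 := by nlinarith
  have hxx : 0 ≤ x ^ 2 := sq_nonneg x
  have hxx' : x ^ 2 ≤ 1 / 10000 := by nlinarith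
  have e1 : 1 - 2 / 5 * x - x ^ 2 ≤ 1 := by linarith
  have e2 : 99 / 100 ≤ 1 - 2 / 5 * x - x ^ 2 := by linarith
  have c2a : 13 ≤ 66 / 5 + 16 * s + 16 * t + 80 * s * t := by nlinarith
  have c2b : 66 / 5 + 16 * s + 16 * t + 80 * s * t ≤ 14 := by nlinarith
  have m1 : (66 / 5 + 16 * s + 16 * t + 80 * s * t) * (1 - 2 / 5 * x - x ^ 2) ≤ 14 := by nlinarith
  have m2 : 12 ≤ (66 / 5 + 16 * s + 16 * t + 80 * s * t) * (1 - 2 / 5 * x - x ^ 2) := by nlinarith
  constructor <;> nlinarith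

lemma Fapex_P0 (i : Fin 3) (s x : ℝ) :
    Fapex i s (Pc i x) = 10 * (1 + s ^ 2 - (x - s) ^ 2) := by
  rw [Fapex, Ff_P0]; ring

lemma Fapex_P1 (i : Fin 3) {s x : ℝ} (hs : 0 ≤ s) (hs' : s ≤ 1 / 100) (hx : 0 ≤ x)
    (hx' : x ≤ 1 / 100) :
    0 < Fapex i s (Pc (i + 1) x) ∧ Fapex i s (Pc (i + 1) x) < 10 := by
  rw [Fapex, Ff_P1]
  have hsx : 0 ≤ s * x := mul_nonneg hs hx
  have hsx' : s * x ≤ 1 / 10000 := by nlinarith
  have hxx : 0 ≤ x ^ 2 := sq_nonneg x
  have hxx' : x ^ 2 ≤ 1 / 10000 := by nlinarith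
  constructor <;> nlinarith

lemma Fapex_P2 (i : Fin 3) {s x : ℝ} (hs : 0 ≤ s) (hs' : s ≤ 1 / 100) (hx : 0 ≤ x)
    (hx' : x ≤ 1 / 100) :
    0 < Fapex i s (Pc (i + 2) x) ∧ Fapex i s (Pc (i + 2) x) < 10 := by
  rw [Fapex, Ff_P2]
  have hsx : 0 ≤ s * x := mul_nonneg hs hx
  have hsx' : s * x ≤ 1 / 10000 := by nlinarith
  have hxx : 0 ≤ x ^ 2 := sq_nonneg x
  have hxx' : x ^ 2 ≤ 1 / 10000 := by nlinarith
  have hsxx : 0 ≤ s * x ^ 2 := mul_nonneg hs hxx
  have hsxx' : s * x ^ 2 ≤ 1 / 1000000 := by nlinarith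
  constructor <;> nlinarith

/-- cluster index -/
def cl (k : ℕ) : Fin 3 := ⟨k % 3, Nat.mod_lt _ (by norm_num)⟩

/-- parameter -/
noncomputable def sp (N k : ℕ) : ℝ := ((k / 3 : ℕ) : ℝ) / (100 * N)

lemma sp_nonneg (N k : ℕ) : 0 ≤ sp N k := by unfold sp; positivity

lemma sp_le {N k : ℕ} (hk : k < N) : sp N k ≤ 1 / 100 := by
  unfold sp
  have hN : (0 : ℝ) < N := by exact_mod_cast (lt_of_le_of_lt (Nat.zero_le k) hk)
  rw [div_le_div_iff₀ (by positivity) (by norm_num)]
  have : ((k / 3 : ℕ) : ℝ) ≤ N := by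
    exact_mod_cast (le_trans (Nat.div_le_self k 3) hk.le)
  nlinarith

lemma sp_inj {N j k : ℕ} (hN : 0 < N) (h : cl j = cl k) (hs : sp N j = sp N k) : j = k := by
  unfold sp at hs
  have hN' : (0 : ℝ) < N := by exact_mod_cast hN
  have h1 : ((j / 3 : ℕ) : ℝ) = ((k / 3 : ℕ) : ℝ) := by
    have h100 : (100 * (N : ℝ)) ≠ 0 := by positivity
    field_simp at hs
    exact hs
  have h2 : j / 3 = k / 3 := by exact_mod_cast h1
  have h3 : j % 3 = k % 3 := by simpa [cl, Fin.ext_iff] using h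
  omega

/-- The family of points. -/
noncomputable def qq (N : ℕ) (k : Fin (N + 1)) : Fin 3 → ℝ :=
  if (k : ℕ) = N then 0 else Pc (cl k) (sp N k)

lemma three_cases (i j : Fin 3) : j = i ∨ j = i + 1 ∨ j = i + 2 := by
  revert i j; decide

lemma qq_apex {N : ℕ} (k : Fin (N + 1)) (hk : (k : ℕ) = N) : qq N k = 0 := by simp [qq, hk]

lemma qq_ne {N : ℕ} (k : Fin (N + 1)) (hk : (k : ℕ) ≠ N) : qq N k = Pc (cl k) (sp N k) := by
  simp [qq, hk]

lemma lt_of_ne_last {N : ℕ} (k : Fin (N + 1)) (hk : (k : ℕ) ≠ N) : (k : ℕ) < N := by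
  have := k.2; omega

lemma antip_pair {N : ℕ} (j k : Fin (N + 1)) (hj : (j : ℕ) ≠ N) (hk : (k : ℕ) ≠ N)
    (h : cl k = cl j + 1) : Antip (qq N) j k := by
  have hjN := lt_of_ne_last j hj
  have hkN := lt_of_ne_last k hk
  have hN : 0 < N := lt_of_le_of_lt (Nat.zero_le _) hjN
  have hs := sp_nonneg N j
  have hs' := sp_le hjN
  have ht := sp_nonneg N k
  have ht' := sp_le hkN
  refine ⟨?_, Fpair (cl j) (sp N j) (sp N k), ?_, ?_⟩
  · rintro rfl
    revert h
    generalize cl (j : ℕ) = c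
    revert c
    decide
  · intro m hm
    rw [qq_ne j hj, Fpair_P0]
    have hbase : 24 ≤ (24 + 20 * sp N k) * (1 + sp N j ^ 2 - (sp N j - sp N j) ^ 2) := by
      nlinarith [sq_nonneg (sp N j), mul_nonneg ht (sq_nonneg (sp N j))]
    by_cases hmN : (m : ℕ) = N
    · rw [qq_apex m hmN, map_zero]
      linarith
    · have hmN' := lt_of_ne_last m hmN
      have hx := sp_nonneg N m
      have hx' := sp_le hmN'
      rw [qq_ne m hmN]
      rcases three_cases (cl j) (cl m) with hc | hc | hc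
      · rw [hc, Fpair_P0]
        have hne : sp N m ≠ sp N j := by
          intro he
          exact hm (Fin.ext (sp_inj hN hc he))
        have hpos : 0 < (sp N m - sp N j) ^ 2 := by
          have : sp N m - sp N j ≠ 0 := sub_ne_zero.2 hne
          positivity
        have hc0 : 0 < 24 + 20 * sp N k := by linarith
        nlinarith [mul_pos hc0 hpos]
      · rw [hc, Fpair_P1]
        have h1 : 0 < 1 + sp N k ^ 2 - (sp N m - sp N k) ^ 2 := by
          nlinarith [mul_nonneg hx ht, mul_nonneg hx hx]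
        have h2 : 0 < 3 + 40 * sp N j := by linarith
        nlinarith [mul_pos h2 h1]
      · rw [hc]
        have := (Fpair_P2 (cl j) hs hs' ht ht' hx hx').2
        linarith
  · intro m hm
    have hkP : Fpair (cl j) (sp N j) (sp N k) (qq N k) =
        -(3 + 40 * sp N j) * (1 + sp N k ^ 2 - (sp N k - sp N k) ^ 2) := by
      rw [qq_ne k hk, h, Fpair_P1]
    rw [hkP]
    have hneg : -(3 + 40 * sp N j) * (1 + sp N k ^ 2 - (sp N k - sp N k) ^ 2) < 0 := by
      have h2 : 0 < 3 + 40 * sp N j := by linarith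
      have h1 : 0 < 1 + sp N k ^ 2 - (sp N k - sp N k) ^ 2 := by nlinarith [sq_nonneg (sp N k)]
      nlinarith [mul_pos h2 h1]
    by_cases hmN : (m : ℕ) = N
    · rw [qq_apex m hmN, map_zero]
      exact hneg
    · have hmN' := lt_of_ne_last m hmN
      have hx := sp_nonneg N m
      have hx' := sp_le hmN'
      rw [qq_ne m hmN]
      rcases three_cases (cl j) (cl m) with hc | hc | hc
      · rw [hc, Fpair_P0]
        have h1 : 0 < 1 + sp N j ^ 2 - (sp N m - sp N j) ^ 2 := by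
          nlinarith [mul_nonneg hx hs, mul_nonneg hx hx]
        have h2 : 0 < 24 + 20 * sp N k := by linarith
        have := mul_pos h2 h1
        linarith
      · rw [hc, Fpair_P1]
        have hne : sp N m ≠ sp N k := by
          intro he
          exact hm (Fin.ext (sp_inj hN (by rw [hc, h]) he))
        have hpos : 0 < (sp N m - sp N k) ^ 2 := by
          have : sp N m - sp N k ≠ 0 := sub_ne_zero.2 hne
          positivity
        have hc0 : 0 < 3 + 40 * sp N j := by linarith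
        nlinarith [mul_pos hc0 hpos]
      · rw [hc]
        have := (Fpair_P2 (cl j) hs hs' ht ht' hx hx').1
        linarith

lemma antip_apex {N : ℕ} (j k : Fin (N + 1)) (hj : (j : ℕ) ≠ N) (hk : (k : ℕ) = N) :
    Antip (qq N) j k := by
  have hjN := lt_of_ne_last j hj
  have hN : 0 < N := lt_of_le_of_lt (Nat.zero_le _) hjN
  have hs := sp_nonneg N j
  have hs' := sp_le hjN
  refine ⟨?_, Fapex (cl j) (sp N j), ?_, ?_⟩
  · rintro rfl
    exact hj hk
  · intro m hm
    rw [qq_ne j hj, Fapex_P0]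
    have hbase : 10 ≤ 10 * (1 + sp N j ^ 2 - (sp N j - sp N j) ^ 2) := by
      nlinarith [sq_nonneg (sp N j)]
    by_cases hmN : (m : ℕ) = N
    · rw [qq_apex m hmN, map_zero]
      linarith
    · have hmN' := lt_of_ne_last m hmN
      have hx := sp_nonneg N m
      have hx' := sp_le hmN'
      rw [qq_ne m hmN]
      rcases three_cases (cl j) (cl m) with hc | hc | hc
      · rw [hc, Fapex_P0]
        have hne : sp N m ≠ sp N j := by
          intro he
          exact hm (Fin.ext (sp_inj hN hc he))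
        have hpos : 0 < (sp N m - sp N j) ^ 2 := by
          have : sp N m - sp N j ≠ 0 := sub_ne_zero.2 hne
          positivity
        nlinarith
      · rw [hc]
        have := (Fapex_P1 (cl j) hs hs' hx hx').2
        linarith
      · rw [hc]
        have := (Fapex_P2 (cl j) hs hs' hx hx').2
        linarith
  · intro m hm
    have hmN : (m : ℕ) ≠ N := by
      intro h
      exact hm (Fin.ext (h.trans hk.symm))
    rw [qq_apex k hk, map_zero]
    have hmN' := lt_of_ne_last m hmN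
    have hx := sp_nonneg N m
    have hx' := sp_le hmN'
    rw [qq_ne m hmN]
    rcases three_cases (cl j) (cl m) with hc | hc | hc
    · rw [hc, Fapex_P0]
      nlinarith [mul_nonneg hx hs, mul_nonneg hx hx]
    · rw [hc]
      exact (Fapex_P1 (cl j) hs hs' hx hx').1
    · rw [hc]
      exact (Fapex_P2 (cl j) hs hs' hx hx').1

lemma affineSpan_top_of {S : Set (Fin 3 → ℝ)} (hS : S.Nonempty)
    (h : ∀ m : Fin 3, (Pi.single m 1 : Fin 3 → ℝ) ∈ vectorSpan ℝ S) : affineSpan ℝ S = ⊤ := by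
  rw [AffineSubspace.affineSpan_eq_top_iff_vectorSpan_eq_top_of_nonempty _ _ _ hS]
  rw [Submodule.eq_top_iff']
  intro x
  have hx : x = x 0 • (Pi.single 0 1 : Fin 3 → ℝ) + x 1 • (Pi.single 1 1 : Fin 3 → ℝ) +
      x 2 • (Pi.single 2 1 : Fin 3 → ℝ) := by
    ext m
    fin_cases m <;> simp
  rw [hx]
  exact add_mem (add_mem (Submodule.smul_mem _ _ (h 0)) (Submodule.smul_mem _ _ (h 1)))
    (Submodule.smul_mem _ _ (h 2))

lemma sp_zero_of_lt (N : ℕ) {k : ℕ} (hk : k < 3) : sp N k = 0 := by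
  have : k / 3 = 0 := by omega
  simp [sp, this]

lemma Pc_zero (i : Fin 3) : Pc i 0 = Pi.single i 1 := by
  ext m
  fin_cases i <;> fin_cases m <;> simp [Pc]

lemma qq_interior {N : ℕ} (hN : 3 ≤ N) :
    (interior (convexHull ℝ (range (qq N)))).Nonempty := by
  rw [interior_convexHull_nonempty_iff_affineSpan_eq_top]
  refine affineSpan_top_of ⟨_, ⟨0, rfl⟩⟩ ?_
  intro m
  have h0 : (0 : Fin 3 → ℝ) ∈ range (qq N) := ⟨⟨N, by omega⟩, by simp [qq]⟩
  have h1 : (Pi.single m 1 : Fin 3 → ℝ) ∈ range (qq N) := by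
    have hm := m.2
    refine ⟨⟨(m : ℕ), by omega⟩, ?_⟩
    rw [qq_ne _ (by simp; omega)]
    have hcl : cl (m : ℕ) = m := by
      ext
      simp [cl, Nat.mod_eq_of_lt hm]
    simp only
    rw [hcl, sp_zero_of_lt N hm, Pc_zero]
  have := vsub_mem_vectorSpan ℝ h1 h0
  simpa using this

/-- the pairs -/
def AA (N : ℕ) : Finset (Fin (N + 1) × Fin (N + 1)) :=
  Finset.univ.filter (fun p => p.1 < p.2 ∧ ((p.2 : ℕ) = N ∨ (p.1 : ℕ) % 3 ≠ (p.2 : ℕ) % 3))

lemma AA_antip {N : ℕ} : ∀ p ∈ AA N, p.1 < p.2 ∧ Antip (qq N) p.1 p.2 := by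
  rintro ⟨j, k⟩ hp
  simp only [AA, Finset.mem_filter, Finset.mem_univ, true_and] at hp
  obtain ⟨hlt, hor⟩ := hp
  refine ⟨hlt, ?_⟩
  have hlt' : (j : ℕ) < k := hlt
  have hk := k.2
  have hj : (j : ℕ) ≠ N := by omega
  by_cases hkN : (k : ℕ) = N
  · exact antip_apex j k hj hkN
  · have hres : (j : ℕ) % 3 ≠ (k : ℕ) % 3 := by
      rcases hor with h | h
      · exact absurd h hkN
      · exact h
    rcases three_cases (cl j) (cl k) with h | h | h
    · exfalso
      apply hres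
      simpa [cl, Fin.ext_iff] using h.symm
    · exact antip_pair j k hj hkN h
    · apply Antip.symm
      apply antip_pair k j hkN hj
      rw [h]
      generalize cl (j : ℕ) = c
      revert c
      decide

lemma count_inner (m r : ℕ) (hr : r < 3) :
    ∑ j ∈ Finset.range (3 * m + r), (if j % 3 ≠ r then 1 else 0) = 2 * m + r := by
  induction m with
  | zero =>
    interval_cases r <;> decide
  | succ m ih =>
    have e : 3 * (m + 1) + r = (3 * m + r) + 1 + 1 + 1 := by ring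
    rw [e, Finset.sum_range_succ, Finset.sum_range_succ, Finset.sum_range_succ, ih]
    have h1 : (3 * m + r) % 3 = r := by omega
    have h2 : (3 * m + r + 1) % 3 ≠ r := by omega
    have h3 : (3 * m + r + 1 + 1) % 3 ≠ r := by omega
    rw [if_neg (by simpa using h1), if_pos h2, if_pos h3]
    ring

lemma count_inner' (k : ℕ) :
    ∑ j ∈ Finset.range k, (if j % 3 ≠ k % 3 then 1 else 0) = k - k / 3 := by
  have h := count_inner (k / 3) (k % 3) (Nat.mod_lt _ (by norm_num))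
  rw [Nat.div_add_mod] at h
  rw [h]
  omega

lemma sum_count (N : ℕ) : ∑ k ∈ Finset.range N, (k - k / 3) = N * N / 3 := by
  induction N with
  | zero => simp
  | succ N ih =>
    rw [Finset.sum_range_succ, ih]
    obtain ⟨m, r, hr, rfl⟩ : ∃ m r, r < 3 ∧ N = 3 * m + r :=
      ⟨N / 3, N % 3, Nat.mod_lt _ (by norm_num), (Nat.div_add_mod N 3).symm⟩
    interval_cases r
    · have e1 : (3 * m + 0) * (3 * m + 0) = 3 * (3 * (m * m)) := by ring
      have e2 : (3 * m + 0 + 1) * (3 * m + 0 + 1) = 3 * (3 * (m * m) + 2 * m) + 1 := by ring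
      rw [e1, e2]
      generalize m * m = t
      omega
    · have e1 : (3 * m + 1) * (3 * m + 1) = 3 * (3 * (m * m) + 2 * m) + 1 := by ring
      have e2 : (3 * m + 1 + 1) * (3 * m + 1 + 1) = 3 * (3 * (m * m) + 4 * m + 1) + 1 := by ring
      rw [e1, e2]
      generalize m * m = t
      omega
    · have e1 : (3 * m + 2) * (3 * m + 2) = 3 * (3 * (m * m) + 4 * m + 1) + 1 := by ring
      have e2 : (3 * m + 2 + 1) * (3 * m + 2 + 1) = 3 * (3 * (m * m) + 6 * m + 3) := by ring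
      rw [e1, e2]
      generalize m * m = t
      omega

lemma AA_card (N : ℕ) : (AA N).card = N * N / 3 + N := by
  have h1 : (AA N).card = ∑ k : Fin (N + 1), ∑ j : Fin (N + 1),
      (if (j : ℕ) < k ∧ ((k : ℕ) = N ∨ (j : ℕ) % 3 ≠ (k : ℕ) % 3) then 1 else 0) := by
    rw [AA, Finset.card_filter, Fintype.sum_prod_type_right]
    rfl
  rw [h1]
  rw [Fin.sum_univ_eq_sum_range (fun k => ∑ j : Fin (N + 1),
      (if (j : ℕ) < k ∧ (k = N ∨ (j : ℕ) % 3 ≠ k % 3) then 1 else 0)) (N + 1)]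
  have h2 : ∀ k ∈ Finset.range (N + 1), (∑ j : Fin (N + 1),
      (if (j : ℕ) < k ∧ (k = N ∨ (j : ℕ) % 3 ≠ k % 3) then 1 else 0)) =
      ∑ j ∈ Finset.range k, (if k = N ∨ j % 3 ≠ k % 3 then 1 else 0) := by
    intro k hk
    rw [Fin.sum_univ_eq_sum_range (fun j =>
      (if j < k ∧ (k = N ∨ j % 3 ≠ k % 3) then 1 else 0)) (N + 1)]
    have hsub : Finset.range k ⊆ Finset.range (N + 1) := by
      intro x hx
      simp only [Finset.mem_range] at *
      omega
    rw [← Finset.sum_subset hsub]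
    · apply Finset.sum_congr rfl
      intro j hj
      have : j < k := Finset.mem_range.1 hj
      simp [this]
    · intro j _ hj
      have : ¬ j < k := by simpa using hj
      simp [this]
  rw [Finset.sum_congr rfl h2, Finset.sum_range_succ]
  have h3 : ∑ k ∈ Finset.range N, ∑ j ∈ Finset.range k,
      (if k = N ∨ j % 3 ≠ k % 3 then 1 else 0) = N * N / 3 := by
    rw [← sum_count]
    apply Finset.sum_congr rfl
    intro k hk
    have hk' : k ≠ N := (Finset.mem_range.1 hk).ne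
    rw [← count_inner' k]
    apply Finset.sum_congr rfl
    intro j _
    simp [hk']
  rw [h3]
  simp

theorem exists_family (N : ℕ) (hN : 3 ≤ N) :
    ∃ K : Set (Fin 3 → ℝ), IsPolytope 3 (N + 1) K ∧
      N * N / 3 + N ≤ (antipodalPairs K).ncard := by
  have := polytope_of_family (qq N) ?_ (qq_interior hN) (AA N) AA_antip
  · rwa [AA_card] at this
  · intro i
    by_cases hi : (i : ℕ) = N
    · exact ⟨0, (antip_apex 0 i (by simp; omega) hi).symm⟩
    · exact ⟨⟨N, by omega⟩, antip_apex i _ hi rfl⟩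

end Family

section Small

/-- real family from an integral one -/
def qR {n : ℕ} (q : Fin n → Fin 3 → ℤ) (k : Fin n) : Fin 3 → ℝ := fun m => (q k m : ℝ)

lemma antip_of_int {n : ℕ} (q : Fin n → Fin 3 → ℤ) (c : Fin 3 → ℤ) (i j : Fin n)
    (h : i ≠ j ∧ (∀ k, k ≠ i → c 0 * q k 0 + c 1 * q k 1 + c 2 * q k 2 <
        c 0 * q i 0 + c 1 * q i 1 + c 2 * q i 2) ∧
      (∀ k, k ≠ j → c 0 * q j 0 + c 1 * q j 1 + c 2 * q j 2 <
        c 0 * q k 0 + c 1 * q k 1 + c 2 * q k 2)) : Antip (qR q) i j := by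
  refine ⟨h.1, (c 0 : ℝ) • LinearMap.proj 0 + (c 1 : ℝ) • LinearMap.proj 1 +
    (c 2 : ℝ) • LinearMap.proj 2, ?_, ?_⟩
  · intro k hk
    have := h.2.1 k hk
    have h2 : ((c 0 * q k 0 + c 1 * q k 1 + c 2 * q k 2 : ℤ) : ℝ) <
        ((c 0 * q i 0 + c 1 * q i 1 + c 2 * q i 2 : ℤ) : ℝ) := by exact_mod_cast this
    push_cast at h2
    simpa [qR] using h2
  · intro k hk
    have := h.2.2 k hk
    have h2 : ((c 0 * q j 0 + c 1 * q j 1 + c 2 * q j 2 : ℤ) : ℝ) <
        ((c 0 * q k 0 + c 1 * q k 1 + c 2 * q k 2 : ℤ) : ℝ) := by exact_mod_cast this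
    push_cast at h2
    simpa [qR] using h2

lemma interior_of_comb {n : ℕ} (q : Fin n → Fin 3 → ℝ) (a b c d : Fin n)
    (w : Fin 3 → Fin 3 → ℝ)
    (h : ∀ m, w m 0 • (q b - q a) + w m 1 • (q c - q a) + w m 2 • (q d - q a) =
      (Pi.single m 1 : Fin 3 → ℝ)) :
    (interior (convexHull ℝ (range q))).Nonempty := by
  rw [interior_convexHull_nonempty_iff_affineSpan_eq_top]
  refine affineSpan_top_of ⟨_, ⟨a, rfl⟩⟩ ?_
  intro m
  rw [← h m]
  have hv : ∀ k, q k - q a ∈ vectorSpan ℝ (range q) := fun k =>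
    vsub_mem_vectorSpan ℝ ⟨k, rfl⟩ ⟨a, rfl⟩
  exact add_mem (add_mem (Submodule.smul_mem _ _ (hv b)) (Submodule.smul_mem _ _ (hv c)))
    (Submodule.smul_mem _ _ (hv d))

def q5 : Fin 5 → Fin 3 → ℤ := ![![1, 0, 0], ![0, 1, 0], ![-1, -1, 0], ![0, 0, 1], ![0, 0, -1]]

def c5 : Fin 5 → Fin 5 → Fin 3 → ℤ :=
![![![0, 0, 0], ![1, -1, 0], ![1, 0, 0], ![4, -2, -3], ![4, -2, 3]],
  ![![0, 0, 0], ![0, 0, 0], ![0, 1, 0], ![-2, 4, -3], ![-2, 4, 3]],
  ![![0, 0, 0], ![0, 0, 0], ![0, 0, 0], ![-2, -2, -3], ![-2, -2, 3]],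
  ![![0, 0, 0], ![0, 0, 0], ![0, 0, 0], ![0, 0, 0], ![0, 0, 1]],
  ![![0, 0, 0], ![0, 0, 0], ![0, 0, 0], ![0, 0, 0], ![0, 0, 0]]]

def A5 : Finset (Fin 5 × Fin 5) := Finset.univ.filter (fun p => p.1 < p.2)

def q6 : Fin 6 → Fin 3 → ℤ :=
  ![![4, 2, -5], ![6, 3, 2], ![-7, -1, -5], ![-4, 6, 2], ![-1, -3, 8], ![2, -7, -1]]

def c6 : Fin 6 → Fin 6 → Fin 3 → ℤ :=
![![![0, 0, 0], ![0, 0, 0], ![3, 0, -1], ![2, -1, -2], ![1, 1, -1], ![3, 7, -2]],
  ![![0, 0, 0], ![0, 0, 0], ![1, 1, 1], ![6, -2, -1], ![3, 3, -1], ![1, 2, 0]],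
  ![![0, 0, 0], ![0, 0, 0], ![0, 0, 0], ![-1, -4, -4], ![-1, 1, -1], ![-3, 2, -1]],
  ![![0, 0, 0], ![0, 0, 0], ![0, 0, 0], ![0, 0, 0], ![0, 2, -1], ![-1, 1, 0]],
  ![![0, 0, 0], ![0, 0, 0], ![0, 0, 0], ![0, 0, 0], ![0, 0, 0], ![-1, 3, 6]],
  ![![0, 0, 0], ![0, 0, 0], ![0, 0, 0], ![0, 0, 0], ![0, 0, 0], ![0, 0, 0]]]

def A6 : Finset (Fin 6 × Fin 6) := Finset.univ.filter (fun p => p.1 < p.2 ∧ p ≠ (0, 1))

theorem exists_five : ∃ K : Set (Fin 3 → ℝ), IsPolytope 3 5 K ∧
    10 ≤ (antipodalPairs K).ncard := by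
  have hA : ∀ p ∈ A5, p.1 < p.2 ∧ Antip (qR q5) p.1 p.2 := by
    intro p hp
    refine ⟨by simpa [A5] using hp, ?_⟩
    refine antip_of_int q5 (c5 p.1 p.2) p.1 p.2 ?_
    revert p
    decide
  have := polytope_of_family (qR q5) ?_ ?_ A5 hA
  · have hc : A5.card = 10 := by decide
    rwa [hc] at this
  · intro i
    by_cases hi : i = 0
    · subst hi
      exact ⟨1, (hA (0, 1) (by decide)).2⟩
    · have : (0, i) ∈ A5 := by
        revert i; decide
      exact ⟨0, (hA (0, i) this).2.symm⟩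
  · refine interior_of_comb (qR q5) 0 1 2 3 ![![-1 / 3, -1 / 3, 0], ![2 / 3, -1 / 3, 0], ![-1 / 3, -1 / 3, 1]] ?_
    intro m
    ext r
    fin_cases m <;> fin_cases r <;> simp [qR, q5] <;> norm_num

theorem exists_six : ∃ K : Set (Fin 3 → ℝ), IsPolytope 3 6 K ∧
    14 ≤ (antipodalPairs K).ncard := by
  have hA : ∀ p ∈ A6, p.1 < p.2 ∧ Antip (qR q6) p.1 p.2 := by
    intro p hp
    refine ⟨by simp [A6] at hp; exact hp.1, ?_⟩
    refine antip_of_int q6 (c6 p.1 p.2) p.1 p.2 ?_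
    revert p
    decide
  have := polytope_of_family (qR q6) ?_ ?_ A6 hA
  · have hc : A6.card = 14 := by decide
    rwa [hc] at this
  · intro i
    by_cases hi : i = 2
    · subst hi
      exact ⟨3, (hA (2, 3) (by decide)).2⟩
    · by_cases hi' : i < 2
      · have : (i, 2) ∈ A6 := by
          revert i; decide
        exact ⟨2, (hA (i, 2) this).2⟩
      · have : (2, i) ∈ A6 := by
          revert i; decide
        exact ⟨2, (hA (2, i) this).2.symm⟩
  · refine interior_of_comb (qR q6) 0 1 2 3 ![![1 / 21, -1 / 21, -1 / 21],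
      ![-11 / 63, -10 / 63, 11 / 63], ![68 / 441, 16 / 441, -5 / 441]] ?_
    intro m
    ext r
    fin_cases m <;> fin_cases r <;> simp [qR, q6] <;> norm_num

end Small

/-- The lower bound. -/
theorem exists_polytope (n : ℕ) (hn : 4 ≤ n) :
    ∃ K : Set (Fin 3 → ℝ), IsPolytope 3 n K ∧ e0val n ≤ (antipodalPairs K).ncard := by
  by_cases h5 : n = 5
  · subst h5
    simpa [e0val] using exists_five
  by_cases h6 : n = 6
  · subst h6
    simpa [e0val] using exists_six
  obtain ⟨N, rfl⟩ : ∃ N, n = N + 1 := ⟨n - 1, by omega⟩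
  obtain ⟨K, hK, hle⟩ := exists_family N (by omega)
  refine ⟨K, hK, le_trans ?_ hle⟩
  rw [e0val, if_neg h5, if_neg h6]
  have e : (N + 1 - 1) * (N + 1 + 2) = N * N + 3 * N := by
    rw [Nat.add_sub_cancel]; ring
  rw [e]
  omega

end H20
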