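import Pool.Agent.H20.Defs61d

/-!
# PART L (lower bound) of project MP_61d55c_co: statement to prove, and complete paper proof

TO PROVE (in `Pool/Agent/H20/Lower61d.lean`, importing `Pool.Agent.H20.Defs61d`):

```
theorem H20.exists_polytope (n : ℕ) (hn : 4 ≤ n) :
    ∃ K : Set (Fin 3 → ℝ), IsPolytope 3 n K ∧ e0val n ≤ (antipodalPairs K).ncard
```

General reduction (please prove first): if `q : Fin n → Fin 3 → ℝ` is such that every `i` has some
`j` with `Antip q i j` and the range of `q` affinely spans `ℝ³`, then `K = convexHull (range q)`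
is a polytope whose extreme points are exactly the `q i` (each `q i` is the unique maximiser or
minimiser of a linear functional; `q` injective), and `ZeroAntipodal K (q i) (q j)` iff
`Antip q i j` (a linear functional with strict max at `q i` over the points has its strict max
over the hull at `q i` only).  So `#antipodalPairs K ≥ #{i<j : Antip q i j}`.

## n ≥ 7 and n = 4 (all n except 5, 6).
N = n-1 = a+b+c with a,b,c ≥ 1 balanced (⌊N/3⌋, ⌊(N+1)/3⌋, ⌊(N+2)/3⌋), so ab+bc+ca+N = ⌊N(N+3)/3⌋ =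
⌊(n-1)(n+2)/3⌋.  Points: the origin `0` (the apex), and three clusters, indexed by `i ∈ Z/3`:
  P_i(s) = (1 - (2/5)s - s²) e_i - s e_{i+1} + (s/2) e_{i+2},
with s ranging over distinct values in [0, 1/100] (all different also between clusters if
you like, not needed).
0-antipodal pairs: (P_i(s), 0) for every point, and (P_i(s), P_{i+1}(t)) for all s in cluster i,
t in cluster i+1.  Functionals for i = 0 (coordinates (x_0,x_1,x_2); rotate cyclically for other i):
* pair (P_0(s), P_1(t)), max at P_0(s), min at P_1(t):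
    f = (c0,c1,c2), c0 = 24+20t, c1 = -(3+40s), c2 = 66/5+16s+16t+80st.
  Key identities: f(P_0(s')) = c0 (1 + s² - (s'-s)²)  [so strictly maximal at s'=s, and ≥ c0(1 - tiny)],
                  f(P_1(t')) = c1 (1 + t² - (t'-t)²)  [c1 < 0: strictly minimal at t'=t, negative],
  f(0) = 0, and 0 < f(P_2(r)) = c2(1-(2/5)r-r²) - r c0 + (r/2) c1 < c0(1 - 1/10000)  for s,t,r ∈ [0,1/100].
* pair (P_0(s), 0), max at P_0(s), min at 0:
    f = (10, 1/2, 9+40s):  f(P_0(s')) = 10 (1 + s² - (s'-s)²) [check: -(2/5)·10 s' - s'/2 + (9+40s)s'/2·… = 20 s s'/…;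
    the linear coefficient in s' of f(P_0(s')) is 20 s], and f > 0 on all cluster points, f(P_1(t)) and
    f(P_2(r)) are < 10·(1-1/10000) and > 0.
This was verified in exact rational arithmetic for several (a,b,c).
Affine span: the cluster points P_0(s), P_1(t), P_2(r) and 0 are affinely independent (near e_0,e_1,e_2,0).

## n = 5: (1,0,0),(0,1,0),(-1,-1,0),(0,0,1),(0,0,-1), all 10 pairs. (index pair: functional, argmax, argmin)
(0,1): (-1,1,0) 1 0; (0,2): (-1,0,0) 2 0; (0,3): (-4,2,3) 3 0; (0,4): (-4,2,-3) 4 0; (1,2): (0,-1,0) 2 1;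
(1,3): (-2,4,-3) 1 3; (1,4): (-2,4,3) 1 4; (2,3): (-2,-2,-3) 2 3; (2,4): (-2,-2,3) 2 4; (3,4): (0,0,-1) 4 3.

## n = 6: (4,2,-5),(6,3,2),(-7,-1,-5),(-4,6,2),(-1,-3,8),(2,-7,-1), all pairs except {0,1} (14 pairs):
(1,2): (-1,-1,-1) 2 1; (1,4): (-3,-3,1) 4 1; (0,4): (-1,-1,1) 4 0; (0,2): (-3,0,1) 2 0; (0,3): (-2,1,2) 3 0;
(2,4): (-1,1,-1) 2 4; (1,3): (-6,2,1) 3 1; (2,5): (-3,2,-1) 2 5; (3,5): (-1,1,0) 3 5; (1,5): (-1,-2,0) 5 1;
(3,4): (0,-2,1) 4 3; (0,5): (-3,-7,2) 5 0; (2,3): (-1,-4,-4) 2 3; (4,5): (-1,3,6) 4 5.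
-/
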