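import Pool.Agent.H20.Det61d

/-!
# Perturbation to general position
-/

namespace H20

open Filter Topology

/-- Moment curve. -/
def mom (t : ℝ) : Fin 3 → ℝ := ![t, t ^ 2, t ^ 3]

theorem D_mom (a b c d : ℝ) : D (mom a) (mom b) (mom c) (mom d) =
    (b - a) * (c - a) * (d - a) * (c - b) * (d - b) * (d - c) := by
  simp only [D, mom, Matrix.cons_val_zero, Matrix.cons_val_one, Matrix.cons_val]
  ring

theorem D_line (a b c d a' b' c' d' : Fin 3 → ℝ) : ∃ c1 c2 : ℝ, ∀ e : ℝ,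
    D (a + e • a') (b + e • b') (c + e • c') (d + e • d') =
      D a b c d + c1 * e + c2 * e ^ 2 + D a' b' c' d' * e ^ 3 := by
  refine ⟨(D (a + (1 : ℝ) • a') (b + (1 : ℝ) • b') (c + (1 : ℝ) • c')
        (d + (1 : ℝ) • d') - D (a + (-1 : ℝ) • a') (b + (-1 : ℝ) • b') (c + (-1 : ℝ) • c')
        (d + (-1 : ℝ) • d')) / 2 - D a' b' c' d',
      (D (a + (1 : ℝ) • a') (b + (1 : ℝ) • b') (c + (1 : ℝ) • c')
        (d + (1 : ℝ) • d') + D (a + (-1 : ℝ) • a') (b + (-1 : ℝ) • b') (c + (-1 : ℝ) • c')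
        (d + (-1 : ℝ) • d')) / 2 - D a b c d, fun e => ?_⟩
  simp only [D, Pi.add_apply, Pi.smul_apply, smul_eq_mul]
  ring

theorem finite_cubic (c0 c1 c2 c3 : ℝ) (h : c3 ≠ 0) :
    {e : ℝ | c0 + c1 * e + c2 * e ^ 2 + c3 * e ^ 3 = 0}.Finite := by
  set P : Polynomial ℝ := Polynomial.C c3 * Polynomial.X ^ 3 + Polynomial.C c2 * Polynomial.X ^ 2
    + Polynomial.C c1 * Polynomial.X + Polynomial.C c0 with hP
  have hP0 : P ≠ 0 := by
    intro h0
    have := Polynomial.natDegree_cubic (b := c2) (c := c1) (d := c0) h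
    rw [← hP, h0] at this
    simp at this
  refine (Polynomial.finite_setOfPred_isRoot hP0).subset ?_
  intro e he
  simp only [Set.mem_ofPred_eq, Polynomial.IsRoot.def] at he ⊢
  rw [hP]
  simp only [Polynomial.eval_add, Polynomial.eval_mul, Polynomial.eval_C, Polynomial.eval_pow,
    Polynomial.eval_X]
  linarith

theorem exists_general {n : ℕ} (v : Fin n → Fin 3 → ℝ) :
    ∃ q : Fin n → Fin 3 → ℝ, (∀ i j, Antip v i j → Antip q i j) ∧
      (∀ a b c d, a ≠ b → a ≠ c → a ≠ d → b ≠ c → b ≠ d → c ≠ d →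
        D (q a) (q b) (q c) (q d) ≠ 0) := by
  set q : ℝ → Fin n → Fin 3 → ℝ := fun e i => v i + e • mom (i : ℕ) with hq
  have h1 : ∀ᶠ e in 𝓝 (0 : ℝ), ∀ i j, Antip v i j → Antip (q e) i j := by
    rw [eventually_all]
    intro i
    rw [eventually_all]
    intro j
    by_cases hij : Antip v i j
    · obtain ⟨hne, f, hf1, hf2⟩ := hij
      have key : ∀ a b : Fin n, f (v a) < f (v b) → ∀ᶠ e in 𝓝 (0 : ℝ),
          f (q e a) < f (q e b) := by
        intro a b hab
        have hc : ∀ c : Fin n, Continuous fun e : ℝ => f (q e c) := by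
          intro c
          have : (fun e : ℝ => f (q e c)) = fun e => f (v c) + e * f (mom (c : ℕ)) := by
            funext e
            simp only [hq, map_add, map_smul, smul_eq_mul]
          rw [this]
          fun_prop
        have h0 : f (q 0 a) < f (q 0 b) := by simpa [hq] using hab
        exact (hc a).continuousAt.eventually_lt (hc b).continuousAt h0
      have e1 : ∀ᶠ e in 𝓝 (0 : ℝ), ∀ k, k ≠ i → f (q e k) < f (q e i) := by
        rw [eventually_all]
        intro k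
        by_cases hk : k = i
        · exact Eventually.of_forall fun e h => absurd hk h
        · exact (key k i (hf1 k hk)).mono fun e h _ => h
      have e2 : ∀ᶠ e in 𝓝 (0 : ℝ), ∀ k, k ≠ j → f (q e j) < f (q e k) := by
        rw [eventually_all]
        intro k
        by_cases hk : k = j
        · exact Eventually.of_forall fun e h => absurd hk h
        · exact (key j k (hf2 k hk)).mono fun e h _ => h
      filter_upwards [e1, e2] with e h1 h2 _
      exact ⟨hne, f, h1, h2⟩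
    · exact Eventually.of_forall fun e h => absurd h hij
  obtain ⟨δ, hδ, h2⟩ := Metric.eventually_nhds_iff.1 h1
  set bad : Set ℝ := ⋃ p : {p : Fin n × Fin n × Fin n × Fin n // p.1 ≠ p.2.1 ∧ p.1 ≠ p.2.2.1 ∧
    p.1 ≠ p.2.2.2 ∧ p.2.1 ≠ p.2.2.1 ∧ p.2.1 ≠ p.2.2.2 ∧ p.2.2.1 ≠ p.2.2.2},
    {e : ℝ | D (q e p.1.1) (q e p.1.2.1) (q e p.1.2.2.1) (q e p.1.2.2.2) = 0} with hbad
  have hfin : bad.Finite := by
    refine Set.finite_iUnion fun p => ?_
    obtain ⟨⟨a, b, c, d⟩, hab, hac, had, hbc, hbd, hcd⟩ := p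
    simp only at hab hac had hbc hbd hcd ⊢
    have cast : ∀ x y : Fin n, x ≠ y → ((y : ℕ) : ℝ) - ((x : ℕ) : ℝ) ≠ 0 := by
      intro x y hxy
      rw [sub_ne_zero]
      intro h
      exact hxy (Fin.ext (by exact_mod_cast h.symm))
    have hm : D (mom (a : ℕ)) (mom (b : ℕ)) (mom (c : ℕ)) (mom (d : ℕ)) ≠ 0 := by
      rw [D_mom]
      exact mul_ne_zero (mul_ne_zero (mul_ne_zero (mul_ne_zero (mul_ne_zero (cast a b hab)
        (cast a c hac)) (cast a d had)) (cast b c hbc)) (cast b d hbd)) (cast c d hcd)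
    obtain ⟨c1, c2, hc⟩ := D_line (v a) (v b) (v c) (v d) (mom (a : ℕ)) (mom (b : ℕ))
      (mom (c : ℕ)) (mom (d : ℕ))
    refine (finite_cubic (D (v a) (v b) (v c) (v d)) c1 c2 _ hm).subset ?_
    intro e he
    have he' : D (q e a) (q e b) (q e c) (q e d) = 0 := he
    simp only [hq] at he'
    rw [hc] at he'
    exact he'
  have hinf : (Set.Ioo (0 : ℝ) δ \ bad).Infinite := (Set.Ioo_infinite hδ).sdiff hfin
  obtain ⟨e, ⟨he1, he2⟩, he3⟩ := hinf.nonempty
  refine ⟨q e, h2 (by rw [Real.dist_eq, sub_zero, abs_of_pos he1]; exact he2), ?_⟩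
  intro a b c d hab hac had hbc hbd hcd h0
  apply he3
  rw [hbad, Set.mem_iUnion]
  exact ⟨⟨(a, b, c, d), hab, hac, had, hbc, hbd, hcd⟩, h0⟩

end H20
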