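import Mathlib

/-!
Convex geometry of hereditary sets of nonnegative vectors.
-/

set_option autoImplicit false

namespace Pool.Agent.H20.PolyDom

open Set

variable {ι : Type} [Fintype ι] [DecidableEq ι]

/-- coordinatewise scaling -/
def scl (θ : ι → ℝ) : (ι → ℝ) →ₗ[ℝ] (ι → ℝ) where
  toFun x := fun i => θ i * x i
  map_add' x y := by ext i; simp [mul_add]
  map_smul' c x := by ext i; simp; ring

lemma scl_apply (θ x : ι → ℝ) (i : ι) : scl θ x i = θ i * x i := rfl

/-- one coordinate -/
lemma scl_one {P : Set (ι → ℝ)} (hP : ∀ p ∈ P, ∀ i, Function.update p i 0 ∈ P) (i : ι) (t : ℝ)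
    (h0 : 0 ≤ t) (h1 : t ≤ 1) (x : ι → ℝ) (hx : x ∈ convexHull ℝ P) :
    scl (Function.update 1 i t) x ∈ convexHull ℝ P := by
  have : scl (Function.update 1 i t) '' (convexHull ℝ P) ⊆ convexHull ℝ P := by
    rw [LinearMap.image_convexHull]
    refine convexHull_min ?_ (convex_convexHull ℝ P)
    rintro _ ⟨p, hp, rfl⟩
    have e : scl (Function.update 1 i t) p = t • p + (1 - t) • Function.update p i 0 := by
      ext j
      rw [scl_apply]
      by_cases hj : j = i
      · subst hj; simp
      · simp [Function.update_of_ne hj]; ring
    rw [e]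
    exact (convex_convexHull ℝ P) (subset_convexHull ℝ P hp) (subset_convexHull ℝ P (hP p hp i))
      h0 (by linarith) (by ring)
  exact this ⟨x, hx, rfl⟩

lemma scl_mem {P : Set (ι → ℝ)} (hP : ∀ p ∈ P, ∀ i, Function.update p i 0 ∈ P) (θ : ι → ℝ)
    (h0 : ∀ i, 0 ≤ θ i) (h1 : ∀ i, θ i ≤ 1) (x : ι → ℝ) (hx : x ∈ convexHull ℝ P) :
    scl θ x ∈ convexHull ℝ P := by
  have key : ∀ S : Finset ι, scl (fun i => if i ∈ S then θ i else 1) x ∈ convexHull ℝ P := by
    intro S
    induction S using Finset.induction_on with
    | empty =>
      have : scl (fun i => if i ∈ (∅ : Finset ι) then θ i else 1) x = x := by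
        ext i; simp [scl_apply]
      rwa [this]
    | insert a S ha ih =>
      have := scl_one hP a (θ a) (h0 a) (h1 a) _ ih
      convert this using 1
      ext i
      rw [scl_apply, scl_apply, scl_apply]
      by_cases hi : i = a
      · subst hi; simp [ha]
      · simp [hi]
  have := key Finset.univ
  simpa using this

/-- the hull is closed downwards -/
lemma down {P : Set (ι → ℝ)} (hP : ∀ p ∈ P, ∀ i, Function.update p i 0 ∈ P)
    {x y : ι → ℝ} (hy : y ∈ convexHull ℝ P) (h0 : 0 ≤ x) (hxy : x ≤ y) :
    x ∈ convexHull ℝ P := by
  have := scl_mem hP (fun i => if y i = 0 then 0 else x i / y i) (fun i => by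
    split_ifs with h
    · exact le_rfl
    · exact div_nonneg (h0 i) ((h0 i).trans (hxy i))) (fun i => by
    split_ifs with h
    · exact zero_le_one
    · exact div_le_one_of_le₀ (hxy i) ((h0 i).trans (hxy i))) y hy
  convert this using 1
  ext i
  rw [scl_apply]
  split_ifs with h
  · have h1 := h0 i
    have h2 := hxy i
    rw [h] at h2
    simp only [Pi.zero_apply] at h1
    linarith
  · field_simp

/-- the essential extreme points of the hull -/
def ess (P : Set (ι → ℝ)) : Set (ι → ℝ) :=
  {p ∈ (convexHull ℝ P).extremePoints ℝ | ∀ r ∈ (convexHull ℝ P).extremePoints ℝ, p ≤ r → r = p}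

/-- a hereditary set of nonnegative vectors, dominated by the hull of vectors `V j`
each of which is the strict maximum of one coordinate, has exactly the `V j` as essential
extreme points -/
theorem ess_eq {P : Set (ι → ℝ)} {J : Type} {V : J → ι → ℝ}
    (hP : ∀ p ∈ P, ∀ i, Function.update p i 0 ∈ P) (hnn : ∀ p ∈ P, 0 ≤ p)
    (hV : ∀ j, V j ∈ P) (hdom : ∀ p ∈ P, ∃ v ∈ convexHull ℝ (range V), p ≤ v)
    (hst : ∀ j, ∃ i, ∀ l, l ≠ j → V l i < V j i) : ess P = range V := by
  have hVK : convexHull ℝ (range V) ⊆ convexHull ℝ P :=
    convexHull_mono (by rintro _ ⟨j, rfl⟩; exact hV j)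
  have hK0 : ∀ x ∈ convexHull ℝ P, 0 ≤ x := by
    intro x hx
    exact (convexHull_min (s := P) (t := {x : ι → ℝ | 0 ≤ x}) (fun p hp => hnn p hp)
      (convex_Ici (𝕜 := ℝ) (0 : ι → ℝ))) hx
  have hdomK : ∀ p ∈ convexHull ℝ P, ∃ v ∈ convexHull ℝ (range V), p ≤ v := by
    intro p hp
    have hc : Convex ℝ {x : ι → ℝ | ∃ v ∈ convexHull ℝ (range V), x ≤ v} := by
      rintro x ⟨v, hv, hxv⟩ y ⟨w, hw, hyw⟩ a b ha hb hab
      refine ⟨a • v + b • w, (convex_convexHull ℝ _) hv hw ha hb hab, ?_⟩
      intro i
      simp only [Pi.add_apply, Pi.smul_apply, smul_eq_mul]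
      exact add_le_add (mul_le_mul_of_nonneg_left (hxv i) ha) (mul_le_mul_of_nonneg_left (hyw i) hb)
    exact (convexHull_min (s := P) (fun p hp => hdom p hp) hc) hp
  -- an extreme point lies below some `V l`
  have low : ∀ p ∈ (convexHull ℝ P).extremePoints ℝ, ∃ l, p ≤ V l := by
    intro p hp
    obtain ⟨v, hv, hpv⟩ := hdomK p hp.1
    have hp0 := hK0 p hp.1
    have h1 : ∀ i, p i = 0 ∨ p i = v i := by
      intro i
      by_contra hcon
      push Not at hcon
      have hpi : 0 < p i := lt_of_le_of_ne (hp0 i) (Ne.symm hcon.1)
      have hvi : p i < v i := lt_of_le_of_ne (hpv i) hcon.2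
      have hx : Function.update p i 0 ∈ convexHull ℝ P := by
        refine down hP hp.1 ?_ ?_
        · intro j
          by_cases hj : j = i
          · subst hj; simp
          · simpa [Function.update_of_ne hj] using hp0 j
        · intro j
          by_cases hj : j = i
          · subst hj; simpa using hpi.le
          · simp [Function.update_of_ne hj]
      have hy : Function.update p i (v i) ∈ convexHull ℝ P := by
        refine down hP (hVK hv) ?_ ?_
        · intro j
          by_cases hj : j = i
          · subst hj; simpa using (hpi.trans hvi).le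
          · simpa [Function.update_of_ne hj] using hp0 j
        · intro j
          by_cases hj : j = i
          · subst hj; simp
          · simpa [Function.update_of_ne hj] using hpv j
      have hseg : p ∈ openSegment ℝ (Function.update p i 0) (Function.update p i (v i)) := by
        have hv0 : 0 < v i := hpi.trans hvi
        refine ⟨1 - p i / v i, p i / v i, ?_, ?_, by ring, ?_⟩
        · have : p i / v i < 1 := (div_lt_one hv0).2 hvi
          linarith
        · exact div_pos hpi hv0
        · ext j
          by_cases hj : j = i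
          · subst hj
            simp
            field_simp
          · simp [Function.update_of_ne hj]
            ring
      have := hp.2 hx hy hseg
      have h2 := congrFun this i
      simp at h2
      exact hcon.1 h2.symm
    set θ : ι → ℝ := fun i => if p i = 0 then 0 else 1 with hθ
    have hpe : p = scl θ v := by
      ext i
      rw [scl_apply]
      rcases h1 i with h | h
      · simp [hθ, h]
      · by_cases h0 : p i = 0
        · simp [hθ, h0]
        · simp [hθ, h0, ← h]
    have hsub : convexHull ℝ (scl θ '' range V) ⊆ convexHull ℝ P := by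
      rw [← LinearMap.image_convexHull]
      rintro _ ⟨w, hw, rfl⟩
      exact scl_mem hP θ (fun i => by simp only [hθ]; split_ifs <;> norm_num)
        (fun i => by simp only [hθ]; split_ifs <;> norm_num) w (hVK hw)
    have hmem : p ∈ convexHull ℝ (scl θ '' range V) := by
      rw [← LinearMap.image_convexHull, hpe]
      exact ⟨v, hv, rfl⟩
    have hext : p ∈ (convexHull ℝ (scl θ '' range V)).extremePoints ℝ :=
      ⟨hmem, fun x hx y hy h => hp.2 (hsub hx) (hsub hy) h⟩
    obtain ⟨_, ⟨l, rfl⟩, hl⟩ := extremePoints_convexHull_subset hext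
    refine ⟨l, ?_⟩
    rw [← hl]
    intro i
    rw [scl_apply]
    have := hnn _ (hV l) i
    simp only [Pi.zero_apply] at this
    simp only [hθ]
    split_ifs
    · simpa using this
    · simp
  have top : ∀ j i, (∀ l, l ≠ j → V l i < V j i) → ∀ z ∈ convexHull ℝ (range V),
      z i < V j i ∨ z = V j := by
    intro j i hi z hz
    have hc : Convex ℝ {x : ι → ℝ | x i < V j i ∨ x = V j} := by
      rintro x hx y hy a b ha hb hab
      rcases eq_or_lt_of_le ha with ha0 | ha0
      · subst ha0
        have : b = 1 := by linarith
        subst this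
        simpa using hy
      rcases eq_or_lt_of_le hb with hb0 | hb0
      · subst hb0
        have : a = 1 := by linarith
        subst this
        simpa using hx
      rcases hx with hx | hx
      · left
        have hyl : y i ≤ V j i := by
          rcases hy with hy | hy
          · exact hy.le
          · rw [hy]
        simp only [Pi.add_apply, Pi.smul_apply, smul_eq_mul]
        calc a * x i + b * y i < a * V j i + b * V j i := by
              exact add_lt_add_of_lt_of_le (mul_lt_mul_of_pos_left hx ha0)
                (mul_le_mul_of_nonneg_left hyl hb)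
          _ = V j i := by rw [← add_mul, hab, one_mul]
      · rcases hy with hy | hy
        · left
          subst hx
          simp only [Pi.add_apply, Pi.smul_apply, smul_eq_mul]
          calc a * V j i + b * y i < a * V j i + b * V j i := by
                have := mul_lt_mul_of_pos_left hy hb0
                linarith
            _ = V j i := by rw [← add_mul, hab, one_mul]
        · right
          rw [hx, hy, ← add_smul, hab, one_smul]
    refine (convexHull_min (s := range V) ?_ hc) hz
    rintro _ ⟨l, rfl⟩
    by_cases hl : l = j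
    · right; rw [hl]
    · left; exact hi l hl
  have ext : ∀ j, V j ∈ (convexHull ℝ P).extremePoints ℝ := by
    intro j
    obtain ⟨i, hi⟩ := hst j
    refine ⟨hVK (subset_convexHull ℝ _ ⟨j, rfl⟩), ?_⟩
    rintro x hx y hy ⟨a, b, ha, hb, hab, hxy⟩
    obtain ⟨v, hv, hxv⟩ := hdomK x hx
    obtain ⟨w, hw, hyw⟩ := hdomK y hy
    have e := congrFun hxy i
    simp only [Pi.add_apply, Pi.smul_apply, smul_eq_mul] at e
    have hvle : v i ≤ V j i := by
      rcases top j i hi v hv with h | h
      · exact h.le
      · rw [h]
    have hwle : w i ≤ V j i := by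
      rcases top j i hi w hw with h | h
      · exact h.le
      · rw [h]
    have hveq : v = V j := by
      rcases top j i hi v hv with h | h
      · exfalso
        have h1 : a * x i < a * V j i := mul_lt_mul_of_pos_left ((hxv i).trans_lt h) ha
        have h2 : b * y i ≤ b * V j i := mul_le_mul_of_nonneg_left ((hyw i).trans hwle) hb.le
        have h3 : a * V j i + b * V j i = V j i := by rw [← add_mul, hab, one_mul]
        linarith
      · exact h
    have hweq : w = V j := by
      rcases top j i hi w hw with h | h
      · exfalso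
        have h1 : b * y i < b * V j i := mul_lt_mul_of_pos_left ((hyw i).trans_lt h) hb
        have h2 : a * x i ≤ a * V j i := mul_le_mul_of_nonneg_left ((hxv i).trans hvle) ha.le
        have h3 : a * V j i + b * V j i = V j i := by rw [← add_mul, hab, one_mul]
        linarith
      · exact h
    rw [hveq] at hxv
    rw [hweq] at hyw
    ext k
    have e' := congrFun hxy k
    simp only [Pi.add_apply, Pi.smul_apply, smul_eq_mul] at e'
    have h1 := hxv k
    have h2 := hyw k
    have h3 : a * V j k + b * V j k = V j k := by rw [← add_mul, hab, one_mul]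
    by_contra hne
    have h4 : x k < V j k := lt_of_le_of_ne h1 hne
    have h5 : a * x k < a * V j k := mul_lt_mul_of_pos_left h4 ha
    have h6 : b * y k ≤ b * V j k := mul_le_mul_of_nonneg_left h2 hb.le
    linarith
  ext p
  constructor
  · rintro ⟨hp, hmax⟩
    obtain ⟨l, hl⟩ := low p hp
    exact ⟨l, hmax _ (ext l) hl⟩
  · rintro ⟨j, rfl⟩
    refine ⟨ext j, fun r hr hjr => ?_⟩
    obtain ⟨l, hl⟩ := low r hr
    obtain ⟨i, hi⟩ := hst j
    have hlj : l = j := by
      by_contra hne
      have h1 := hi l hne
      have h2 := (hjr i).trans (hl i)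
      linarith
    subst hlj
    exact le_antisymm hl hjr

end Pool.Agent.H20.PolyDom
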