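import Mathlib

/-!
Families of subsets of `Fin n` with pairwise unions of size at most `s`.
-/

set_option autoImplicit false

namespace Pool.Agent.H20.UnionFam

open Finset

/-! ### Binomial estimates -/

/-- number of sets of size at most `a` -/
def W (n a : ℕ) : ℕ := ∑ b ∈ range (a + 1), n.choose b

lemma choose_mono_half {n a b : ℕ} (hab : a ≤ b) (hb : b ≤ n / 2) : n.choose a ≤ n.choose b := by
  induction b, hab using Nat.le_induction with
  | base => exact le_rfl
  | succ m hm ih =>
    exact (ih (by omega)).trans (Nat.choose_le_succ_of_lt_half_left (by omega))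

lemma W_le {n a : ℕ} (ha : a ≤ n / 2) : W n a ≤ (a + 1) * n.choose a := by
  unfold W
  calc ∑ b ∈ range (a + 1), n.choose b ≤ ∑ b ∈ range (a + 1), n.choose a :=
        sum_le_sum fun b hb => choose_mono_half (by have := mem_range.1 hb; omega) ha
    _ = (a + 1) * n.choose a := by simp

lemma choose_sub_le {n s j : ℕ} (hj : 1 ≤ j) (hs : s ≤ n) :
    n.choose j ≤ (n - s).choose j + s * (n - 1).choose (j - 1) := by
  induction s with
  | zero => simp
  | succ s ih =>
    have h := ih (by omega)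
    have e : n - s = (n - (s + 1)) + 1 := by omega
    have e2 : j = (j - 1) + 1 := by omega
    have h1 : (n - s).choose j = (n - (s + 1)).choose (j - 1) + (n - (s + 1)).choose j := by
      rw [e]
      conv_lhs => rw [e2]
      rw [Nat.choose_succ_succ, Nat.succ_eq_add_one, ← e2]
    have h2 : (n - (s + 1)).choose (j - 1) ≤ (n - 1).choose (j - 1) :=
      Nat.choose_le_choose _ (by omega)
    have h3 : (s + 1) * (n - 1).choose (j - 1) = s * (n - 1).choose (j - 1) + (n - 1).choose (j - 1) := by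
      ring
    omega

lemma choose_half {n s j : ℕ} (hj : 1 ≤ j) (hn : 2 * (s * j) ≤ n) (hs : s ≤ n) (hn0 : 1 ≤ n) :
    n.choose j ≤ 2 * (n - s).choose j := by
  have h1 := choose_sub_le hj hs
  have h2 : n * (n - 1).choose (j - 1) = n.choose j * j := by
    have := Nat.add_one_mul_choose_eq (n - 1) (j - 1)
    rwa [Nat.sub_add_cancel hn0, Nat.sub_add_cancel hj] at this
  have h3 : 2 * (s * (n - 1).choose (j - 1)) ≤ n.choose j := by
    by_contra hc
    push Not at hc
    have h4 : n * n.choose j < n * (2 * (s * (n - 1).choose (j - 1))) :=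
      Nat.mul_lt_mul_of_pos_left hc (by omega)
    have h5 : n * (2 * (s * (n - 1).choose (j - 1))) = 2 * (s * j) * n.choose j := by
      calc n * (2 * (s * (n - 1).choose (j - 1))) = 2 * s * (n * (n - 1).choose (j - 1)) := by ring
        _ = 2 * (s * j) * n.choose j := by rw [h2]; ring
    have h6 : 2 * (s * j) * n.choose j ≤ n * n.choose j := Nat.mul_le_mul_right _ hn
    omega
  omega

lemma num {n s j : ℕ} (hn : 16 * (s + 1) ^ 2 * 2 ^ s ≤ n) (hj : 1 ≤ j) (hjs : 2 * j ≤ s) :
    2 * (2 ^ s * (s * (n - 1).choose (j - 1) + W n (j - 1))) < (n - s + 2 * j).choose j := by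
  have hp : 1 ≤ 2 ^ s := Nat.one_le_two_pow
  have hn2 : 16 * (s + 1) ^ 2 ≤ n := le_trans (by nlinarith) hn
  have hsn : s ≤ n := by nlinarith
  have hn0 : 1 ≤ n := by nlinarith
  have hW : W n (j - 1) ≤ j * n.choose (j - 1) := by
    have := W_le (n := n) (a := j - 1) (by
      have : 2 * s ≤ n := by nlinarith
      omega)
    rwa [Nat.sub_add_cancel hj] at this
  have h1 : (n - 1).choose (j - 1) ≤ n.choose (j - 1) := Nat.choose_le_choose _ (by omega)
  have h2 : n.choose j ≤ 2 * (n - s).choose j := choose_half hj (by nlinarith) hsn hn0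
  have h3 : (n - s).choose j ≤ (n - s + 2 * j).choose j := Nat.choose_le_choose _ (by omega)
  have h4 : n.choose j * j = n.choose (j - 1) * (n - (j - 1)) := by
    have := Nat.choose_succ_right_eq n (j - 1)
    rwa [Nat.sub_add_cancel hj] at this
  have hB : 0 < n.choose (j - 1) := Nat.choose_pos (by omega)
  set B := n.choose (j - 1) with hBdef
  have h5 : 2 ^ s * (s * (n - 1).choose (j - 1) + W n (j - 1)) ≤ 2 ^ s * (2 * s * B) := by
    apply Nat.mul_le_mul_left
    have : j * B ≤ s * B := Nat.mul_le_mul_right _ (by omega)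
    have : s * (n - 1).choose (j - 1) ≤ s * B := Nat.mul_le_mul_left _ h1
    nlinarith
  -- claim: 8 * 2^s * s * B < n.choose j
  have h6 : 8 * (2 ^ s * (s * B)) < n.choose j := by
    by_contra hc
    push Not at hc
    have h7 : n.choose j * j ≤ 8 * (2 ^ s * (s * B)) * j := Nat.mul_le_mul_right _ hc
    rw [h4] at h7
    have h8 : n - (j - 1) ≤ 8 * 2 ^ s * s * j := by
      have : B * (n - (j - 1)) ≤ B * (8 * 2 ^ s * s * j) := by
        calc B * (n - (j - 1)) ≤ 8 * (2 ^ s * (s * B)) * j := h7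
          _ = B * (8 * 2 ^ s * s * j) := by ring
      exact Nat.le_of_mul_le_mul_left this hB
    have h9 : 8 * 2 ^ s * s * j ≤ 8 * 2 ^ s * s * s := Nat.mul_le_mul_left _ (by omega)
    have h10 : n ≤ 8 * 2 ^ s * s * s + s := by omega
    nlinarith [Nat.mul_le_mul_right (s * s) hp]
  nlinarith

/-! ### Families -/

variable {n : ℕ}

/-- number of members of size `k` -/
def q (G : Finset (Finset (Fin n))) (k : ℕ) : ℕ := (G.filter fun A => A.card = k).card

lemma q_mono {G H : Finset (Finset (Fin n))} (h : ∀ A ∈ G, A ∈ H) (k : ℕ) : q G k ≤ q H k := by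
  apply card_le_card
  intro A hA
  rw [mem_filter] at hA ⊢
  exact ⟨h A hA.1, hA.2⟩

/-- sets with at most `j` elements outside `Y` -/
def KY (Y : Finset (Fin n)) (j : ℕ) : Finset (Finset (Fin n)) := univ.filter fun G => (G \ Y).card ≤ j

lemma mem_KY {Y : Finset (Fin n)} {j : ℕ} {G : Finset (Fin n)} : G ∈ KY Y j ↔ (G \ Y).card ≤ j := by
  simp [KY]

lemma card_small (a : ℕ) : (univ.filter fun D : Finset (Fin n) => D.card ≤ a).card = W n a := by
  have : (univ.filter fun D : Finset (Fin n) => D.card ≤ a) =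
      (range (a + 1)).biUnion fun b => powersetCard b univ := by
    ext D
    simp [mem_powersetCard, Nat.lt_succ_iff]
  rw [this, card_biUnion]
  · simp [W, card_powersetCard]
  · intro b _ c _ hbc
    rw [Function.onFun, disjoint_left]
    intro D h1 h2
    rw [mem_powersetCard] at h1 h2
    exact hbc (h1.2.symm.trans h2.2)

lemma card_KY_le (Y : Finset (Fin n)) (a : ℕ) : (KY Y a).card ≤ 2 ^ Y.card * W n a := by
  rw [← card_small (n := n) a, ← card_powerset, ← card_product]
  apply card_le_card_of_injOn (fun G => (G ∩ Y, G \ Y))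
  · intro G hG
    rw [mem_coe, mem_KY] at hG
    rw [mem_coe, mem_product]
    exact ⟨by simp, by simpa using hG⟩
  · intro G _ H _ h
    simp only [Prod.mk.injEq] at h
    rw [← sdiff_union_inter G Y, ← sdiff_union_inter H Y, h.1, h.2]

lemma q_KY_perm (Y Z : Finset (Fin n)) (h : Y.card = Z.card) (j k : ℕ) :
    q (KY Y j) k ≤ q (KY Z j) k := by
  classical
  let e0 : {x // x ∈ Y} ≃ {x // x ∈ Z} := Finset.equivOfCardEq h
  let σ : Equiv.Perm (Fin n) := e0.extendSubtype
  have hσ : ∀ x, σ x ∈ Z ↔ x ∈ Y := by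
    intro x
    constructor
    · intro hx
      by_contra hc
      exact (Equiv.extendSubtype_not_mem e0 x hc) hx
    · intro hx
      exact Equiv.extendSubtype_mem e0 x hx
  apply card_le_card_of_injOn (fun G => G.map σ.toEmbedding)
  · intro G hG
    rw [mem_coe, mem_filter, mem_KY] at hG
    rw [mem_coe, mem_filter, mem_KY, card_map]
    refine ⟨?_, hG.2⟩
    have : G.map σ.toEmbedding \ Z = (G \ Y).map σ.toEmbedding := by
      ext x
      simp only [mem_sdiff, mem_map, Equiv.coe_toEmbedding]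
      constructor
      · rintro ⟨⟨y, hy, rfl⟩, hx⟩
        exact ⟨y, ⟨hy, fun h => hx ((hσ y).2 h)⟩, rfl⟩
      · rintro ⟨y, ⟨hy, hy2⟩, rfl⟩
        exact ⟨⟨y, hy, rfl⟩, fun h => hy2 ((hσ y).1 h)⟩
    rw [this, card_map]
    exact hG.1
  · intro G _ H _ h
    exact map_injective _ h

/-- sets of size `j` meeting `D` -/
lemma hit {D : Finset (Fin n)} {j : ℕ} (hj : 1 ≤ j) (𝒜 : Finset (Finset (Fin n)))
    (h1 : ∀ A ∈ 𝒜, A.card = j) (h2 : ∀ A ∈ 𝒜, ¬ Disjoint A D) :
    𝒜.card ≤ D.card * (n - 1).choose (j - 1) := by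
  classical
  have hsub : 𝒜 ⊆ D.biUnion fun x => (powersetCard (j - 1) (univ.erase x)).image (insert x) := by
    intro A hA
    obtain ⟨x, hx1, hx2⟩ := not_disjoint_iff.1 (h2 A hA)
    rw [mem_biUnion]
    refine ⟨x, hx2, ?_⟩
    rw [mem_image]
    refine ⟨A.erase x, ?_, insert_erase hx1⟩
    rw [mem_powersetCard]
    refine ⟨erase_subset_erase _ (subset_univ _), ?_⟩
    rw [card_erase_of_mem hx1, h1 A hA]
  refine (card_le_card hsub).trans (card_biUnion_le.trans ?_)
  calc ∑ x ∈ D, ((powersetCard (j - 1) (univ.erase x)).image (insert x)).card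
      ≤ ∑ x ∈ D, (n - 1).choose (j - 1) := by
        apply sum_le_sum
        intro x _
        refine card_image_le.trans ?_
        rw [card_powersetCard, card_erase_of_mem (mem_univ _), card_univ, Fintype.card_fin]
    _ = D.card * (n - 1).choose (j - 1) := by simp

lemma union_card (G H : Finset (Fin n)) : (G ∪ H).card = (G \ H).card + H.card := by
  rw [← card_sdiff_add_card]

/-- the top level is small or the family is a subfamily of some `KY Y j` -/
lemma top_level {s j : ℕ} (hj : 1 ≤ j) (hjs : 2 * j ≤ s) (𝒢 : Finset (Finset (Fin n)))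
    (h𝒢 : ∀ A ∈ 𝒢, ∀ B ∈ 𝒢, (A ∪ B).card ≤ s) (G0 : Finset (Fin n)) (hG0 : G0 ∈ 𝒢)
    (hc : G0.card = s - j)
    (hno : ¬ ∃ Y : Finset (Fin n), Y.card = s - 2 * j ∧ ∀ G ∈ 𝒢, (G \ Y).card ≤ j) :
    q 𝒢 (s - j) ≤ 2 ^ s * (s * (n - 1).choose (j - 1) + W n (j - 1)) := by
  classical
  have hs : ∀ G ∈ 𝒢, G.card ≤ s := fun G hG => by simpa using h𝒢 G hG G hG
  have hj0 : ∀ G ∈ 𝒢, (G \ G0).card ≤ j := fun G hG => by
    have := h𝒢 G hG G0 hG0
    rw [union_card] at this
    omega
  set 𝒯 := 𝒢.filter fun A => A.card = s - j with h𝒯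
  have hsplit : 𝒯 ⊆ KY G0 (j - 1) ∪ G0.powerset.biUnion fun C =>
      𝒯.filter fun G => G ∩ G0 = C ∧ (G \ G0).card = j := by
    intro G hG
    rw [mem_union]
    by_cases h : (G \ G0).card ≤ j - 1
    · left; rwa [mem_KY]
    · right
      rw [mem_biUnion]
      refine ⟨G ∩ G0, by simp, ?_⟩
      rw [mem_filter]
      have := hj0 G (mem_filter.1 hG).1
      exact ⟨hG, rfl, by omega⟩
  have hfib : ∀ C ∈ G0.powerset, (𝒯.filter fun G => G ∩ G0 = C ∧ (G \ G0).card = j).card ≤
      s * (n - 1).choose (j - 1) := by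
    intro C hC
    by_contra hbig
    push Not at hbig
    set 𝒟 := 𝒯.filter fun G => G ∩ G0 = C ∧ (G \ G0).card = j with h𝒟
    have hne : 𝒟.Nonempty := by
      rw [← card_pos]; omega
    have hCc : C.card = s - 2 * j := by
      obtain ⟨G, hG⟩ := hne
      rw [h𝒟, mem_filter, h𝒯, mem_filter] at hG
      have h1 := card_sdiff_add_card_inter G G0
      rw [hG.2.1, hG.2.2, hG.1.2] at h1
      omega
    apply hno
    refine ⟨C, hCc, fun G hG => ?_⟩
    by_contra hGc
    push Not at hGc
    -- some member of `𝒟` is disjoint from `G` outside `G0`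
    have hex : ∃ H ∈ 𝒟, Disjoint (H \ G0) G := by
      by_contra hcon
      push Not at hcon
      have h1 : (𝒟.image fun H => H \ G0).card ≤ G.card * (n - 1).choose (j - 1) := by
        apply hit hj
        · intro A hA
          obtain ⟨H, hH, rfl⟩ := mem_image.1 hA
          rw [h𝒟, mem_filter] at hH
          exact hH.2.2
        · intro A hA
          obtain ⟨H, hH, rfl⟩ := mem_image.1 hA
          exact hcon H hH
      rw [card_image_of_injOn] at h1
      · have h2 : G.card * (n - 1).choose (j - 1) ≤ s * (n - 1).choose (j - 1) :=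
          Nat.mul_le_mul_right _ (hs G hG)
        omega
      · intro H hH H' hH' he
        rw [mem_coe, h𝒟, mem_filter] at hH hH'
        simp only at he
        rw [← sdiff_union_inter H G0, ← sdiff_union_inter H' G0, he, hH.2.1, hH'.2.1]
    obtain ⟨H, hH, hdis⟩ := hex
    rw [h𝒟, mem_filter, h𝒯, mem_filter] at hH
    have h1 := h𝒢 G hG H hH.1.1
    have h2 : (G ∪ C) ∪ (H \ G0) ⊆ G ∪ H := by
      intro x hx
      simp only [mem_union, mem_sdiff] at hx ⊢
      rcases hx with (hx | hx) | hx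
      · exact Or.inl hx
      · right
        rw [← hH.2.1] at hx
        exact (mem_inter.1 hx).1
      · exact Or.inr hx.1
    have h3 : Disjoint (G ∪ C) (H \ G0) := by
      rw [disjoint_union_left]
      refine ⟨hdis.symm, ?_⟩
      rw [disjoint_left]
      intro x hx hx2
      rw [mem_sdiff] at hx2
      rw [mem_powerset] at hC
      exact hx2.2 (hC hx)
    have h4 := card_le_card h2
    rw [card_union_of_disjoint h3, union_card G C, hH.2.2, hCc] at h4
    omega
  have hfin : q 𝒢 (s - j) = 𝒯.card := rfl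
  rw [hfin]
  refine (card_le_card hsplit).trans ((card_union_le _ _).trans ?_)
  have ha : (KY G0 (j - 1)).card ≤ 2 ^ s * W n (j - 1) := by
    refine (card_KY_le _ _).trans (Nat.mul_le_mul_right _ ?_)
    exact Nat.pow_le_pow_right (by norm_num) (by omega)
  have hb : (G0.powerset.biUnion fun C =>
      𝒯.filter fun G => G ∩ G0 = C ∧ (G \ G0).card = j).card ≤ 2 ^ s * (s * (n - 1).choose (j - 1)) := by
    refine card_biUnion_le.trans ((sum_le_sum hfib).trans ?_)
    rw [sum_const, card_powerset, smul_eq_mul]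
    exact Nat.mul_le_mul_right _ (Nat.pow_le_pow_right (by norm_num) (by omega))
  calc _ ≤ 2 ^ s * W n (j - 1) + 2 ^ s * (s * (n - 1).choose (j - 1)) := Nat.add_le_add ha hb
    _ = _ := by ring

lemma q_low (𝒢 : Finset (Finset (Fin n))) (Y : Finset (Fin n)) {j k : ℕ} (hk : k ≤ j) :
    q 𝒢 k ≤ q (KY Y j) k := by
  apply card_le_card
  intro A hA
  rw [mem_filter] at hA ⊢
  refine ⟨?_, hA.2⟩
  rw [mem_KY]
  exact (card_le_card sdiff_subset).trans (by omega)

lemma q_mid {s l k : ℕ} (Y : Finset (Fin n)) (hY : Y.card = s - 2 * l) (hl : 2 * l ≤ s) (hs : s ≤ n)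
    (h1 : l ≤ k) (h2 : k ≤ s - l) : (n - s + 2 * l).choose l ≤ q (KY Y l) k := by
  classical
  obtain ⟨C0, hC0, hcc⟩ := exists_subset_card_eq (s := Y) (n := k - l) (by omega)
  have hcY : (Yᶜ).card = n - s + 2 * l := by
    rw [card_compl, Fintype.card_fin, hY]; omega
  rw [← hcY, ← card_powersetCard]
  apply card_le_card_of_injOn (fun D => D ∪ C0)
  · intro D hD
    rw [mem_coe, mem_powersetCard] at hD
    have hdY : Disjoint D Y := by
      rw [disjoint_left]
      intro x hx
      exact mem_compl.1 (hD.1 hx)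
    rw [mem_coe, mem_filter, mem_KY]
    constructor
    · refine (card_le_card (?_ : (D ∪ C0) \ Y ⊆ D)).trans hD.2.le
      intro x hx
      simp only [mem_sdiff, mem_union] at hx
      rcases hx.1 with h | h
      · exact h
      · exact absurd (hC0 h) hx.2
    · rw [card_union_of_disjoint (disjoint_of_subset_right hC0 hdY), hD.2, hcc]
      omega
  · intro D hD D' hD' h
    rw [mem_coe, mem_powersetCard] at hD hD'
    have key : ∀ E : Finset (Fin n), E ⊆ Yᶜ → (E ∪ C0) \ Y = E := by
      intro E hE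
      ext x
      simp only [mem_sdiff, mem_union]
      constructor
      · rintro ⟨h | h, h'⟩
        · exact h
        · exact absurd (hC0 h) h'
      · intro h
        exact ⟨Or.inl h, mem_compl.1 (hE h)⟩
    have h' : D ∪ C0 = D' ∪ C0 := h
    rw [← key D hD.1, ← key D' hD'.1, h']

lemma q_high {s l k : ℕ} (Y : Finset (Fin n)) (hY : Y.card = s - 2 * l) (hl : 2 * l ≤ s)
    (hk : s - l < k) : q (KY Y l) k = 0 := by
  unfold q
  rw [card_eq_zero, filter_eq_empty_iff]
  intro G hG hc
  rw [mem_KY] at hG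
  have h1 := card_sdiff_add_card_inter G Y
  have h2 : (G ∩ Y).card ≤ Y.card := card_le_card inter_subset_right
  omega

/-- the last `s - 2 j` elements -/
def Ys (n s j : ℕ) : Finset (Fin n) := univ.filter fun x => n - s + 2 * j ≤ (x : ℕ)

lemma card_Ys {s j : ℕ} (hj : 2 * j ≤ s) (hs : s ≤ n) : (Ys n s j).card = s - 2 * j := by
  have h1 : (Ys n s j) = (univ.filter fun x : Fin n => (x : ℕ) < n - s + 2 * j)ᶜ := by
    ext x; simp [Ys]
  rw [h1, card_compl, Fintype.card_fin, Fin.card_filter_val_lt]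
  omega

/-- the standard families -/
def K (n s j : ℕ) : Finset (Finset (Fin n)) := KY (Ys n s j) j

theorem dom {s : ℕ} (hn : 16 * (s + 1) ^ 2 * 2 ^ s ≤ n) (𝒢 : Finset (Finset (Fin n)))
    (h𝒢 : ∀ A ∈ 𝒢, ∀ B ∈ 𝒢, (A ∪ B).card ≤ s) :
    ∃ j l, j ≤ s / 2 ∧ l ≤ s / 2 ∧ ∀ k, 2 * q 𝒢 k ≤ q (K n s j) k + q (K n s l) k := by
  classical
  have hp : 1 ≤ 2 ^ s := Nat.one_le_two_pow
  have hsn : s ≤ n := by nlinarith
  rcases 𝒢.eq_empty_or_nonempty with h0 | hne
  · refine ⟨0, 0, by omega, by omega, fun k => ?_⟩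
    subst h0
    simp [q]
  obtain ⟨G0, hG0, hmax⟩ := exists_max_image 𝒢 card hne
  have hG0s : G0.card ≤ s := by simpa using h𝒢 G0 hG0 G0 hG0
  have hzero : ∀ k, G0.card < k → q 𝒢 k = 0 := by
    intro k hk
    unfold q
    rw [card_eq_zero, filter_eq_empty_iff]
    intro A hA hc
    have := hmax A hA
    omega
  by_cases hsmall : G0.card ≤ s / 2
  · refine ⟨s / 2, s / 2, le_rfl, le_rfl, fun k => ?_⟩
    by_cases hk : k ≤ s / 2
    · have := q_low 𝒢 (Ys n s (s / 2)) hk
      unfold K; omega
    · rw [hzero k (by omega)]; omega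
  push Not at hsmall
  obtain ⟨j, hj⟩ : ∃ j, j = s - G0.card := ⟨_, rfl⟩
  have hjc : G0.card = s - j := by omega
  have hj2 : 2 * j ≤ s := by omega
  by_cases hY : ∃ Y : Finset (Fin n), Y.card = s - 2 * j ∧ ∀ G ∈ 𝒢, (G \ Y).card ≤ j
  · obtain ⟨Y, hYc, hYG⟩ := hY
    have : ∀ k, q 𝒢 k ≤ q (K n s j) k := fun k =>
      (q_mono (H := KY Y j) (fun A hA => mem_KY.2 (hYG A hA)) k).trans
        (q_KY_perm Y _ (by rw [hYc, card_Ys hj2 hsn]) j k)
    exact ⟨j, j, by omega, by omega, fun k => by have := this k; omega⟩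
  have hj1 : 1 ≤ j := by
    by_contra hc
    have hj0 : j = 0 := by omega
    subst hj0
    apply hY
    refine ⟨G0, by omega, fun G hG => ?_⟩
    have := h𝒢 G hG G0 hG0
    rw [union_card] at this
    omega
  have htop := top_level hj1 hj2 𝒢 h𝒢 G0 hG0 hjc hY
  have hall : ∀ k, q 𝒢 k ≤ 2 ^ s * W n j := by
    intro k
    refine (card_le_card (t := KY G0 j) ?_).trans ((card_KY_le _ _).trans
      (Nat.mul_le_mul_right _ (Nat.pow_le_pow_right (by norm_num) hG0s)))
    intro G hG
    rw [mem_filter] at hG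
    rw [mem_KY]
    have := h𝒢 G hG.1 G0 hG0
    rw [union_card] at this
    omega
  have hnum := num hn hj1 hj2
  refine ⟨j, min (j + 1) (s / 2), by omega, by omega, fun k => ?_⟩
  rcases lt_trichotomy k (s - j) with hk | hk | hk
  · by_cases hkj : k ≤ j
    · have h1 := q_low 𝒢 (Ys n s j) hkj
      have h2 := q_low 𝒢 (Ys n s (min (j + 1) (s / 2))) (j := min (j + 1) (s / 2)) (k := k) (by omega)
      unfold K; omega
    · have hj3 : 2 * (j + 1) ≤ s := by omega
      have hmin : min (j + 1) (s / 2) = j + 1 := by omega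
      rw [hmin]
      have h1 := q_mid (Ys n s (j + 1)) (card_Ys hj3 hsn) hj3 hsn (k := k) (by omega) (by omega)
      have h2 := num hn (j := j + 1) (by omega) hj3
      have h3 := hall k
      have h4 : 2 ^ s * W n j ≤ 2 ^ s * (s * (n - 1).choose (j + 1 - 1) + W n (j + 1 - 1)) := by
        apply Nat.mul_le_mul_left
        rw [Nat.add_sub_cancel]
        omega
      unfold K
      omega
  · subst hk
    have h1 := q_mid (Ys n s j) (card_Ys hj2 hsn) hj2 hsn (k := s - j) (by omega) le_rfl
    unfold K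
    omega
  · rw [hzero k (by omega)]; omega

/-- level `s - j` separates the standard families -/
theorem sep {s : ℕ} (hn : 16 * (s + 1) ^ 2 * 2 ^ s ≤ n) {j l : ℕ} (hj : j ≤ s / 2) (hl : l ≤ s / 2)
    (hlj : l ≠ j) : q (K n s l) (s - j) < q (K n s j) (s - j) := by
  have hp : 1 ≤ 2 ^ s := Nat.one_le_two_pow
  have hsn : s ≤ n := by nlinarith
  have h1 := q_mid (Ys n s j) (card_Ys (by omega) hsn) (by omega) hsn (k := s - j) (by omega) le_rfl
  rcases lt_or_gt_of_ne hlj with h | h
  · have h2 := num hn (j := j) (by omega) (by omega)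
    have h3 : q (K n s l) (s - j) ≤ 2 ^ s * W n l := by
      refine (card_le_card (filter_subset _ _)).trans ((card_KY_le _ _).trans
        (Nat.mul_le_mul_right _ (Nat.pow_le_pow_right (by norm_num) ?_)))
      rw [card_Ys (by omega) hsn]; omega
    have h4 : W n l ≤ W n (j - 1) := by
      unfold W
      exact sum_le_sum_of_subset (range_subset_range.2 (by omega))
    have h5 : 2 ^ s * W n l ≤ 2 ^ s * (s * (n - 1).choose (j - 1) + W n (j - 1)) :=
      Nat.mul_le_mul_left _ (by omega)
    unfold K at *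
    omega
  · have h2 := q_high (Ys n s l) (card_Ys (by omega) hsn) (by omega) (k := s - j) (by omega)
    have h3 : 0 < (n - s + 2 * j).choose j := Nat.choose_pos (by omega)
    unfold K
    omega

end Pool.Agent.H20.UnionFam
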