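import Pool.Agent.H20.Perturb61d
import Pool.Agent.H20.PatK661d
import Pool.Agent.H20.PatT5761d
import Pool.Agent.H20.PatK222261d
import Pool.Agent.H20.PatP5K2261d
import Pool.Agent.H20.PatP661d
import Pool.Agent.H20.PatC561d
import Pool.Agent.H20.PatC4K261d
import Pool.Agent.H20.PatP7K261d

/-!
# The antipodality graph of points in general position is good
-/

namespace H20

theorem Antip.symm {ι : Type*} {q : ι → Fin 3 → ℝ} {i j : ι} (h : Antip q i j) :
    Antip q j i := by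
  obtain ⟨hne, f, h1, h2⟩ := h
  refine ⟨hne.symm, -f, fun k hk => ?_, fun k hk => ?_⟩
  · simpa using h2 k hk
  · simpa using h1 k hk

/-- The antipodality graph. -/
def AG {ι : Type*} (q : ι → Fin 3 → ℝ) : SimpleGraph ι where
  Adj i j := Antip q i j
  symm := ⟨fun _ _ h => h.symm⟩
  loopless := ⟨fun _ h => h.1 rfl⟩

theorem Antip.neg {ι : Type*} {q : ι → Fin 3 → ℝ} {i j : ι} (h : Antip q i j) :
    Antip (fun k => -q k) i j := by
  obtain ⟨hne, f, h1, h2⟩ := h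
  refine ⟨hne, -f, fun k hk => ?_, fun k hk => ?_⟩
  · simpa using h1 k hk
  · simpa using h2 k hk

/-- Extension of a family indexed by `Fin k` to all naturals. -/
noncomputable def ext0 {k : ℕ} (q : Fin k → Fin 3 → ℝ) (i : ℕ) : Fin 3 → ℝ :=
  if h : i < k then q ⟨i, h⟩ else 0

theorem conf_of {k : ℕ} (h4 : 4 ≤ k) (adj : ℕ → ℕ → Bool) (q : Fin k → Fin 3 → ℝ)
    (hgen : ∀ a b c d, a ≠ b → a ≠ c → a ≠ d → b ≠ c → b ≠ d → c ≠ d →
      D (q a) (q b) (q c) (q d) ≠ 0)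
    (hadj : ∀ a b : Fin k, a ≠ b → adj a b = true → Antip q a b)
    (hex : ∀ a : Fin k, ∃ b : Fin k, a ≠ b ∧ adj a b = true)
    (hpos : 0 < D (q ⟨0, by omega⟩) (q ⟨1, by omega⟩) (q ⟨2, by omega⟩) (q ⟨3, by omega⟩)) :
    Conf k adj (ext0 q) := by
  have e : ∀ i (h : i < k), ext0 q i = q ⟨i, h⟩ := fun i h => dif_pos h
  refine ⟨?_, ?_, ?_, ?_⟩
  · intro a b c d ha hb hc hd hab hac had hbc hbd hcd
    rw [e a ha, e b hb, e c hc, e d hd]
    exact hgen _ _ _ _ (by simpa using hab) (by simpa using hac) (by simpa using had)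
      (by simpa using hbc) (by simpa using hbd) (by simpa using hcd)
  · intro a b ha hb hab h
    obtain ⟨_, f, h1, h2⟩ := hadj ⟨a, ha⟩ ⟨b, hb⟩ (by simpa using hab) h
    refine ⟨f, fun c hc => ⟨fun hca => ?_, fun hcb => ?_⟩⟩
    · rw [e c hc, e a ha]; exact h1 ⟨c, hc⟩ (by simpa using hca)
    · rw [e c hc, e b hb]; exact h2 ⟨c, hc⟩ (by simpa using hcb)
  · intro a ha
    obtain ⟨b, hab, h⟩ := hex ⟨a, ha⟩
    obtain ⟨_, f, h1, h2⟩ := hadj ⟨a, ha⟩ b hab h
    refine ⟨f, fun c hc hca => ?_⟩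
    rw [e c hc, e a ha]; exact h1 ⟨c, hc⟩ (by simpa using hca)
  · rw [e 0 (by omega), e 1 (by omega), e 2 (by omega), e 3 (by omega)]
    exact hpos

theorem not_hasPat {ι : Type*} (q : ι → Fin 3 → ℝ)
    (hgen : ∀ a b c d, a ≠ b → a ≠ c → a ≠ d → b ≠ c → b ≠ d → c ≠ d →
      D (q a) (q b) (q c) (q d) ≠ 0) {k : ℕ} (h4 : 4 ≤ k) (L : List (Fin k × Fin k))
    (adj : ℕ → ℕ → Bool)
    (h1 : ∀ a b : Fin k, a ≠ b → adj a b = true → (a < b ∧ (a, b) ∉ L) ∨ (b < a ∧ (b, a) ∉ L))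
    (h2 : ∀ a : Fin k, ∃ b : Fin k, a ≠ b ∧ adj a b = true)
    (hno : ∀ X, Conf k adj X → False) : ¬ HasPat (AG q) k L := by
  rintro ⟨f, hf, hf2⟩
  have hg : ∀ a b c d : Fin k, a ≠ b → a ≠ c → a ≠ d → b ≠ c → b ≠ d → c ≠ d →
      D (q (f a)) (q (f b)) (q (f c)) (q (f d)) ≠ 0 := by
    intro a b c d hab hac had hbc hbd hcd
    exact hgen _ _ _ _ (hf.ne hab) (hf.ne hac) (hf.ne had) (hf.ne hbc) (hf.ne hbd) (hf.ne hcd)
  have ha : ∀ a b : Fin k, a ≠ b → adj a b = true → Antip (fun i => q (f i)) a b := by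
    intro a b hab h
    have h' : Antip q (f a) (f b) := by
      rcases h1 a b hab h with ⟨h3, h4⟩ | ⟨h3, h4⟩
      · exact hf2 a b h3 h4
      · exact (hf2 b a h3 h4).symm
    obtain ⟨_, g, g1, g2⟩ := h'
    exact ⟨hab, g, fun c hc => g1 _ (hf.ne hc), fun c hc => g2 _ (hf.ne hc)⟩
  rcases lt_or_gt_of_ne (hg ⟨0, by omega⟩ ⟨1, by omega⟩ ⟨2, by omega⟩ ⟨3, by omega⟩ (by simp)
    (by simp) (by simp) (by simp) (by simp) (by simp)) with hlt | hgt
  · refine hno _ (conf_of h4 adj (fun i => -q (f i)) ?_ (fun a b hab h => (ha a b hab h).neg) h2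
      ?_)
    · intro a b c d hab hac had hbc hbd hcd
      rw [D_neg, neg_ne_zero]
      exact hg a b c d hab hac had hbc hbd hcd
    · rw [D_neg]; linarith
  · exact hno _ (conf_of h4 adj (fun i => q (f i)) hg ha h2 hgt)

theorem good_AG {ι : Type*} (q : ι → Fin 3 → ℝ)
    (hgen : ∀ a b c d, a ≠ b → a ≠ c → a ≠ d → b ≠ c → b ≠ d → c ≠ d →
      D (q a) (q b) (q c) (q d) ≠ 0) : Good (AG q) where
  k6 := not_hasPat q hgen (by norm_num) _ K6.adj (by decide +kernel) (by decide +kernel)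
    fun _ h => K6.no_conf h
  t57 := not_hasPat q hgen (by norm_num) _ T57.adj (by decide +kernel) (by decide +kernel)
    fun _ h => T57.no_conf h
  k2222 := not_hasPat q hgen (by norm_num) _ K2222.adj (by decide +kernel) (by decide +kernel)
    fun _ h => K2222.no_conf h
  p5k22 := not_hasPat q hgen (by norm_num) _ P5K22.adj (by decide +kernel) (by decide +kernel)
    fun _ h => P5K22.no_conf h
  p6 := not_hasPat q hgen (by norm_num) _ P6.adj (by decide +kernel) (by decide +kernel)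
    fun _ h => P6.no_conf h
  c5 := not_hasPat q hgen (by norm_num) _ C5.adj (by decide +kernel) (by decide +kernel)
    fun _ h => C5.no_conf h
  c4k2 := not_hasPat q hgen (by norm_num) _ C4K2.adj (by decide +kernel) (by decide +kernel)
    fun _ h => C4K2.no_conf h
  p7k2 := not_hasPat q hgen (by norm_num) _ P7K2.adj (by decide +kernel) (by decide +kernel)
    fun _ h => P7K2.no_conf h

end H20
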